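import Pool.Agent.H220M.Base

set_option autoImplicit false

namespace Pool.Agent.H220M

open Finset

theorem tA1 : StmA1 := by
  intro n I q hq hn hinj
  classical
  -- choose the residue
  have hex : ∀ i0 : Fin I, ∃ a : ℕ, ∀ p : Fin I × Fin n,
      a ≡ (if p.1 = i0 then (q p.1 p.2) ^ 2 + q p.1 p.2 - ((p.2 : ℕ) + 1) else 0)
        [MOD (q p.1 p.2) ^ 2] := by
    intro i0
    have h := Nat.chineseRemainderOfFinset
      (fun p : Fin I × Fin n =>
        (if p.1 = i0 then (q p.1 p.2) ^ 2 + q p.1 p.2 - ((p.2 : ℕ) + 1) else 0))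
      (fun p : Fin I × Fin n => (q p.1 p.2) ^ 2) Finset.univ
      (fun p _ => pow_ne_zero 2 (hq p.1 p.2).ne_zero)
      (by
        intro p _ p' _ hpp
        simp only [Function.onFun]
        apply Nat.Coprime.pow
        rw [Nat.coprime_primes (hq _ _) (hq _ _)]
        intro he
        apply hpp
        have := hinj _ _ _ _ he
        exact Prod.ext this.1 this.2)
    exact ⟨h.1, fun p => h.2 p (Finset.mem_univ _)⟩
  choose a ha using hex
  refine ⟨a, ?_⟩
  intro i m hm j i' j'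
  have hdvd : (q i' j') ^ 2 ∣ ∏ i, ∏ j, (q i j) ^ 2 :=
    (Finset.dvd_prod_of_mem (fun j => (q i' j) ^ 2) (Finset.mem_univ j')).trans
      (Finset.dvd_prod_of_mem (fun i => ∏ j, (q i j) ^ 2) (Finset.mem_univ i'))
  have hmm : m ≡ (if i' = i then (q i' j') ^ 2 + q i' j' - ((j' : ℕ) + 1) else 0)
      [MOD (q i' j') ^ 2] := (hm.of_dvd hdvd).trans (ha i (i', j'))
  have hp := hq i' j'
  have hnq := hn i' j'
  have hj := j.2
  have hj' := j'.2
  set Q := q i' j' with hQ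
  by_cases hi : i' = i
  · rw [if_pos hi] at hmm
    have hle : (j' : ℕ) + 1 ≤ Q ^ 2 + Q := by nlinarith [Nat.zero_le (Q ^ 2)]
    -- m + j' + 1 ≡ Q mod Q^2
    have h1 : m + (j' : ℕ) + 1 ≡ Q [MOD Q ^ 2] := by
      have h2 : m + ((j' : ℕ) + 1) ≡ (Q ^ 2 + Q - ((j' : ℕ) + 1)) + ((j' : ℕ) + 1) [MOD Q ^ 2] :=
        hmm.add_right _
      rw [Nat.sub_add_cancel hle] at h2
      have h3 : Q ^ 2 + Q ≡ Q [MOD Q ^ 2] := by
        simp [Nat.ModEq]
      have h4 := h2.trans h3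
      rw [← add_assoc] at h4
      exact h4
    by_cases hjj : j' = j
    · rw [if_pos ⟨hi, hjj⟩]
      rw [← hjj]
      have hd1 : Q ∣ m + (j' : ℕ) + 1 := by
        have h5 : m + (j' : ℕ) + 1 ≡ Q [MOD Q] := h1.of_dvd (Dvd.intro_left (Q ^ 1) (by ring))
        have h6 : Q ≡ 0 [MOD Q] := by simp [Nat.ModEq]
        exact (Nat.modEq_zero_iff_dvd).1 (h5.trans h6)
      have hd2 : ¬ Q ^ 2 ∣ m + (j' : ℕ) + 1 := by
        intro hcon
        have h7 : Q ^ 2 ∣ Q := (Nat.ModEq.dvd_iff h1 dvd_rfl).1 hcon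
        have h8 := Nat.le_of_dvd hp.pos h7
        have h9 := hp.two_le
        nlinarith
      have hne : m + (j' : ℕ) + 1 ≠ 0 := by omega
      apply le_antisymm
      · by_contra hlt
        push Not at hlt
        exact hd2 ((hp.pow_dvd_iff_le_factorization hne).2 hlt)
      · exact (hp.pow_dvd_iff_le_factorization hne).1 (by simpa using hd1)
    · rw [if_neg (fun h => hjj h.2)]
      apply Nat.factorization_eq_zero_of_not_dvd
      intro hcon
      have h5 : m + (j' : ℕ) + 1 ≡ 0 [MOD Q] :=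
        (h1.of_dvd (Dvd.intro_left (Q ^ 1) (by ring))).trans (by simp [Nat.ModEq])
      have hd1 : Q ∣ m + (j' : ℕ) + 1 := (Nat.modEq_zero_iff_dvd).1 h5
      have hne : (j' : ℕ) ≠ (j : ℕ) := fun h => hjj (Fin.ext h)
      rcases lt_or_gt_of_ne hne with hlt | hlt
      · have h6 : Q ∣ (m + (j : ℕ) + 1) - (m + (j' : ℕ) + 1) := Nat.dvd_sub hcon hd1
        have h7 : (m + (j : ℕ) + 1) - (m + (j' : ℕ) + 1) = (j : ℕ) - (j' : ℕ) := by omega
        rw [h7] at h6
        have h8 := Nat.le_of_dvd (by omega) h6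
        omega
      · have h6 : Q ∣ (m + (j' : ℕ) + 1) - (m + (j : ℕ) + 1) := Nat.dvd_sub hd1 hcon
        have h7 : (m + (j' : ℕ) + 1) - (m + (j : ℕ) + 1) = (j' : ℕ) - (j : ℕ) := by omega
        rw [h7] at h6
        have h8 := Nat.le_of_dvd (by omega) h6
        omega
  · rw [if_neg hi] at hmm
    rw [if_neg (fun h => hi h.1)]
    apply Nat.factorization_eq_zero_of_not_dvd
    intro hcon
    have h5 : Q ∣ m := (Nat.modEq_zero_iff_dvd).1 (hmm.of_dvd (Dvd.intro_left (Q ^ 1) (by ring)))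
    have h6 : Q ∣ (m + (j : ℕ) + 1) - m := Nat.dvd_sub hcon h5
    have h7 : (m + (j : ℕ) + 1) - m = (j : ℕ) + 1 := by omega
    rw [h7] at h6
    have h8 := Nat.le_of_dvd (by omega) h6
    omega

end Pool.Agent.H220M
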