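import Pool.Agent.H220M.Base

/-!
Core of part A: all primes in blocks.
-/

set_option autoImplicit false

namespace Pool.Agent.H220M

open Finset

/-- pigeonhole: a value which is taken often -/
theorem a2_pig {n : ℕ} (A : Finset ℕ) (f : ℕ → (Fin n → ℤˣ)) :
    ∃ v : Fin n → ℤˣ, A.card ≤ 2 ^ n * (A.filter (fun m => f m = v)).card := by
  classical
  by_contra hcon
  push Not at hcon
  have h1 : A.card = ∑ v : Fin n → ℤˣ, (A.filter (fun m => f m = v)).card :=
    Finset.card_eq_sum_card_fiberwise (fun _ _ => Finset.mem_coe.2 (Finset.mem_univ _))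
  have h2 : ∑ v : Fin n → ℤˣ, 2 ^ n * (A.filter (fun m => f m = v)).card <
      ∑ _v : Fin n → ℤˣ, A.card :=
    Finset.sum_lt_sum_of_nonempty ⟨fun _ => 1, Finset.mem_univ _⟩ (fun v _ => hcon v)
  rw [← Finset.mul_sum, ← h1, Finset.sum_const, Finset.card_univ, Fintype.card_fun,
    Fintype.card_fin, Fintype.card_units_int, smul_eq_mul] at h2
  exact lt_irrefl _ h2

/-- the number of elements of a residue class -/
theorem a2_cls (M a x : ℕ) (hM : 0 < M) (hx : M ≤ x) :
    x < 2 * M * ((range x).filter (fun m => m ≡ a [MOD M])).card := by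
  have h1 : x / M ≤ ((range x).filter (fun m => m ≡ a [MOD M])).card := by
    have h2 : (range (x / M)).card ≤ ((range x).filter (fun m => m ≡ a [MOD M])).card := by
      refine Finset.card_le_card_of_injOn (fun k => a % M + k * M) ?_ ?_
      · intro k hk
        rw [Finset.mem_coe, Finset.mem_range] at hk
        rw [Finset.mem_coe, Finset.mem_filter, Finset.mem_range]
        refine ⟨?_, ?_⟩
        · have e1 : a % M < M := Nat.mod_lt _ hM
          have e2 : (k + 1) * M ≤ x / M * M := Nat.mul_le_mul_right _ hk
          have e3 : x / M * M ≤ x := Nat.div_mul_le_self x M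
          show a % M + k * M < x
          nlinarith
        · show (a % M + k * M) % M = a % M
          rw [Nat.add_mul_mod_self_right, Nat.mod_mod]
      · intro k _ k' _ h
        have e1 : k * M = k' * M := Nat.add_left_cancel h
        exact Nat.eq_of_mul_eq_mul_right hM e1
    rwa [Finset.card_range] at h2
  have h3 : 1 ≤ x / M := (Nat.one_le_div_iff hM).2 hx
  have h4 : x < M * (x / M) + M := by
    have := Nat.div_add_mod x M
    have := Nat.mod_lt x hM
    omega
  have h5 : M * 1 ≤ M * (x / M) := Nat.mul_le_mul_left _ h3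
  have h6 : 2 * M * (x / M) ≤ 2 * M * ((range x).filter (fun m => m ≡ a [MOD M])).card :=
    Nat.mul_le_mul_left _ h1
  nlinarith

theorem tA2 (hA1 : StmA1) : StmA2 := by
  classical
  intro n I q hq hn hinj g t x hx
  obtain ⟨a, ha⟩ := hA1 n I q hq hn hinj
  obtain ⟨M, hMd⟩ : ∃ M, M = ∏ i, ∏ j, (q i j) ^ 2 := ⟨_, rfl⟩
  have hM : 0 < M := by
    rw [hMd]
    exact Finset.prod_pos (fun i _ => Finset.prod_pos (fun j _ => pow_pos (hq i j).pos 2))
  rw [← hMd] at hx ha ⊢
  -- the values of the function on the residue classes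
  have hval : ∀ (ε : Fin I → Fin n → ℤˣ) (i : Fin I) (m : ℕ), m ≡ a i [MOD M] → ∀ j : Fin n,
      ∏ i', ∏ j', (ε i' j') ^ ((m + j + 1).factorization (q i' j')) = ε i j := by
    intro ε i m hm j
    rw [Finset.prod_eq_single i, Finset.prod_eq_single j]
    · rw [ha i m hm j i j, if_pos ⟨rfl, rfl⟩, pow_one]
    · intro j' _ hj'
      rw [ha i m hm j i j', if_neg (fun h => hj' h.2), pow_zero]
    · intro h
      exact absurd (Finset.mem_univ _) h
    · intro i' _ hi'
      refine Finset.prod_eq_one (fun j' _ => ?_)
      rw [ha i m hm j i' j', if_neg (fun h => hi' h.1), pow_zero]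
    · intro h
      exact absurd (Finset.mem_univ _) h
  -- the frequent patterns
  have hv : ∀ i : Fin I, ∃ v : Fin n → ℤˣ, ((range x).filter (fun m => m ≡ a i [MOD M])).card ≤
      2 ^ n * (((range x).filter (fun m => m ≡ a i [MOD M])).filter
        (fun m => (fun j : Fin n => g (m + j + 1)) = v)).card :=
    fun i => a2_pig _ (fun m => fun j : Fin n => g (m + j + 1))
  choose v hv using hv
  have hbad : ((univ : Finset (Fin I → Fin n → ℤˣ)).filter (fun ε =>
        cntU (fun m => g m * ∏ i, ∏ j, (ε i j) ^ (m.factorization (q i j))) t x *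
          (2 ^ n * (2 * M)) < x)) ⊆
      Fintype.piFinset (fun i => (univ : Finset (Fin n → ℤˣ)).erase (fun j => t j * v i j)) := by
    intro ε hε
    rw [Finset.mem_filter] at hε
    rw [Fintype.mem_piFinset]
    intro i
    rw [Finset.mem_erase]
    refine ⟨?_, Finset.mem_univ _⟩
    intro hεi
    have h1 : (((range x).filter (fun m => m ≡ a i [MOD M])).filter
        (fun m => (fun j : Fin n => g (m + j + 1)) = v i)).card ≤
        cntU (fun m => g m * ∏ i, ∏ j, (ε i j) ^ (m.factorization (q i j))) t x := by
      unfold cntU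
      refine Finset.card_le_card ?_
      intro m hm
      rw [Finset.mem_filter, Finset.mem_filter] at hm
      rw [Finset.mem_filter]
      refine ⟨hm.1.1, fun j => ?_⟩
      show g (m + j + 1) * ∏ i', ∏ j', (ε i' j') ^ ((m + j + 1).factorization (q i' j')) = t j
      rw [hval ε i m hm.1.2 j, hεi]
      have e1 : g (m + j + 1) = v i j := congrFun hm.2 j
      rw [e1]
      have e2 : v i j * (t j * v i j) = t j * (v i j * v i j) := by
        rw [mul_left_comm]
      rw [e2, Int.units_mul_self, mul_one]
    have h2 := a2_cls M (a i) x hM hx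
    have h3 := hv i
    have h4 := hε.2
    have h5 : 2 * M * ((range x).filter (fun m => m ≡ a i [MOD M])).card ≤
        2 * M * (2 ^ n * (((range x).filter (fun m => m ≡ a i [MOD M])).filter
        (fun m => (fun j : Fin n => g (m + j + 1)) = v i)).card) := Nat.mul_le_mul_left _ h3
    have h6 : (((range x).filter (fun m => m ≡ a i [MOD M])).filter
        (fun m => (fun j : Fin n => g (m + j + 1)) = v i)).card * (2 ^ n * (2 * M)) ≤
        cntU (fun m => g m * ∏ i, ∏ j, (ε i j) ^ (m.factorization (q i j))) t x *
          (2 ^ n * (2 * M)) := Nat.mul_le_mul_right _ h1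
    have h7 : (((range x).filter (fun m => m ≡ a i [MOD M])).filter
        (fun m => (fun j : Fin n => g (m + j + 1)) = v i)).card * (2 ^ n * (2 * M)) =
        2 * M * (2 ^ n * (((range x).filter (fun m => m ≡ a i [MOD M])).filter
        (fun m => (fun j : Fin n => g (m + j + 1)) = v i)).card) := by ring
    rw [h7] at h6
    exact absurd (lt_of_le_of_lt h6 h4) (not_lt.2 ((h2.le).trans h5))
  refine (Finset.card_le_card hbad).trans ?_
  rw [Fintype.card_piFinset]
  have hc : ∀ i : Fin I, ((univ : Finset (Fin n → ℤˣ)).erase (fun j => t j * v i j)).card =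
      2 ^ n - 1 := by
    intro i
    rw [Finset.card_erase_of_mem (Finset.mem_univ _), Finset.card_univ, Fintype.card_fun,
      Fintype.card_fin, Fintype.card_units_int]
  rw [Finset.prod_congr rfl (fun i _ => hc i), Finset.prod_const, Finset.card_univ,
    Fintype.card_fin]

end Pool.Agent.H220M
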