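import Pool.Agent.H220M.Base

/-!
Part A3 of the project on MP_4fffd4_nt: part A for finite sets of primes.
-/

set_option autoImplicit false

namespace Pool.Agent.H220M

open Finset

namespace TA3

theorem exists_I (n : ℕ) (η : ℝ) (hη : 0 < η) : ∃ I : ℕ, (2 : ℝ) ^ n * (1 - 1 / 2 ^ n) ^ I ≤ η := by
  have h1 : 1 - 1 / (2 : ℝ) ^ n < 1 := by
    have : 0 < 1 / (2 : ℝ) ^ n := by positivity
    linarith
  obtain ⟨I, hI⟩ := exists_pow_lt_of_lt_one (show (0 : ℝ) < η / 2 ^ n by positivity) h1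
  refine ⟨I, ?_⟩
  have h2 : (0 : ℝ) < 2 ^ n := by positivity
  rw [lt_div_iff₀ h2] at hI
  linarith

theorem flip_split {n I : ℕ} (B S : Finset ℕ) (e : Fin I × Fin n ≃ B) (m : ℕ) :
    flipU S m = flipU (S \ B) m *
      ∏ i : Fin I, ∏ j : Fin n, (if ((e (i, j) : ℕ)) ∈ S then (-1 : ℤˣ) else 1) ^
        (m.factorization (e (i, j) : ℕ)) := by
  have h1 : flipU S m = flipU (S \ B) m * flipU (S ∩ B) m := by
    unfold flipU
    rw [← Finset.prod_union (Finset.disjoint_sdiff_inter S B), Finset.sdiff_union_inter]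
  rw [h1]
  congr 1
  unfold flipU
  have h2 : ∏ q ∈ S ∩ B, (-1 : ℤˣ) ^ (m.factorization q) =
      ∏ q ∈ B, (if q ∈ S then (-1 : ℤˣ) else 1) ^ (m.factorization q) := by
    rw [Finset.inter_comm, ← Finset.filter_mem_eq_inter, Finset.prod_filter]
    refine Finset.prod_congr rfl fun q hq => ?_
    split_ifs <;> simp
  rw [h2, ← Finset.prod_coe_sort B
    (fun q => (if q ∈ S then (-1 : ℤˣ) else 1) ^ (m.factorization q)), ← e.prod_comp,
    Fintype.prod_prod_type]

theorem count (hA2 : StmA2) {n I : ℕ} (Q B : Finset ℕ) (hBQ : B ⊆ Q) (hQ : ∀ q ∈ Q, q.Prime)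
    (hB : ∀ q ∈ B, n < q) (e : Fin I × Fin n ≃ B) (g : ℕ → ℤˣ) (x : ℕ)
    (hx : (∏ i : Fin I, ∏ j : Fin n, ((e (i, j) : ℕ)) ^ 2) ≤ x) :
    (Q.powerset.filter (fun S => ∃ t : Fin n → ℤˣ, cntU (fun m => g m * flipU S m) t x *
      (2 ^ n * (2 * ∏ i : Fin I, ∏ j : Fin n, ((e (i, j) : ℕ)) ^ 2)) < x)).card
      ≤ 2 ^ n * (2 ^ (Q.card - B.card) * (2 ^ n - 1) ^ I) := by
  classical
  set M := ∏ i : Fin I, ∏ j : Fin n, ((e (i, j) : ℕ)) ^ 2 with hM
  have hsub : Q.powerset.filter (fun S => ∃ t : Fin n → ℤˣ,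
      cntU (fun m => g m * flipU S m) t x * (2 ^ n * (2 * M)) < x) ⊆
      (univ : Finset (Fin n → ℤˣ)).biUnion fun t => (Q \ B).powerset.biUnion fun U =>
        Q.powerset.filter (fun S => S \ B = U ∧
          cntU (fun m => g m * flipU S m) t x * (2 ^ n * (2 * M)) < x) := by
    intro S hS
    rw [mem_filter, mem_powerset] at hS
    obtain ⟨hSQ, t, ht⟩ := hS
    simp only [mem_biUnion, mem_univ, true_and, mem_powerset, mem_filter]
    exact ⟨t, S \ B, sdiff_subset_sdiff hSQ le_rfl, hSQ, rfl, ht⟩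
  refine (card_le_card hsub).trans ?_
  have hfib : ∀ (t : Fin n → ℤˣ) (U : Finset ℕ), (Q.powerset.filter (fun S => S \ B = U ∧
      cntU (fun m => g m * flipU S m) t x * (2 ^ n * (2 * M)) < x)).card ≤ (2 ^ n - 1) ^ I := by
    intro t U
    have h := hA2 n I (fun i j => (e (i, j) : ℕ)) (fun i j => hQ _ (hBQ (e (i, j)).2))
      (fun i j => hB _ (e (i, j)).2)
      (fun i j i' j' hh => by
        have h1 : e (i, j) = e (i', j') := Subtype.ext hh
        have h2 := e.injective h1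
        exact Prod.mk.inj h2) (fun m => g m * flipU U m) t x hx
    refine le_trans ?_ h
    refine card_le_card_of_injOn (fun S i j => if (e (i, j) : ℕ) ∈ S then (-1 : ℤˣ) else 1)
      ?_ ?_
    · intro S hS
      rw [mem_coe, mem_filter] at hS
      obtain ⟨_, hSU, hlt⟩ := hS
      rw [mem_coe, mem_filter]
      refine ⟨mem_univ _, ?_⟩
      have he : (fun m => g m * flipU S m) = fun m => g m * flipU U m *
          ∏ i : Fin I, ∏ j : Fin n, (if ((e (i, j) : ℕ)) ∈ S then (-1 : ℤˣ) else 1) ^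
          (m.factorization (e (i, j) : ℕ)) := by
        funext m
        rw [flip_split B S e m, hSU, mul_assoc]
      rw [he] at hlt
      exact hlt
    · intro S hS S' hS' hh
      rw [mem_coe, mem_filter, mem_powerset] at hS hS'
      have hmem : ∀ b ∈ B, (b ∈ S ↔ b ∈ S') := by
        intro b hb
        obtain ⟨⟨i, j⟩, hij⟩ := e.surjective ⟨b, hb⟩
        have h1 := congrFun (congrFun hh i) j
        have h2 : (e (i, j) : ℕ) = b := by rw [hij]
        simp only [h2] at h1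
        by_cases hb1 : b ∈ S <;> by_cases hb2 : b ∈ S'
        · simp [hb1, hb2]
        · simp only [hb1, hb2, if_true, if_false] at h1
          exact absurd h1 (by decide)
        · simp only [hb1, hb2, if_true, if_false] at h1
          exact absurd h1 (by decide)
        · simp [hb1, hb2]
      ext b
      by_cases hb : b ∈ B
      · exact hmem b hb
      · have h3 : S \ B = S' \ B := hS.2.1.trans hS'.2.1.symm
        have h4 : b ∈ S \ B ↔ b ∈ S' \ B := by rw [h3]
        simpa [mem_sdiff, hb] using h4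
  calc _ ≤ ∑ t : Fin n → ℤˣ, ((Q \ B).powerset.biUnion fun U =>
        Q.powerset.filter (fun S => S \ B = U ∧
          cntU (fun m => g m * flipU S m) t x * (2 ^ n * (2 * M)) < x)).card := card_biUnion_le
    _ ≤ ∑ _t : Fin n → ℤˣ, ∑ _U ∈ (Q \ B).powerset, (2 ^ n - 1) ^ I :=
        sum_le_sum fun t _ => card_biUnion_le.trans (sum_le_sum fun U _ => hfib t U)
    _ = 2 ^ n * (2 ^ (Q.card - B.card) * (2 ^ n - 1) ^ I) := by
        rw [sum_const, sum_const, card_powerset, card_sdiff_of_subset hBQ, card_univ,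
          Fintype.card_fun, Fintype.card_units_int, Fintype.card_fin, smul_eq_mul, smul_eq_mul]

end TA3

theorem tA3 (hA2 : StmA2) : StmA3 := by
  classical
  intro n η hη
  obtain ⟨I, hI⟩ := TA3.exists_I n η hη
  refine ⟨n + 1 + I * n, fun Q hQ hR => ?_⟩
  have hc : I * n ≤ (Q.filter (fun q => n < q)).card := by
    have h1 := Finset.card_filter_add_card_filter_not (s := Q) (fun q => n < q)
    have h2 : (Q.filter (fun q => ¬ n < q)).card ≤ n + 1 := by
      have h3 : Q.filter (fun q => ¬ n < q) ⊆ range (n + 1) := by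
        intro q hq
        rw [mem_filter] at hq
        rw [mem_range]
        omega
      simpa using card_le_card h3
    omega
  obtain ⟨B, hBs, hBc⟩ := Finset.exists_subset_card_eq hc
  have hBQ : B ⊆ Q := hBs.trans (filter_subset _ _)
  have hB : ∀ q ∈ B, n < q := fun q hq => (mem_filter.mp (hBs hq)).2
  have e : Fin I × Fin n ≃ B := Fintype.equivOfCardEq (by simp [hBc])
  set M := ∏ i : Fin I, ∏ j : Fin n, ((e (i, j) : ℕ)) ^ 2 with hM
  have hMpos : 0 < M := by
    rw [hM]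
    refine Finset.prod_pos fun i _ => Finset.prod_pos fun j _ => ?_
    have h9 := hB _ (e (i, j)).2
    exact pow_pos (lt_of_le_of_lt (Nat.zero_le n) h9) 2
  have hMr : (0 : ℝ) < M := by exact_mod_cast hMpos
  refine ⟨1 / (2 ^ n * (2 * M)), by positivity, M, fun x hx g => ?_⟩
  have hcount := TA3.count hA2 Q B hBQ hQ hB e g x hx
  have hle : (Q.powerset.filter (fun S => ∃ t : Fin n → ℤˣ,
      (cntU (fun m => g m * flipU S m) t x : ℝ) < 1 / (2 ^ n * (2 * M)) * x)).card ≤
      2 ^ n * (2 ^ (Q.card - B.card) * (2 ^ n - 1) ^ I) := by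
    refine le_trans (card_le_card ?_) hcount
    intro S hS
    rw [mem_filter] at hS ⊢
    obtain ⟨hSQ, t, ht⟩ := hS
    refine ⟨hSQ, t, ?_⟩
    have hp : (0 : ℝ) < 2 ^ n * (2 * M) := by positivity
    rw [one_div, inv_mul_eq_div, lt_div_iff₀ hp] at ht
    have h5 : ((cntU (fun m => g m * flipU S m) t x * (2 ^ n * (2 * M)) : ℕ) : ℝ) < (x : ℝ) := by
      push_cast
      exact ht
    exact_mod_cast h5
  have hle' : ((Q.powerset.filter (fun S => ∃ t : Fin n → ℤˣ,
      (cntU (fun m => g m * flipU S m) t x : ℝ) < 1 / (2 ^ n * (2 * M)) * x)).card : ℝ) ≤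
      2 ^ n * (2 ^ (Q.card - B.card) * (2 ^ n - 1) ^ I) := by
    have h6 : ((2 ^ n * (2 ^ (Q.card - B.card) * (2 ^ n - 1) ^ I) : ℕ) : ℝ) =
        2 ^ n * (2 ^ (Q.card - B.card) * (2 ^ n - 1) ^ I) := by
      have h7 : 1 ≤ 2 ^ n := Nat.one_le_two_pow
      push_cast [Nat.cast_sub h7]
      ring
    rw [← h6]
    exact_mod_cast hle
  refine hle'.trans ?_
  have hBle : B.card ≤ Q.card := card_le_card hBQ
  have hsplit : (2 : ℝ) ^ Q.card = 2 ^ (Q.card - B.card) * (2 ^ n) ^ I := by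
    rw [← pow_mul, ← pow_add]
    congr 1
    rw [hBc] at hBle ⊢
    rw [mul_comm n I]
    omega
  have h8 : ((2 : ℝ) ^ n - 1) ^ I = (2 ^ n) ^ I * (1 - 1 / 2 ^ n) ^ I := by
    rw [← mul_pow]
    congr 1
    field_simp
  calc (2 : ℝ) ^ n * (2 ^ (Q.card - B.card) * (2 ^ n - 1) ^ I)
      = 2 ^ n * (1 - 1 / 2 ^ n) ^ I * 2 ^ Q.card := by
        rw [h8, hsplit]
        ring
    _ ≤ η * 2 ^ Q.card := by
        refine mul_le_mul_of_nonneg_right hI (by positivity)

end Pool.Agent.H220M
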