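import Pool.Agent.H220M.Base

set_option autoImplicit false

/-!
# The Chinese remainder theorem in counting form
-/

namespace Pool.Agent.H220M

open Finset

theorem tB1_two (a b : ℕ) (hab : a.Coprime b) (ha : 0 < a) (hb : 0 < b) (P P' : ℕ → Prop)
    [DecidablePred P] [DecidablePred P'] (hP : ∀ r, (P (r + a) ↔ P r))
    (hP' : ∀ r, (P' (r + b) ↔ P' r)) :
    ((range (a * b)).filter (fun r => P r ∧ P' r)).card
      = ((range a).filter P).card * ((range b).filter P').card := by
  have h1 : Function.Periodic P a := fun r => propext (hP r)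
  have h2 : Function.Periodic P' b := fun r => propext (hP' r)
  have h3 : ∀ r, P (r % a) ↔ P r := fun r => iff_of_eq (h1.map_mod_nat r)
  have h4 : ∀ r, P' (r % b) ↔ P' r := fun r => iff_of_eq (h2.map_mod_nat r)
  rw [← card_product]
  refine Finset.card_bij (fun r _ => (r % a, r % b)) ?_ ?_ ?_
  · intro r hr
    rw [mem_filter] at hr
    rw [mem_product, mem_filter, mem_filter, mem_range, mem_range]
    exact ⟨⟨Nat.mod_lt _ ha, (h3 r).2 hr.2.1⟩, ⟨Nat.mod_lt _ hb, (h4 r).2 hr.2.2⟩⟩
  · intro r hr s hs hrs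
    rw [mem_filter, mem_range] at hr hs
    rw [Prod.mk.injEq] at hrs
    have h5 : r ≡ s [MOD a * b] := (Nat.modEq_and_modEq_iff_modEq_mul hab).1 ⟨hrs.1, hrs.2⟩
    exact h5.eq_of_lt_of_lt hr.1 hs.1
  · rintro ⟨u, v⟩ huv
    rw [mem_product, mem_filter, mem_filter, mem_range, mem_range] at huv
    obtain ⟨⟨hu, hPu⟩, ⟨hv, hPv⟩⟩ := huv
    have h5 := (Nat.chineseRemainder hab u v).2
    have h6 := Nat.chineseRemainder_lt_mul hab u v ha.ne' hb.ne'
    have h7 : ((Nat.chineseRemainder hab u v : ℕ)) % a = u := by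
      rw [h5.1, Nat.mod_eq_of_lt hu]
    have h8 : ((Nat.chineseRemainder hab u v : ℕ)) % b = v := by
      rw [h5.2, Nat.mod_eq_of_lt hv]
    refine ⟨(Nat.chineseRemainder hab u v : ℕ), ?_, ?_⟩
    · rw [mem_filter, mem_range]
      refine ⟨h6, ?_, ?_⟩
      · rw [← h3, h7]
        exact hPu
      · rw [← h4, h8]
        exact hPv
    · rw [h7, h8]

theorem tB1 : StmB1 := by
  classical
  intro Q
  induction Q using Finset.induction_on with
  | empty =>
    intro _ P _ _
    simp
  | insert q Q hq ih =>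
    intro hpr P _ hP
    have hprQ : ∀ p ∈ Q, p.Prime := fun p hp => hpr p (mem_insert_of_mem hp)
    have hqp : q.Prime := hpr q (mem_insert_self _ _)
    rw [prod_insert hq, prod_insert hq,
      ← ih hprQ P (fun p hp r => hP p (mem_insert_of_mem hp) r)]
    rw [← tB1_two (q ^ 2) (∏ p ∈ Q, p ^ 2) ?_ (pow_pos hqp.pos 2)
      (prod_pos fun p hp => pow_pos (hprQ p hp).pos 2) (P q) (fun r => ∀ p ∈ Q, P p r)
      (hP q (mem_insert_self _ _)) ?_]
    · refine congrArg Finset.card (filter_congr fun r _ => ?_)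
      rw [forall_mem_insert]
    · refine Nat.Coprime.prod_right fun p hp => ?_
      refine Nat.Coprime.pow 2 2 ((Nat.coprime_primes hqp (hprQ p hp)).2 ?_)
      rintro rfl
      exact hq hp
    · intro r
      refine forall₂_congr fun p hp => ?_
      obtain ⟨k, hk⟩ : p ^ 2 ∣ ∏ p ∈ Q, p ^ 2 := dvd_prod_of_mem (fun p => p ^ 2) hp
      have h1 : Function.Periodic (P p) (p ^ 2) :=
        fun r => propext (hP p (mem_insert_of_mem hp) r)
      have h2 := h1.nat_mul k r
      rw [hk, mul_comm]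
      exact iff_of_eq (by simpa using h2)

end Pool.Agent.H220M
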