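import Pool.Agent.H220M.Base

set_option autoImplicit false

namespace Pool.Agent.H220M

open Finset

theorem tB2 : StmB2 := by
  intro M x hM P _ hP
  have hper : ∀ k r, P (k * M + r) ↔ P r := by
    intro k
    induction k with
    | zero => intro r; rw [Nat.zero_mul, Nat.zero_add]
    | succ k ih =>
      intro r
      have e : (k + 1) * M + r = (k * M + r) + M := by ring
      rw [e, hP, ih]
  have hcnt : ∀ k, Nat.count P (k * M) = k * Nat.count P M := by
    intro k
    induction k with
    | zero => simp
    | succ k ih =>
      rw [Nat.succ_mul, Nat.count_add, ih, Nat.succ_mul]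
      congr 1
      simp only [hper k]
  rw [← Nat.count_eq_card_filter_range, ← Nat.count_eq_card_filter_range, ← hcnt]
  apply Nat.count_monotone
  have h1 := Nat.div_add_mod x M
  have h2 := Nat.mod_lt x hM
  nlinarith

end Pool.Agent.H220M
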