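import Pool.Agent.H220M.Base

/-!
B4: second moment over subsets (helper89).
-/

set_option autoImplicit false

namespace Pool.Agent.H220M

open Finset

theorem tB4 : StmB4 := by
  intro Q x G hG V
  have e1 : ∀ S : Finset ℕ, (∑ m ∈ range x, G m * ∏ q ∈ S, (-1 : ℝ) ^ (V q m)) ^ 2 =
      ∑ p ∈ range x ×ˢ range x, G p.1 * G p.2 * ∏ q ∈ S, (-1 : ℝ) ^ (V q p.1 + V q p.2) := by
    intro S
    rw [sq, Finset.sum_mul_sum, Finset.sum_product]
    refine Finset.sum_congr rfl fun m _ => Finset.sum_congr rfl fun m' _ => ?_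
    simp only [pow_add, Finset.prod_mul_distrib]
    ring
  have e2 : ∑ S ∈ Q.powerset, (∑ m ∈ range x, G m * ∏ q ∈ S, (-1 : ℝ) ^ (V q m)) ^ 2 =
      ∑ p ∈ range x ×ˢ range x, G p.1 * G p.2 *
        ∏ q ∈ Q, (1 + (-1 : ℝ) ^ (V q p.1 + V q p.2)) := by
    simp only [e1]
    rw [Finset.sum_comm]
    refine Finset.sum_congr rfl fun p _ => ?_
    rw [← Finset.mul_sum, Finset.prod_one_add]
  rw [e2]
  have e3 : ∀ p : ℕ × ℕ, ∏ q ∈ Q, (1 + (-1 : ℝ) ^ (V q p.1 + V q p.2)) =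
      if ∀ q ∈ Q, Even (V q p.1 + V q p.2) then (2 : ℝ) ^ Q.card else 0 := by
    intro p
    split_ifs with h
    · rw [Finset.prod_congr rfl (g := fun _ => (2 : ℝ)) (fun q hq => by
        rw [(h q hq).neg_one_pow]; norm_num), Finset.prod_const]
    · push Not at h
      obtain ⟨q, hq, hq'⟩ := h
      refine Finset.prod_eq_zero hq ?_
      have : Odd (V q p.1 + V q p.2) := by
        rcases Nat.even_or_odd (V q p.1 + V q p.2) with h' | h'
        · exact absurd h' hq'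
        · exact h'
      rw [this.neg_one_pow]; norm_num
  have e4 : ∑ p ∈ range x ×ˢ range x, G p.1 * G p.2 *
        ∏ q ∈ Q, (1 + (-1 : ℝ) ^ (V q p.1 + V q p.2)) ≤
      ∑ p ∈ range x ×ˢ range x,
        if ∀ q ∈ Q, Even (V q p.1 + V q p.2) then (2 : ℝ) ^ Q.card else 0 := by
    refine Finset.sum_le_sum fun p _ => ?_
    rw [e3]
    have h1 : G p.1 * G p.2 ≤ 1 := by
      calc G p.1 * G p.2 ≤ |G p.1 * G p.2| := le_abs_self _
        _ = |G p.1| * |G p.2| := abs_mul _ _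
        _ ≤ 1 * 1 := mul_le_mul (hG _) (hG _) (abs_nonneg _) zero_le_one
        _ = 1 := one_mul 1
    have h2 : (0 : ℝ) ≤ if ∀ q ∈ Q, Even (V q p.1 + V q p.2) then (2 : ℝ) ^ Q.card else 0 := by
      split_ifs <;> positivity
    calc _ ≤ 1 * (if ∀ q ∈ Q, Even (V q p.1 + V q p.2) then (2 : ℝ) ^ Q.card else 0) :=
          mul_le_mul_of_nonneg_right h1 h2
      _ = _ := one_mul _
  refine e4.trans (le_of_eq ?_)
  rw [← Finset.sum_filter, Finset.sum_const, nsmul_eq_mul, mul_comm]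

end Pool.Agent.H220M
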