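import Pool.Agent.H220M.Base

set_option autoImplicit false

namespace Pool.Agent.H220M

open Finset

theorem b5_unit (u : ℤˣ) : ((u : ℤ) : ℝ) = 1 ∨ ((u : ℤ) : ℝ) = -1 := by
  rcases Int.units_eq_one_or u with h | h
  · left; rw [h]; norm_num
  · right; rw [h]; norm_num

theorem b5_ind (u t : ℤˣ) : (1 + ((t : ℤ) : ℝ) * ((u : ℤ) : ℝ)) / 2 = if u = t then 1 else 0 := by
  rcases Int.units_eq_one_or u with h | h <;> rcases Int.units_eq_one_or t with h' | h' <;>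
    subst h <;> subst h'
  · norm_num
  · have : ¬ ((1 : ℤˣ) = -1) := by decide
    rw [if_neg this]; norm_num
  · have : ¬ ((-1 : ℤˣ) = 1) := by decide
    rw [if_neg this]; norm_num
  · norm_num

theorem tB5 : StmB5 := by
  intro n f t x η hη hJ
  have h1 : (cntU f t x : ℝ) = ∑ m ∈ range x,
      ∏ j : Fin n, (1 + ((t j : ℤ) : ℝ) * (((f (m + j + 1) : ℤˣ) : ℤ) : ℝ)) / 2 := by
    unfold cntU
    rw [Finset.card_filter]
    push_cast
    refine Finset.sum_congr rfl fun m _ => ?_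
    simp_rw [b5_ind]
    rw [Finset.prod_ite_zero]
    simp
  have h2 : ∀ m : ℕ, ∏ j : Fin n, (1 + ((t j : ℤ) : ℝ) * (((f (m + j + 1) : ℤˣ) : ℤ) : ℝ)) / 2 =
      (1 / 2 ^ n) * ∑ J ∈ (univ : Finset (Fin n)).powerset,
        (∏ j ∈ J, ((t j : ℤ) : ℝ)) * ∏ j ∈ J, (((f (m + j + 1) : ℤˣ) : ℤ) : ℝ) := by
    intro m
    rw [Finset.prod_div_distrib, Finset.prod_one_add, Finset.prod_const, Finset.card_univ,
      Fintype.card_fin, div_eq_mul_one_div, mul_comm]
    congr 1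
    refine Finset.sum_congr rfl fun J _ => ?_
    rw [Finset.prod_mul_distrib]
  have h3 : (cntU f t x : ℝ) = (1 / 2 ^ n) * ∑ J ∈ (univ : Finset (Fin n)).powerset,
      (∏ j ∈ J, ((t j : ℤ) : ℝ)) *
        ∑ m ∈ range x, ∏ j ∈ J, (((f (m + j + 1) : ℤˣ) : ℤ) : ℝ) := by
    rw [h1]
    simp_rw [h2]
    rw [← Finset.mul_sum, Finset.sum_comm]
    congr 1
    refine Finset.sum_congr rfl fun J _ => ?_
    rw [Finset.mul_sum]
  have hmem : (∅ : Finset (Fin n)) ∈ (univ : Finset (Fin n)).powerset := by simp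
  have h4 : (cntU f t x : ℝ) - x / 2 ^ n = (1 / 2 ^ n) *
      ∑ J ∈ (univ : Finset (Fin n)).powerset.erase ∅, (∏ j ∈ J, ((t j : ℤ) : ℝ)) *
        ∑ m ∈ range x, ∏ j ∈ J, (((f (m + j + 1) : ℤˣ) : ℤ) : ℝ) := by
    rw [h3, ← Finset.add_sum_erase _ _ hmem]
    simp only [Finset.prod_empty, Finset.sum_const, Finset.card_range, nsmul_eq_mul, mul_one,
      one_mul]
    ring
  rw [h4, abs_mul]
  have hpos : (0:ℝ) < 1 / 2 ^ n := by positivity
  rw [abs_of_pos hpos]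
  have h5 : |∑ J ∈ (univ : Finset (Fin n)).powerset.erase ∅, (∏ j ∈ J, ((t j : ℤ) : ℝ)) *
        ∑ m ∈ range x, ∏ j ∈ J, (((f (m + j + 1) : ℤˣ) : ℤ) : ℝ)| ≤
      ∑ J ∈ (univ : Finset (Fin n)).powerset.erase ∅, η * x := by
    refine (Finset.abs_sum_le_sum_abs _ _).trans (Finset.sum_le_sum fun J hJm => ?_)
    have hne : J.Nonempty := Finset.nonempty_iff_ne_empty.2 (Finset.ne_of_mem_erase hJm)
    rw [abs_mul]
    have hone : |∏ j ∈ J, ((t j : ℤ) : ℝ)| = 1 := by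
      rw [Finset.abs_prod]
      refine Finset.prod_eq_one fun j _ => ?_
      rcases b5_unit (t j) with h | h <;> rw [h] <;> norm_num
    rw [hone, one_mul]
    exact hJ J hne
  have h6 : ∑ J ∈ (univ : Finset (Fin n)).powerset.erase ∅, η * (x:ℝ) ≤ 2 ^ n * (η * x) := by
    rw [Finset.sum_const, nsmul_eq_mul]
    refine mul_le_mul_of_nonneg_right ?_ (by positivity)
    have : ((univ : Finset (Fin n)).powerset.erase ∅).card ≤ 2 ^ n := by
      refine (Finset.card_erase_le).trans ?_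
      rw [Finset.card_powerset, Finset.card_univ, Fintype.card_fin]
    exact_mod_cast this
  calc 1 / 2 ^ n * |∑ J ∈ (univ : Finset (Fin n)).powerset.erase ∅, (∏ j ∈ J, ((t j : ℤ) : ℝ)) *
        ∑ m ∈ range x, ∏ j ∈ J, (((f (m + j + 1) : ℤˣ) : ℤ) : ℝ)|
      ≤ 1 / 2 ^ n * (2 ^ n * (η * x)) :=
        mul_le_mul_of_nonneg_left (h5.trans h6) hpos.le
    _ = η * x := by
        have : (2:ℝ) ^ n ≠ 0 := by positivity
        field_simp

end Pool.Agent.H220M
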