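import Mathlib

/-!
Sign patterns of completely multiplicative functions which agree with a given one off a finite
set of primes.  Definitions and statements.
-/

set_option autoImplicit false

namespace Pool.Agent.H220M

open Finset

/-- `∏_{q ∈ S} (-1)^{v_q(m)}` -/
def flipU (S : Finset ℕ) (m : ℕ) : ℤˣ := ∏ q ∈ S, (-1 : ℤˣ) ^ (m.factorization q)

/-- The number of `m < x` such that `f(m+1),…,f(m+n)` is the pattern `t`. -/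
def cntU {n : ℕ} (f : ℕ → ℤˣ) (t : Fin n → ℤˣ) (x : ℕ) : ℕ :=
  ((range x).filter (fun m => ∀ j : Fin n, f (m + j + 1) = t j)).card

/-- A1: residue classes -/
def StmA1 : Prop :=
  ∀ (n I : ℕ) (q : Fin I → Fin n → ℕ), (∀ i j, (q i j).Prime) → (∀ i j, n < q i j) →
    (∀ i j i' j', q i j = q i' j' → i = i' ∧ j = j') →
    ∃ a : Fin I → ℕ, ∀ (i : Fin I) (m : ℕ), m ≡ a i [MOD ∏ i, ∏ j, (q i j) ^ 2] →
      ∀ (j : Fin n) (i' : Fin I) (j' : Fin n),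
        (m + j + 1).factorization (q i' j') = if i' = i ∧ j' = j then 1 else 0

/-- A2: core of part A, all primes in blocks -/
def StmA2 : Prop :=
  ∀ (n I : ℕ) (q : Fin I → Fin n → ℕ), (∀ i j, (q i j).Prime) → (∀ i j, n < q i j) →
    (∀ i j i' j', q i j = q i' j' → i = i' ∧ j = j') →
    ∀ (g : ℕ → ℤˣ) (t : Fin n → ℤˣ) (x : ℕ), (∏ i, ∏ j, (q i j) ^ 2) ≤ x →
      ((univ : Finset (Fin I → Fin n → ℤˣ)).filter (fun ε =>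
        cntU (fun m => g m * ∏ i, ∏ j, (ε i j) ^ (m.factorization (q i j))) t x *
          (2 ^ n * (2 * ∏ i, ∏ j, (q i j) ^ 2)) < x)).card ≤ (2 ^ n - 1) ^ I

/-- A3: part A for finite sets of primes -/
def StmA3 : Prop :=
  ∀ (n : ℕ) (η : ℝ), 0 < η → ∃ R : ℕ, ∀ Q : Finset ℕ, (∀ q ∈ Q, q.Prime) → R ≤ Q.card →
    ∃ δ : ℝ, 0 < δ ∧ ∃ x₀ : ℕ, ∀ x ≥ x₀, ∀ g : ℕ → ℤˣ,
      ((Q.powerset.filter (fun S => ∃ t : Fin n → ℤˣ,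
        (cntU (fun m => g m * flipU S m) t x : ℝ) < δ * x)).card : ℝ) ≤ η * 2 ^ Q.card

/-- B1: Chinese remainder theorem, counting form -/
def StmB1 : Prop :=
  ∀ (Q : Finset ℕ), (∀ q ∈ Q, q.Prime) → ∀ (P : ℕ → ℕ → Prop) [∀ q, DecidablePred (P q)],
    (∀ q ∈ Q, ∀ r, (P q (r + q ^ 2) ↔ P q r)) →
    ((range (∏ q ∈ Q, q ^ 2)).filter (fun r => ∀ q ∈ Q, P q r)).card
      = ∏ q ∈ Q, ((range (q ^ 2)).filter (P q)).card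

/-- B2: counting a periodic condition up to `x` -/
def StmB2 : Prop :=
  ∀ (M x : ℕ), 0 < M → ∀ (P : ℕ → Prop) [DecidablePred P], (∀ r, (P (r + M) ↔ P r)) →
    ((range x).filter P).card ≤ (x / M + 1) * ((range M).filter P).card

/-- the local condition at a prime `q`, depending on a parity -/
def loc {n : ℕ} (J : Finset (Fin n)) (q e r : ℕ) : Prop :=
  if e % 2 = 0 then ¬ ∃ j ∈ J, q ∣ r + (j : ℕ) + 1 ∧ ¬ q ^ 2 ∣ r + (j : ℕ) + 1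
  else ∃ j ∈ J, q ∣ r + (j : ℕ) + 1

/-- B3: the local facts -/
def StmB3 : Prop :=
  ∀ (n : ℕ) (J : Finset (Fin n)), J.Nonempty → ∀ q : ℕ, q.Prime → 2 * n < q → ∀ e : ℕ,
    (∀ r : ℕ, (∑ j ∈ J, (r + (j : ℕ) + 1).factorization q) % 2 = e % 2 → loc J q e r) ∧
    (∀ r : ℕ, (loc J q e (r + q ^ 2) ↔ loc J q e r)) ∧
    (∀ (_ : DecidablePred (loc J q e)),
      (((range (q ^ 2)).filter (loc J q e)).card : ℝ) ≤ (q : ℝ) ^ 2 * (1 - 1 / (2 * q)))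

/-- B4: second moment over subsets -/
def StmB4 : Prop :=
  ∀ (Q : Finset ℕ) (x : ℕ) (G : ℕ → ℝ), (∀ m, |G m| ≤ 1) → ∀ V : ℕ → ℕ → ℕ,
    ∑ S ∈ Q.powerset, (∑ m ∈ range x, G m * ∏ q ∈ S, (-1 : ℝ) ^ (V q m)) ^ 2
      ≤ 2 ^ Q.card * (((range x ×ˢ range x).filter
          (fun p => ∀ q ∈ Q, Even (V q p.1 + V q p.2))).card : ℝ)

/-- B5: from correlations to patterns -/
def StmB5 : Prop :=
  ∀ (n : ℕ) (f : ℕ → ℤˣ) (t : Fin n → ℤˣ) (x : ℕ) (η : ℝ), 0 ≤ η →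
    (∀ J : Finset (Fin n), J.Nonempty →
      |∑ m ∈ range x, ∏ j ∈ J, (((f (m + j + 1) : ℤˣ) : ℤ) : ℝ)| ≤ η * x) →
    |(cntU f t x : ℝ) - x / 2 ^ n| ≤ η * x

/-- B6: second moment of the correlations -/
def StmB6 : Prop :=
  ∀ (n : ℕ) (Q : Finset ℕ), (∀ q ∈ Q, q.Prime ∧ 2 * n < q) → ∀ (g : ℕ → ℤˣ)
    (J : Finset (Fin n)), J.Nonempty → ∀ x : ℕ, (∏ q ∈ Q, q ^ 2) ≤ x →
    ∑ S ∈ Q.powerset, (∑ m ∈ range x, ∏ j ∈ J,
        (((g (m + j + 1) * flipU S (m + j + 1) : ℤˣ) : ℤ) : ℝ)) ^ 2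
      ≤ 2 ^ Q.card * (2 * x ^ 2 * ∏ q ∈ Q, (1 - 1 / (2 * (q : ℝ))))

/-- B7: part B for finite sets of primes -/
def StmB7 : Prop :=
  ∀ (n : ℕ) (η : ℝ), 0 < η → ∃ L : ℝ, ∀ Q : Finset ℕ, (∀ q ∈ Q, q.Prime) →
    L ≤ ∑ q ∈ Q, (1 : ℝ) / q →
    ∃ x₀ : ℕ, ∀ x ≥ x₀, ∀ g : ℕ → ℤˣ,
      ((Q.powerset.filter (fun S => ∃ t : Fin n → ℤˣ,
        η * x < |(cntU (fun m => g m * flipU S m) t x : ℝ) - x / 2 ^ n|)).card : ℝ)
        ≤ η * 2 ^ Q.card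

/-- The completely multiplicative functions with values `±1` on the positive integers which agree
with `g` at all primes outside `Q`. -/
def family (g : ℕ →*₀ ℤ) (Q : Finset ℕ) : Set (ℕ →*₀ ℤ) :=
  {f | (∀ p : ℕ, p.Prime → f p = 1 ∨ f p = -1) ∧ ∀ p : ℕ, p.Prime → p ∉ Q → f p = g p}

/-- F1: the family is parametrised by the subsets of `Q` -/
def StmF1 : Prop :=
  ∀ (g : ℕ →*₀ ℤ), (∀ p : ℕ, p.Prime → g p = 1 ∨ g p = -1) →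
    ∀ (Q : Finset ℕ), (∀ q ∈ Q, q.Prime) →
    ∃ (g' : ℕ → ℤˣ) (F : Finset ℕ → (ℕ →*₀ ℤ)),
      (∀ m : ℕ, m ≠ 0 → g m = g' m) ∧
      (∀ S : Finset ℕ, S ⊆ Q → ∀ m : ℕ, m ≠ 0 → F S m = ((g' m * flipU S m : ℤˣ) : ℤ)) ∧
      Set.BijOn F (↑Q.powerset : Set (Finset ℕ)) (family g Q)

end Pool.Agent.H220M
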