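import Pool.Agent.H220M.Base

/-!
Values of polynomials.  Definitions and statements.
-/

set_option autoImplicit false

namespace Pool.Agent.H220M

open Finset Polynomial

/-- P1: abstract second moment bound -/
def StmP1 : Prop :=
  ∀ (Q : Finset ℕ), (∀ q ∈ Q, q.Prime) → ∀ (V : ℕ → ℕ → ℕ) (P : ℕ → ℕ → ℕ → Prop) (κ : ℕ → ℝ),
    (∀ q ∈ Q, ∀ e r : ℕ, V q r % 2 = e % 2 → P q e r) →
    (∀ q ∈ Q, ∀ e r : ℕ, (P q e (r + q ^ 2) ↔ P q e r)) →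
    (∀ q ∈ Q, ∀ e : ℕ, ∀ (_ : DecidablePred (P q e)),
      (((range (q ^ 2)).filter (P q e)).card : ℝ) ≤ (q : ℝ) ^ 2 * (1 - κ q)) →
    ∀ G : ℕ → ℝ, (∀ m, |G m| ≤ 1) → ∀ x : ℕ, (∏ q ∈ Q, q ^ 2) ≤ x →
    ∑ S ∈ Q.powerset, (∑ m ∈ range x, G m * ∏ q ∈ S, (-1 : ℝ) ^ (V q m)) ^ 2
      ≤ 2 ^ Q.card * (2 * x ^ 2 * ∏ q ∈ Q, (1 - κ q))

/-- the local condition at `q` for the values of a polynomial at `a + b (r + 1)` -/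
def locP (F : ℤ[X]) (q e r : ℕ) : Prop :=
  if e % 2 = 0 then ¬ ((q : ℤ) ∣ F.eval ((r : ℤ) + 1) ∧ ¬ (q : ℤ) ^ 2 ∣ F.eval ((r : ℤ) + 1))
  else (q : ℤ) ∣ F.eval ((r : ℤ) + 1)

/-- `F` has a simple root modulo `q` -/
def SimpleRoot (F : ℤ[X]) (q : ℕ) : Prop :=
  ∃ a : ℤ, (q : ℤ) ∣ F.eval a ∧ ¬ (q : ℤ) ∣ F.derivative.eval a

/-- P2: local facts for polynomials -/
def StmP2 : Prop :=
  ∀ (F : ℤ[X]) (q : ℕ), q.Prime → 2 * F.natDegree ≤ q → SimpleRoot F q → ∀ e : ℕ,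
    (∀ r : ℕ, ((F.eval ((r : ℤ) + 1)).natAbs.factorization q) % 2 = e % 2 → locP F q e r) ∧
    (∀ r : ℕ, (locP F q e (r + q ^ 2) ↔ locP F q e r)) ∧
    (∀ (_ : DecidablePred (locP F q e)),
      (((range (q ^ 2)).filter (locP F q e)).card : ℝ) ≤ (q : ℝ) ^ 2 * (1 - 1 / (2 * q)))

open Classical in
/-- P3: values of polynomials, all but few modifications -/
def StmP3 : Prop :=
  ∀ (F : ℤ[X]) (η : ℝ), 0 < η → ∃ L : ℝ, ∀ Q : Finset ℕ, (∀ q ∈ Q, q.Prime) →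
    L ≤ ∑ q ∈ Q.filter (fun q => SimpleRoot F q), (1 : ℝ) / q →
    ∃ x₀ : ℕ, ∀ x ≥ x₀, ∀ G : ℕ → ℝ, (∀ m, |G m| ≤ 1) →
      ((Q.powerset.filter (fun S => η * x <
        |∑ m ∈ range x, G m *
          (((flipU S ((F.eval ((m : ℤ) + 1)).natAbs) : ℤˣ) : ℤ) : ℝ)|)).card : ℝ)
        ≤ η * 2 ^ Q.card

end Pool.Agent.H220M
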