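import Pool.Agent.H220M.Base

/-!
Infinite sets of primes.  Definitions and statements.
-/

set_option autoImplicit false

namespace Pool.Agent.H220M

open Finset MeasureTheory Filter
open scoped ENNReal

/-- the fair coin -/
noncomputable def coin : Measure Bool :=
  (1 / 2 : ℝ≥0∞) • (Measure.dirac true + Measure.dirac false)

/-- independent fair coins, one for each natural number -/
noncomputable def coins : Measure (ℕ → Bool) := Measure.infinitePi (fun _ : ℕ => coin)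

open Classical in
/-- the function `g` multiplied by the completely multiplicative function which is `-1` at the
primes `q ∈ Q` with `ω q = true` and `1` at the other primes -/
noncomputable def modif (g : ℕ → ℤˣ) (Q : Set ℕ) (ω : ℕ → Bool) (m : ℕ) : ℤˣ :=
  g m * ∏ q ∈ m.primeFactors.filter (fun q => q ∈ Q),
    (if ω q = true then (-1 : ℤˣ) else 1) ^ (m.factorization q)

open Classical in
/-- C0: averaging over a finite set of primes -/
def StmC0 : Prop :=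
  IsProbabilityMeasure coins ∧
  ∀ (g : ℕ → ℤˣ) (Q : Set ℕ) (Q₀ : Finset ℕ), (∀ q ∈ Q₀, q ∈ Q ∧ q.Prime) →
    ∀ Bad : (ℕ → ℤˣ) → Prop, MeasurableSet {ω | Bad (modif g Q ω)} → ∀ c : ℝ, 0 ≤ c →
    (∀ g' : ℕ → ℤˣ,
      ((Q₀.powerset.filter (fun S => Bad (fun m => g' m * flipU S m))).card : ℝ)
        ≤ c * 2 ^ Q₀.card) →
    coins {ω | Bad (modif g Q ω)} ≤ ENNReal.ofReal c

/-- C1: arbitrary infinite sets of primes -/
def StmC1 : Prop :=
  ∀ (g : ℕ → ℤˣ) (Q : Set ℕ), Q.Infinite → (∀ q ∈ Q, q.Prime) →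
    ∀ᵐ ω ∂coins, ∀ (n : ℕ) (t : Fin n → ℤˣ), ∃ δ : ℝ, 0 < δ ∧
      ∃ᶠ x : ℕ in atTop, δ * x ≤ (cntU (modif g Q ω) t x : ℝ)

/-- C2: sets of primes with divergent sum of reciprocals -/
def StmC2 : Prop :=
  ∀ (g : ℕ → ℤˣ) (Q : Set ℕ), (∀ q ∈ Q, q.Prime) → ¬ Summable (fun q : Q => (1 : ℝ) / (q : ℕ)) →
    (∀ (n : ℕ) (t : Fin n → ℤˣ) (η : ℝ), 0 < η →
      Tendsto (fun x : ℕ => coins {ω | η * x < |(cntU (modif g Q ω) t x : ℝ) - x / 2 ^ n|})
        atTop (nhds 0)) ∧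
    ∃ X : ℕ → ℕ, StrictMono X ∧ ∀ᵐ ω ∂coins, ∀ (n : ℕ) (t : Fin n → ℤˣ),
      Tendsto (fun k => (cntU (modif g Q ω) t (X k) : ℝ) / X k) atTop (nhds (1 / 2 ^ n))

end Pool.Agent.H220M
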