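import Pool.Agent.H220M.Base2
import Pool.Agent.H220M.Base3

/-!
High moments and almost sure statements.  Definitions and statements.
-/

set_option autoImplicit false

namespace Pool.Agent.H220M

open Finset MeasureTheory Filter Polynomial
open scoped ENNReal

/-- M1: moments over subsets -/
def StmM1 : Prop :=
  ∀ (Q : Finset ℕ) (x k : ℕ) (G : ℕ → ℝ), (∀ m, |G m| ≤ 1) → ∀ V : ℕ → ℕ → ℕ,
    ∑ S ∈ Q.powerset, (∑ m ∈ range x, G m * ∏ q ∈ S, (-1 : ℝ) ^ (V q m)) ^ k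
      ≤ 2 ^ Q.card * (((Fintype.piFinset (fun _ : Fin k => range x)).filter
          (fun τ => ∀ q ∈ Q, Even (∑ i, V q (τ i)))).card : ℝ)

/-- M2: Chinese remainder theorem for tuples, counting form -/
def StmM2 : Prop :=
  ∀ (k : ℕ) (Q : Finset ℕ), (∀ q ∈ Q, q.Prime) →
    ∀ (P : ℕ → (Fin k → ℕ) → Prop) [∀ q, DecidablePred (P q)],
    (∀ q ∈ Q, ∀ τ τ' : Fin k → ℕ, (∀ i, τ i ≡ τ' i [MOD q ^ 2]) → (P q τ ↔ P q τ')) →
    ((Fintype.piFinset (fun _ : Fin k => range (∏ q ∈ Q, q ^ 2))).filter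
        (fun τ => ∀ q ∈ Q, P q τ)).card
      = ∏ q ∈ Q, ((Fintype.piFinset (fun _ : Fin k => range (q ^ 2))).filter (P q)).card

/-- M3: counting a periodic condition in a box -/
def StmM3 : Prop :=
  ∀ (k M x : ℕ), 0 < M → ∀ (P : (Fin k → ℕ) → Prop) [DecidablePred P],
    (∀ τ τ' : Fin k → ℕ, (∀ i, τ i ≡ τ' i [MOD M]) → (P τ ↔ P τ')) →
    ((Fintype.piFinset (fun _ : Fin k => range x)).filter P).card
      ≤ (x / M + 1) ^ k * ((Fintype.piFinset (fun _ : Fin k => range M)).filter P).card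

/-- exactly one of the values is divisible by `q`, and it is not divisible by `q ^ 2` -/
def one {k : ℕ} (F : ℤ[X]) (q : ℕ) (τ : Fin k → ℕ) : Prop :=
  ∃ i, ((q : ℤ) ∣ F.eval ((τ i : ℤ) + 1) ∧ ¬ (q : ℤ) ^ 2 ∣ F.eval ((τ i : ℤ) + 1)) ∧
    ∀ i', i' ≠ i → ¬ (q : ℤ) ∣ F.eval ((τ i' : ℤ) + 1)

/-- M4a: number of zeros modulo `q` -/
def StmM4a : Prop :=
  ∀ (F : ℤ[X]) (q : ℕ), q.Prime → SimpleRoot F q →
    1 ≤ F.natDegree ∧
    ((range (q ^ 2)).filter (fun r : ℕ => (q : ℤ) ∣ F.eval ((r : ℤ) + 1))).card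
      ≤ q * F.natDegree

/-- M4: local count for tuples -/
def StmM4 : Prop :=
  ∀ (F : ℤ[X]) (q s : ℕ), q.Prime → SimpleRoot F q → 1 ≤ s → 4 * s * F.natDegree ≤ q →
    ∀ (_ : DecidablePred (fun τ : Fin (2 * s) → ℕ => ¬ one F q τ)),
    (((Fintype.piFinset (fun _ : Fin (2 * s) => range (q ^ 2))).filter
        (fun τ => ¬ one F q τ)).card : ℝ)
      ≤ ((q : ℝ) ^ 2) ^ (2 * s) * (1 - s / (2 * q))

/-- M5: exponential bound for the number of bad subsets -/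
def StmM5 : Prop :=
  ∀ (F : ℤ[X]) (η : ℝ) (s : ℕ) (Q : Finset ℕ), 0 < η → 1 ≤ s →
    (∀ q ∈ Q, q.Prime ∧ SimpleRoot F q ∧ 4 * s * F.natDegree ≤ q) →
    4 * Real.log (2 / η) + 2 ≤ ∑ q ∈ Q, (1 : ℝ) / q →
    ∀ x : ℕ, (∏ q ∈ Q, q ^ 2) ≤ x → ∀ G : ℕ → ℝ, (∀ m, |G m| ≤ 1) →
    ∀ (_ : DecidablePred (fun S : Finset ℕ => η * x <
        |∑ m ∈ range x, G m * (((flipU S ((F.eval ((m : ℤ) + 1)).natAbs) : ℤˣ) : ℤ) : ℝ)|)),
      ((Q.powerset.filter (fun S => η * x <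
        |∑ m ∈ range x, G m *
          (((flipU S ((F.eval ((m : ℤ) + 1)).natAbs) : ℤˣ) : ℤ) : ℝ)|)).card : ℝ)
        ≤ Real.exp (-(s : ℝ)) * 2 ^ Q.card

/-- M6a: interpolation between the scales `2 ^ j * r`, `B ≤ r < 2 * B` -/
def StmM6a : Prop :=
  ∀ (a : ℕ → ℝ), (∀ n, |a n| ≤ 1) →
    (∀ η : ℝ, 0 < η → ∀ B : ℕ, 1 ≤ B → ∀ᶠ j : ℕ in atTop, ∀ r : ℕ, B ≤ r → r < 2 * B →
      |∑ m ∈ range (2 ^ j * r), a m| ≤ η * ((2 ^ j * r : ℕ) : ℝ)) →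
    Tendsto (fun x : ℕ => (∑ m ∈ range x, a m) / x) atTop (nhds 0)

open Classical in
/-- The set `A` of natural numbers has large sums of reciprocals in the intervals
`((log y)^2, y]`. -/
def Thick (A : Set ℕ) : Prop :=
  Tendsto (fun y : ℕ => ∑ q ∈ (Icc 1 y).filter (fun q => q ∈ A ∧ (Nat.log 2 y) ^ 2 < q),
    (1 : ℝ) / q) atTop atTop

/-- M6b: measurability -/
def StmM6b : Prop :=
  ∀ (g : ℕ → ℤˣ) (Q : Set ℕ) (F : ℤ[X]) (w : ℕ → ℝ) (x : ℕ) (c : ℝ),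
    MeasurableSet {ω : ℕ → Bool | c <
      |∑ m ∈ range x, w m * (((modif g Q ω ((F.eval ((m : ℤ) + 1)).natAbs) : ℤˣ) : ℤ) : ℝ)|}

/-- M6: almost sure cancellation for one polynomial and one weight -/
def StmM6 : Prop :=
  ∀ (g : ℕ → ℤˣ) (Q : Set ℕ), (∀ q ∈ Q, q.Prime) → ∀ (F : ℤ[X]) (w : ℕ → ℝ),
    (∀ m, |w m| ≤ 1) → Thick {q | q ∈ Q ∧ SimpleRoot F q} →
    ∀ᵐ ω ∂coins, Tendsto (fun x : ℕ => (∑ m ∈ range x, w m *
      (((modif g Q ω ((F.eval ((m : ℤ) + 1)).natAbs) : ℤˣ) : ℤ) : ℝ)) / x) atTop (nhds 0)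

end Pool.Agent.H220M
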