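import Pool.Agent.H220M.Base3

set_option autoImplicit false

namespace Pool.Agent.H220M

open Finset MeasureTheory Filter
open scoped ENNReal

namespace C0aux

instance coin_prob : IsProbabilityMeasure coin := by
  constructor
  simp only [coin, Measure.smul_apply, Measure.add_apply, measure_univ, smul_eq_mul]
  rw [one_add_one_eq_two, one_div]
  exact ENNReal.inv_mul_cancel (by norm_num) (by norm_num)

instance coins_prob : IsProbabilityMeasure coins := by
  unfold coins; infer_instance

open Classical in
/-- the flip of the coordinates in `S` -/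
noncomputable def cm (S : Finset ℕ) (q : ℕ) (b : Bool) : Bool := if q ∈ S then !b else b

lemma coin_map_not : coin.map (fun b => !b) = coin := by
  unfold coin
  have hm : Measurable (fun b : Bool => !b) := Measurable.of_discrete
  have h1 : Measure.map (fun b : Bool => !b) (Measure.dirac true) = Measure.dirac false :=
    Measure.map_dirac' hm true
  have h2 : Measure.map (fun b : Bool => !b) (Measure.dirac false) = Measure.dirac true :=
    Measure.map_dirac' hm false
  rw [Measure.map_smul, Measure.map_add _ _ hm, h1, h2]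
  rw [add_comm]

lemma coin_map_cm (S : Finset ℕ) (q : ℕ) : coin.map (cm S q) = coin := by
  unfold cm
  by_cases h : q ∈ S
  · simp only [h, if_true]; exact coin_map_not
  · simp only [h, if_false]; exact Measure.map_id

/-- the flip -/
noncomputable def T (S : Finset ℕ) (ω : ℕ → Bool) : ℕ → Bool := fun q => cm S q (ω q)

lemma measurable_T (S : Finset ℕ) : Measurable (T S) := by
  unfold T
  refine measurable_pi_lambda _ fun q => ?_
  exact (Measurable.of_discrete (f := cm S q)).comp (measurable_pi_apply q)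

lemma coins_map_T (S : Finset ℕ) : coins.map (T S) = coins := by
  unfold coins T
  have := Measure.infinitePi_map_pi (μ := fun _ : ℕ => coin) (f := fun q => cm S q)
    (fun q => measurable_from_top)
  rw [this]
  congr 1
  funext q
  exact coin_map_cm S q

lemma modif_T (g : ℕ → ℤˣ) (Q : Set ℕ) (S : Finset ℕ) (hS : ∀ q ∈ S, q ∈ Q ∧ q.Prime)
    (ω : ℕ → Bool) (m : ℕ) :
    modif g Q (T S ω) m = modif g Q ω m * flipU S m := by
  classical
  unfold modif flipU
  rw [mul_assoc]
  congr 1
  have h1 : ∀ q ∈ m.primeFactors.filter (fun q => q ∈ Q),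
      (if T S ω q = true then (-1 : ℤˣ) else 1) ^ (m.factorization q) =
      (if ω q = true then (-1 : ℤˣ) else 1) ^ (m.factorization q) *
        (if q ∈ S then (-1 : ℤˣ) ^ (m.factorization q) else 1) := by
    intro q _
    unfold T cm
    by_cases hq : q ∈ S
    · by_cases hw : ω q = true
      · simp [hq, hw, ← mul_pow]
      · simp [hq, hw]
    · simp [hq]
  have h0 : ∏ q ∈ m.primeFactors.filter (fun q => q ∈ Q),
      (if T S ω q = true then (-1 : ℤˣ) else 1) ^ (m.factorization q) =
      ∏ q ∈ m.primeFactors.filter (fun q => q ∈ Q),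
      ((if ω q = true then (-1 : ℤˣ) else 1) ^ (m.factorization q) *
        (if q ∈ S then (-1 : ℤˣ) ^ (m.factorization q) else 1)) := Finset.prod_congr rfl h1
  have h2 : ∏ q ∈ m.primeFactors.filter (fun q => q ∈ Q),
        (if q ∈ S then (-1 : ℤˣ) ^ (m.factorization q) else 1) =
      ∏ q ∈ S, (-1 : ℤˣ) ^ (m.factorization q) := by
    rw [← Finset.prod_filter]
    apply Finset.prod_subset
    · intro q hq
      exact (Finset.mem_filter.mp hq).2
    · intro q hq hq'
      have hp := (hS q hq)
      have : m.factorization q = 0 := by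
        by_contra hne
        apply hq'
        rw [Finset.mem_filter, Finset.mem_filter]
        refine ⟨⟨?_, hp.1⟩, hq⟩
        rw [← Nat.support_factorization]
        exact Finsupp.mem_support_iff.mpr hne
      rw [this, pow_zero]
  rw [h0, Finset.prod_mul_distrib, h2]

end C0aux

open C0aux in
theorem tC0 : StmC0 := by
  classical
  refine ⟨coins_prob, ?_⟩
  intro g Q Q₀ hQ Bad hmeas c hc hbad
  set E : Set (ℕ → Bool) := {ω | Bad (modif g Q ω)} with hE
  have hS : ∀ S ∈ Q₀.powerset, coins ((T S) ⁻¹' E) = coins E := by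
    intro S _
    rw [← Measure.map_apply (measurable_T S) hmeas, coins_map_T]
  have hsum : ∑ S ∈ Q₀.powerset, coins ((T S) ⁻¹' E) = (2 ^ Q₀.card : ℕ) * coins E := by
    rw [Finset.sum_congr rfl hS, Finset.sum_const, card_powerset, nsmul_eq_mul]
  have hint : ∑ S ∈ Q₀.powerset, coins ((T S) ⁻¹' E) ≤ ENNReal.ofReal (c * 2 ^ Q₀.card) := by
    have h1 : ∑ S ∈ Q₀.powerset, coins ((T S) ⁻¹' E) =
        ∫⁻ ω, ∑ S ∈ Q₀.powerset, ((T S) ⁻¹' E).indicator (fun _ => (1 : ℝ≥0∞)) ω ∂coins := by
      rw [lintegral_finsetSum]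
      · refine Finset.sum_congr rfl fun S _ => ?_
        rw [lintegral_indicator ((measurable_T S) hmeas)]
        simp
      · intro S _
        exact measurable_const.indicator ((measurable_T S) hmeas)
    rw [h1]
    have h2 : ∀ ω, ∑ S ∈ Q₀.powerset, ((T S) ⁻¹' E).indicator (fun _ => (1 : ℝ≥0∞)) ω ≤
        ENNReal.ofReal (c * 2 ^ Q₀.card) := by
      intro ω
      have h3 : ∑ S ∈ Q₀.powerset, ((T S) ⁻¹' E).indicator (fun _ => (1 : ℝ≥0∞)) ω =
          (((Q₀.powerset.filter (fun S => Bad (fun m => modif g Q ω m * flipU S m))).card : ℕ) :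
            ℝ≥0∞) := by
        rw [Finset.card_filter, Nat.cast_sum]
        refine Finset.sum_congr rfl fun S hSm => ?_
        have hSp : ∀ q ∈ S, q ∈ Q ∧ q.Prime := fun q hq => hQ q (Finset.mem_powerset.mp hSm hq)
        have : (ω ∈ (T S) ⁻¹' E) ↔ Bad (fun m => modif g Q ω m * flipU S m) := by
          rw [Set.mem_preimage, hE, Set.mem_ofPred_eq]
          have : modif g Q (T S ω) = fun m => modif g Q ω m * flipU S m := by
            funext m; exact modif_T g Q S hSp ω m
          rw [this]
        by_cases hb : Bad (fun m => modif g Q ω m * flipU S m)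
        · rw [Set.indicator_of_mem (this.mpr hb)]; simp [hb]
        · rw [Set.indicator_of_notMem (fun h => hb (this.mp h))]; simp [hb]
      rw [h3]
      rw [← ENNReal.ofReal_natCast]
      apply ENNReal.ofReal_le_ofReal
      have := hbad (modif g Q ω)
      convert this
    calc ∫⁻ ω, ∑ S ∈ Q₀.powerset, ((T S) ⁻¹' E).indicator (fun _ => (1 : ℝ≥0∞)) ω ∂coins
        ≤ ∫⁻ _, ENNReal.ofReal (c * 2 ^ Q₀.card) ∂coins := lintegral_mono h2
      _ = ENNReal.ofReal (c * 2 ^ Q₀.card) := by
          rw [lintegral_const, measure_univ, mul_one]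
  rw [hsum] at hint
  have hpow : ENNReal.ofReal (c * 2 ^ Q₀.card) = ((2 ^ Q₀.card : ℕ) : ℝ≥0∞) * ENNReal.ofReal c := by
    rw [mul_comm c, ENNReal.ofReal_mul (by positivity)]
    congr 1
    rw [← ENNReal.ofReal_natCast]
    congr 1
    push_cast
    rfl
  rw [hpow] at hint
  have hne0 : ((2 ^ Q₀.card : ℕ) : ℝ≥0∞) ≠ 0 := by
    exact_mod_cast (pow_ne_zero _ (by norm_num : (2:ℕ) ≠ 0))
  have hnet : ((2 ^ Q₀.card : ℕ) : ℝ≥0∞) ≠ ⊤ := ENNReal.natCast_ne_top _
  exact (ENNReal.mul_le_mul_iff_right hne0 hnet).mp hint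

end Pool.Agent.H220M
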