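import Pool.Agent.H220M.Base3

/-!
Infinite sets of primes: every sign pattern occurs with positive upper density, almost surely.
-/

set_option autoImplicit false

namespace Pool.Agent.H220M

open Finset MeasureTheory Filter
open scoped ENNReal

theorem meas_of_dep (A : Set (ℕ → Bool)) (N : ℕ)
    (h : ∀ ω ω' : ℕ → Bool, (∀ i < N, ω i = ω' i) → ω ∈ A → ω' ∈ A) : MeasurableSet A := by
  let π : (ℕ → Bool) → (Fin N → Bool) := fun ω i => ω i
  have hπ : Measurable π := measurable_pi_lambda _ fun i => measurable_pi_apply _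
  have hA : A = π ⁻¹' (π '' A) := by
    ext ω
    constructor
    · intro hω
      exact ⟨ω, hω, rfl⟩
    · rintro ⟨ω', hω', he⟩
      exact h ω' ω (fun i hi => congrFun he ⟨i, hi⟩) hω'
  rw [hA]
  exact hπ (Set.toFinite _).measurableSet

theorem modif_congr (g : ℕ → ℤˣ) (Q : Set ℕ) {ω ω' : ℕ → Bool} {m N : ℕ} (hm : m < N)
    (h : ∀ i < N, ω i = ω' i) : modif g Q ω m = modif g Q ω' m := by
  classical
  unfold modif
  congr 1
  refine Finset.prod_congr rfl fun q hq => ?_
  rw [h q (lt_of_le_of_lt (Nat.le_of_mem_primeFactors (Finset.filter_subset _ _ hq)) hm)]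

theorem meas_cnt (g : ℕ → ℤˣ) (Q : Set ℕ) {n : ℕ} (t : Fin n → ℤˣ) (x : ℕ) (c : ℝ) :
    MeasurableSet {ω : ℕ → Bool | (cntU (modif g Q ω) t x : ℝ) < c} := by
  refine meas_of_dep _ (x + n + 1) ?_
  intro ω ω' h hω
  have he : cntU (modif g Q ω) t x = cntU (modif g Q ω') t x := by
    unfold cntU
    congr 1
    refine Finset.filter_congr fun m hm => ?_
    refine forall_congr' fun j => ?_
    have hm' := Finset.mem_range.1 hm
    rw [modif_congr g Q (m := m + j + 1) (N := x + n + 1) (by omega) h]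
  have hω' : (cntU (modif g Q ω) t x : ℝ) < c := hω
  rw [he] at hω'
  exact hω'

theorem tC1 (hC0 : StmC0) (hA3 : StmA3) : StmC1 := by
  intro g Q hQ hp
  obtain ⟨hprob, hC⟩ := hC0
  rw [ae_all_iff]
  intro n
  rw [ae_all_iff]
  intro t
  rw [ae_iff]
  -- it suffices to bound by every positive number
  have key : ∀ η : ℝ, 0 < η →
      coins {ω | ¬ ∃ δ : ℝ, 0 < δ ∧ ∃ᶠ x : ℕ in atTop, δ * x ≤ (cntU (modif g Q ω) t x : ℝ)}
        ≤ ENNReal.ofReal η := by
    intro η hη
    obtain ⟨R, hR⟩ := hA3 n η hη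
    obtain ⟨Q₀, hQ₀, hcard⟩ := hQ.exists_subset_card_eq R
    obtain ⟨δ, hδ, x₀, hx₀⟩ := hR Q₀ (fun q hq => hp q (hQ₀ hq)) hcard.ge
    let B : ℕ → Set (ℕ → Bool) := fun x => {ω | (cntU (modif g Q ω) t x : ℝ) < δ * x}
    have hB : ∀ x ≥ x₀, coins (B x) ≤ ENNReal.ofReal η := by
      intro x hx
      refine hC g Q Q₀ (fun q hq => ⟨hQ₀ hq, hp q (hQ₀ hq)⟩)
        (fun h => (cntU h t x : ℝ) < δ * x) (meas_cnt g Q t x (δ * x)) η hη.le ?_
      intro g'
      refine le_trans ?_ (hx₀ x hx g')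
      norm_cast
      refine Finset.card_le_card ?_
      intro S hS
      rw [Finset.mem_filter] at hS ⊢
      exact ⟨hS.1, t, hS.2⟩
    let D : ℕ → Set (ℕ → Bool) := fun y => {ω | ∀ x ≥ max y x₀, ω ∈ B x}
    have hD : Monotone D := by
      intro y y' hy ω hω x hx
      exact hω x (le_trans (max_le_max hy le_rfl) hx)
    have hsub : {ω | ¬ ∃ δ : ℝ, 0 < δ ∧ ∃ᶠ x : ℕ in atTop,
        δ * x ≤ (cntU (modif g Q ω) t x : ℝ)} ⊆ ⋃ y, D y := by
      intro ω hω
      have h1 : ¬ ∃ᶠ x : ℕ in atTop, δ * x ≤ (cntU (modif g Q ω) t x : ℝ) := by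
        intro h
        exact hω ⟨δ, hδ, h⟩
      rw [Filter.not_frequently, Filter.eventually_atTop] at h1
      obtain ⟨y, hy⟩ := h1
      refine Set.mem_iUnion.2 ⟨y, ?_⟩
      intro x hx
      exact not_le.1 (hy x (le_trans (le_max_left _ _) hx))
    refine le_trans (measure_mono hsub) ?_
    rw [hD.measure_iUnion]
    refine iSup_le fun y => ?_
    refine le_trans (measure_mono ?_) (hB (max y x₀) (le_max_right _ _))
    intro ω hω
    exact hω _ le_rfl
  refine le_antisymm ?_ bot_le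
  refine ENNReal.le_of_forall_pos_le_add ?_
  intro ε hε _
  rw [zero_add]
  have := key (ε : ℝ) (by exact_mod_cast hε)
  simpa using this

end Pool.Agent.H220M
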