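import Pool.Agent.H220M.Base

/-!
Parametrisation of the family of completely multiplicative sign functions which agree with a given
one off a finite set of primes, by the subsets of that set.
-/

set_option autoImplicit false

namespace Pool.Agent.H220M

open Finset

theorem F1.flipU_mul (S : Finset ℕ) {a b : ℕ} (ha : a ≠ 0) (hb : b ≠ 0) :
    flipU S (a * b) = flipU S a * flipU S b := by
  unfold flipU
  rw [← Finset.prod_mul_distrib]
  refine Finset.prod_congr rfl fun q _ => ?_
  rw [Nat.factorization_mul ha hb, Finsupp.add_apply, pow_add]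

theorem F1.flipU_one (S : Finset ℕ) : flipU S 1 = 1 := by
  simp [flipU]

theorem F1.flipU_prime (S : Finset ℕ) {p : ℕ} (hp : p.Prime) :
    flipU S p = if p ∈ S then -1 else 1 := by
  unfold flipU
  have h : ∀ q ∈ S, (-1 : ℤˣ) ^ (p.factorization q) = if p = q then -1 else 1 := by
    intro q _
    rw [hp.factorization, Finsupp.single_apply]
    split_ifs <;> simp
  rw [Finset.prod_congr rfl h, Finset.prod_ite_eq]

theorem F1.pm (g : ℕ →*₀ ℤ) (hg : ∀ p : ℕ, p.Prime → g p = 1 ∨ g p = -1) (m : ℕ) :
    m ≠ 0 → (g m = 1 ∨ g m = -1) := by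
  induction m using induction_on_primes with
  | zero => intro h; exact absurd rfl h
  | one => intro _; left; exact map_one g
  | prime_mul p a hp ih =>
    intro h
    have ha : a ≠ 0 := fun h0 => h (by rw [h0, mul_zero])
    rw [map_mul]
    rcases hg p hp with h1 | h1 <;> rcases ih ha with h2 | h2 <;> rw [h1, h2] <;> simp

theorem F1.ext (f g : ℕ →*₀ ℤ) (h : ∀ p : ℕ, p.Prime → f p = g p) : f = g := by
  apply MonoidWithZeroHom.ext
  intro m
  induction m using induction_on_primes with
  | zero => simp
  | one => simp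
  | prime_mul p a hp ih => rw [map_mul, map_mul, h p hp, ih]

/-- the twist of `g` by the flips at the primes of `S` -/
noncomputable def F1.F (g : ℕ →*₀ ℤ) (S : Finset ℕ) : ℕ →*₀ ℤ where
  toFun m := g m * ((flipU S m : ℤˣ) : ℤ)
  map_zero' := by simp
  map_one' := by simp [F1.flipU_one]
  map_mul' a b := by
    by_cases ha : a = 0
    · simp [ha]
    by_cases hb : b = 0
    · simp [hb]
    rw [map_mul, F1.flipU_mul S ha hb, Units.val_mul]
    ring

theorem F1.F_apply (g : ℕ →*₀ ℤ) (S : Finset ℕ) (m : ℕ) :
    F1.F g S m = g m * ((flipU S m : ℤˣ) : ℤ) := rfl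

theorem tF1 : StmF1 := by
  intro g hg Q hQ
  refine ⟨fun m => if g m = 1 then 1 else -1, F1.F g, ?_, ?_, ?_, ?_, ?_⟩
  · intro m hm
    rcases F1.pm g hg m hm with h | h
    · simp [h]
    · simp [h]
  · intro S _ m hm
    rw [F1.F_apply, Units.val_mul]
    congr 1
    rcases F1.pm g hg m hm with h | h
    · simp [h]
    · simp [h]
  · -- maps to
    intro S hS
    have hSQ : S ⊆ Q := by simpa using hS
    refine ⟨fun p hp => ?_, fun p hp hpQ => ?_⟩
    · rw [F1.F_apply, F1.flipU_prime S hp]
      rcases hg p hp with h | h <;> rw [h] <;> split_ifs <;> simp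
    · rw [F1.F_apply, F1.flipU_prime S hp, if_neg (fun h => hpQ (hSQ h))]
      simp
  · -- injective
    intro S hS T hT hST
    have hSQ : S ⊆ Q := by simpa using hS
    have hTQ : T ⊆ Q := by simpa using hT
    have key : ∀ p : ℕ, p.Prime → (p ∈ S ↔ p ∈ T) := by
      intro p hp
      have h := congrArg (fun f : ℕ →*₀ ℤ => f p) hST
      simp only [F1.F_apply, F1.flipU_prime _ hp] at h
      rcases hg p hp with h1 | h1 <;> rw [h1] at h <;> by_cases h2 : p ∈ S <;>
        by_cases h3 : p ∈ T <;> simp [h2, h3] at h ⊢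
    ext p
    constructor
    · intro h
      exact (key p (hQ p (hSQ h))).1 h
    · intro h
      exact (key p (hQ p (hTQ h))).2 h
  · -- surjective
    rintro f ⟨hf1, hf2⟩
    refine ⟨Q.filter (fun q => f q ≠ g q),
      Finset.mem_coe.2 (Finset.mem_powerset.2 (Finset.filter_subset _ _)), ?_⟩
    apply F1.ext
    intro p hp
    rw [F1.F_apply, F1.flipU_prime _ hp]
    by_cases hpQ : p ∈ Q
    · by_cases hne : f p = g p
      · rw [if_neg (by simp [hne])]
        simp [hne]
      · rw [if_pos (by simp [hpQ, hne])]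
        rcases hg p hp with h1 | h1 <;> rcases hf1 p hp with h2 | h2
        · exact absurd (h2.trans h1.symm) hne
        · rw [h1, h2]; simp
        · rw [h1, h2]; simp
        · exact absurd (h2.trans h1.symm) hne
    · rw [if_neg (by simp [hpQ]), hf2 p hp hpQ]
      simp

end Pool.Agent.H220M
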