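import Pool.Agent.H220M.A1
import Pool.Agent.H220M.A2
import Pool.Agent.H220M.A3
import Pool.Agent.H220M.F1

/-!
Final translation, part A.
-/

set_option autoImplicit false

namespace Pool.Agent.H220M

open Finset Filter

/-- The number of `m < x` such that `f(m+1), …, f(m+n)` is the pattern `t`. -/
def cnt {n : ℕ} (f : ℕ →*₀ ℤ) (t : Fin n → ℤ) (x : ℕ) : ℕ :=
  ((range x).filter (fun m => ∀ j : Fin n, f (m + j + 1) = t j)).card

theorem stmA3 : StmA3 := tA3 (tA2 tA1)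

theorem cnt_eq {n : ℕ} (f : ℕ →*₀ ℤ) (u : ℕ → ℤˣ) (h : ∀ m : ℕ, m ≠ 0 → f m = ((u m : ℤˣ) : ℤ))
    (t : Fin n → ℤˣ) (x : ℕ) : cnt f (fun j => ((t j : ℤˣ) : ℤ)) x = cntU u t x := by
  unfold cnt cntU
  congr 1
  apply Finset.filter_congr
  intro m _
  apply forall_congr'
  intro j
  rw [h _ (by omega)]
  exact Units.val_inj

theorem unit_of_pm {n : ℕ} (t : Fin n → ℤ) (ht : ∀ j, t j = 1 ∨ t j = -1) :
    ∃ t' : Fin n → ℤˣ, t = fun j => ((t' j : ℤˣ) : ℤ) := by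
  refine ⟨fun j => if t j = 1 then 1 else -1, ?_⟩
  funext j
  rcases ht j with h | h
  · simp [h]
  · simp [h]

/-- number of bad functions in the family through subsets -/
theorem family_bad (g : ℕ →*₀ ℤ) (hg : ∀ p : ℕ, p.Prime → g p = 1 ∨ g p = -1) (Q : Finset ℕ)
    (hQ : ∀ q ∈ Q, q.Prime) :
    ∃ g' : ℕ → ℤˣ, (family g Q).Finite ∧ (family g Q).ncard = 2 ^ Q.card ∧
      ∀ (B : (ℕ →*₀ ℤ) → Prop) (C : Finset ℕ → Prop) [DecidablePred C],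
        (∀ (f : ℕ →*₀ ℤ) (S : Finset ℕ), S ⊆ Q →
          (∀ m : ℕ, m ≠ 0 → f m = ((g' m * flipU S m : ℤˣ) : ℤ)) → B f → C S) →
        {f ∈ family g Q | B f}.ncard ≤ (Q.powerset.filter C).card := by
  obtain ⟨g', F, h1, h2, h3⟩ := tF1 g hg Q hQ
  have hfin : (family g Q).Finite := by
    rw [← h3.image_eq]
    exact (Finset.finite_toSet _).image _
  refine ⟨g', hfin, ?_, ?_⟩
  · rw [← h3.image_eq, Set.ncard_image_of_injOn h3.injOn, Set.ncard_coe_finset, Finset.card_powerset]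
  · intro B C _ hBC
    have hsub : {f ∈ family g Q | B f} ⊆ F '' (↑(Q.powerset.filter C) : Set (Finset ℕ)) := by
      rintro f ⟨hf, hb⟩
      obtain ⟨S, hS, rfl⟩ := h3.surjOn hf
      refine ⟨S, ?_, rfl⟩
      have hSQ : S ⊆ Q := by simpa using hS
      simp only [Finset.coe_filter, Finset.mem_powerset, Set.mem_setOf_eq]
      exact ⟨hSQ, hBC _ S hSQ (h2 S hSQ) hb⟩
    calc {f ∈ family g Q | B f}.ncard
        ≤ (F '' (↑(Q.powerset.filter C) : Set (Finset ℕ))).ncard :=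
          Set.ncard_le_ncard hsub ((Finset.finite_toSet _).image _)
      _ ≤ (↑(Q.powerset.filter C) : Set (Finset ℕ)).ncard :=
          Set.ncard_image_le (Finset.finite_toSet _)
      _ = _ := Set.ncard_coe_finset _

theorem finalA (n : ℕ) (η : ℝ) (hη : 0 < η) :
    ∃ R : ℕ, ∀ Q : Finset ℕ, (∀ q ∈ Q, q.Prime) → R ≤ Q.card →
      ∃ δ : ℝ, 0 < δ ∧ ∃ x₀ : ℕ, ∀ g : ℕ →*₀ ℤ, (∀ p : ℕ, p.Prime → g p = 1 ∨ g p = -1) →
        (family g Q).Finite ∧ (family g Q).ncard = 2 ^ Q.card ∧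
        (∀ x ≥ x₀, ({f ∈ family g Q | ∃ t : Fin n → ℤ, (∀ j, t j = 1 ∨ t j = -1) ∧
            (cnt f t x : ℝ) < δ * x}.ncard : ℝ) ≤ η * 2 ^ Q.card) ∧
        ({f ∈ family g Q | ∃ t : Fin n → ℤ, (∀ j, t j = 1 ∨ t j = -1) ∧
            ∀ᶠ x : ℕ in atTop, (cnt f t x : ℝ) < δ * x}.ncard : ℝ) ≤ η * 2 ^ Q.card := by
  obtain ⟨R, hR⟩ := stmA3 n η hη
  refine ⟨R, fun Q hQ hcard => ?_⟩
  obtain ⟨δ, hδ, x₀, hx⟩ := hR Q hQ hcard
  refine ⟨δ, hδ, x₀, fun g hg => ?_⟩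
  obtain ⟨g', hfin, hcardF, hbad⟩ := family_bad g hg Q hQ
  have key : ∀ x ≥ x₀, ({f ∈ family g Q | ∃ t : Fin n → ℤ, (∀ j, t j = 1 ∨ t j = -1) ∧
            (cnt f t x : ℝ) < δ * x}.ncard : ℝ) ≤ η * 2 ^ Q.card := by
    intro x hxx
    refine le_trans ?_ (hx x hxx g')
    rw [Nat.cast_le]
    apply hbad
    rintro f S hS hf ⟨t, ht, hlt⟩
    obtain ⟨t', rfl⟩ := unit_of_pm t ht
    refine ⟨t', ?_⟩
    rwa [cnt_eq f (fun m => g' m * flipU S m) hf] at hlt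
  refine ⟨hfin, hcardF, key, ?_⟩
  -- a common scale for the finitely many functions
  set A : Set (ℕ →*₀ ℤ) := {f ∈ family g Q | ∃ t : Fin n → ℤ, (∀ j, t j = 1 ∨ t j = -1) ∧
            ∀ᶠ x : ℕ in atTop, (cnt f t x : ℝ) < δ * x} with hA
  have hAfin : A.Finite := hfin.subset (fun f hf => hf.1)
  have hev : ∀ᶠ x : ℕ in atTop, ∀ f ∈ A, ∃ t : Fin n → ℤ, (∀ j, t j = 1 ∨ t j = -1) ∧
      (cnt f t x : ℝ) < δ * x := by
    rw [Filter.eventually_all_finite hAfin]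
    rintro f ⟨_, t, ht, hev⟩
    exact hev.mono fun x hx => ⟨t, ht, hx⟩
  obtain ⟨x, hxA, hxx⟩ := (hev.and (eventually_ge_atTop x₀)).exists
  refine le_trans ?_ (key x hxx)
  rw [Nat.cast_le]
  apply Set.ncard_le_ncard _ (hfin.subset (fun f hf => hf.1))
  intro f hf
  exact ⟨hf.1, hxA f hf⟩

end Pool.Agent.H220M
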