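import Pool.Agent.H220M.Fin1
import Pool.Agent.H220M.Base2

/-!
Final translation, part B (values of polynomials).
-/

set_option autoImplicit false

namespace Pool.Agent.H220M

open Finset Filter Polynomial

open Classical in
/-- all but few modifications are uncorrelated with a bounded weight at the values of `F` -/
theorem finalP (hP3 : StmP3) (F : ℤ[X]) (η : ℝ) (hη : 0 < η) :
    ∃ L : ℝ, ∀ Q : Finset ℕ, (∀ q ∈ Q, q.Prime) →
      L ≤ ∑ q ∈ Q.filter (fun q => SimpleRoot F q), (1 : ℝ) / q →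
      ∃ x₀ : ℕ, ∀ g : ℕ →*₀ ℤ, (∀ p : ℕ, p.Prime → g p = 1 ∨ g p = -1) →
        ∀ w : ℕ → ℝ, (∀ m, |w m| ≤ 1) → ∀ x ≥ x₀,
          ({f ∈ family g Q | η * x <
            |∑ m ∈ Icc 1 x, w m * ((f ((F.eval (m : ℤ)).natAbs) : ℤ) : ℝ)|}.ncard : ℝ)
            ≤ η * 2 ^ Q.card := by
  obtain ⟨L, hL⟩ := hP3 F η hη
  refine ⟨L, fun Q hQ hs => ?_⟩
  obtain ⟨x₀, hx⟩ := hL Q hQ hs
  refine ⟨x₀, fun g hg w hw x hxx => ?_⟩
  obtain ⟨g', hfin, hcardF, hbad⟩ := family_bad g hg Q hQ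
  set G : ℕ → ℝ := fun m => w (m + 1) *
    (if F.eval ((m : ℤ) + 1) = 0 then 0 else (((g' (F.eval ((m : ℤ) + 1)).natAbs : ℤˣ) : ℤ) : ℝ))
    with hG
  have hG1 : ∀ m, |G m| ≤ 1 := by
    intro m
    simp only [hG]
    rw [abs_mul]
    have h2 : |(if F.eval ((m : ℤ) + 1) = 0 then (0 : ℝ) else
        (((g' (F.eval ((m : ℤ) + 1)).natAbs : ℤˣ) : ℤ) : ℝ))| ≤ 1 := by
      split_ifs
      · simp
      · rcases Int.units_eq_one_or (g' (F.eval ((m : ℤ) + 1)).natAbs) with h | h <;> simp [h]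
    calc |w (m + 1)| * _ ≤ 1 * 1 := mul_le_mul (hw _) h2 (abs_nonneg _) zero_le_one
      _ = 1 := one_mul 1
  refine le_trans ?_ (hx x hxx G hG1)
  rw [Nat.cast_le]
  apply hbad
  intro f S hS hf hlt
  have hsum : ∑ m ∈ Icc 1 x, w m * ((f ((F.eval (m : ℤ)).natAbs) : ℤ) : ℝ)
      = ∑ m ∈ range x, G m * (((flipU S ((F.eval ((m : ℤ) + 1)).natAbs) : ℤˣ) : ℤ) : ℝ) := by
    rw [Finset.range_eq_Ico, ← Finset.sum_Ico_add_right_sub_eq (a := 0) (b := x) (c := 1)]
    · apply Finset.sum_congr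
      · ext m; simp only [Finset.mem_Icc, Finset.mem_Ico]; omega
      · intro m hm
        have hm1 : 1 ≤ m := by
          simp only [Finset.mem_Ico] at hm; omega
        simp only [hG]
        have e1 : m - 1 + 1 = m := by omega
        have e2 : ((m - 1 : ℕ) : ℤ) + 1 = (m : ℤ) := by omega
        rw [e1, e2]
        by_cases h0 : F.eval (m : ℤ) = 0
        · simp [h0]
        · rw [if_neg h0, hf _ (by simpa using h0)]
          push_cast
          ring
  rw [hsum] at hlt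
  exact hlt

end Pool.Agent.H220M
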