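import Pool.Agent.H220M.Fin2

/-!
Products of linear forms.
-/

set_option autoImplicit false

namespace Pool.Agent.H220M

open Finset Filter Polynomial

/-- the polynomial `∏ (a_i X + b_i)` -/
noncomputable def linPoly {k : ℕ} (a b : Fin k → ℕ) : ℤ[X] :=
  ∏ i, (C (a i : ℤ) * X + C (b i : ℤ))

theorem linPoly_eval {k : ℕ} (a b : Fin k → ℕ) (n : ℕ) :
    ((linPoly a b).eval (n : ℤ)).natAbs = ∏ i, (a i * n + b i) := by
  have h : (linPoly a b).eval (n : ℤ) = ((∏ i, (a i * n + b i) : ℕ) : ℤ) := by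
    unfold linPoly
    rw [eval_prod]
    push_cast
    apply Finset.prod_congr rfl
    intro i _
    simp
  rw [h, Int.natAbs_natCast]

theorem linPoly_simple {k : ℕ} (hk : 1 ≤ k) (a b : Fin k → ℕ) (H : ℕ)
    (ha : ∀ i, 1 ≤ a i ∧ a i ≤ H ∧ b i ≤ H) (hab : ∀ i j, i ≠ j → a i * b j ≠ a j * b i)
    (q : ℕ) (hq : q.Prime) (hqH : H * H < q) : SimpleRoot (linPoly a b) q := by
  set i₀ : Fin k := ⟨0, hk⟩
  have hqp : Prime (q : ℤ) := Nat.prime_iff_prime_int.mp hq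
  have hH1 : 1 ≤ H := (ha i₀).1.trans (ha i₀).2.1
  have hHq : H < q := lt_of_le_of_lt (by nlinarith) hqH
  have hna : ¬ (q : ℤ) ∣ (a i₀ : ℤ) := by
    rw [Int.natCast_dvd_natCast]
    intro h
    have := Nat.le_of_dvd (ha i₀).1 h
    have := (ha i₀).2.1
    omega
  have hcop : IsCoprime (a i₀ : ℤ) (q : ℤ) := by
    rw [Nat.isCoprime_iff_coprime]
    rw [Nat.coprime_comm, Nat.Prime.coprime_iff_not_dvd hq]
    intro h
    exact hna (Int.natCast_dvd_natCast.mpr h)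
  obtain ⟨u, v, huv⟩ := hcop
  -- u a + v q = 1
  set r : ℤ := -(b i₀ : ℤ) * u
  have hr : (q : ℤ) ∣ (a i₀ : ℤ) * r + (b i₀ : ℤ) := by
    refine ⟨(b i₀ : ℤ) * v, ?_⟩
    have : (a i₀ : ℤ) * r + (b i₀ : ℤ) = (b i₀ : ℤ) * (1 - u * (a i₀ : ℤ)) := by
      simp only [r]; ring
    rw [this]
    have h1 : 1 - u * (a i₀ : ℤ) = v * q := by linarith
    rw [h1]; ring
  set R : ℤ[X] := ∏ i ∈ univ.erase i₀, (C (a i : ℤ) * X + C (b i : ℤ))
  have hF : linPoly a b = (C (a i₀ : ℤ) * X + C (b i₀ : ℤ)) * R := by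
    unfold linPoly
    rw [← Finset.mul_prod_erase univ _ (Finset.mem_univ i₀)]
  have hRr : ¬ (q : ℤ) ∣ R.eval r := by
    simp only [R, eval_prod]
    rw [Prime.dvd_finsetProd_iff hqp]
    rintro ⟨j, hj, hdj⟩
    have hji : j ≠ i₀ := (Finset.mem_erase.mp hj).1
    simp only [eval_add, eval_mul, eval_C, eval_X] at hdj
    have hd : (q : ℤ) ∣ (a i₀ : ℤ) * (b j : ℤ) - (a j : ℤ) * (b i₀ : ℤ) := by
      have e : (a i₀ : ℤ) * (b j : ℤ) - (a j : ℤ) * (b i₀ : ℤ)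
          = (a i₀ : ℤ) * ((a j : ℤ) * r + (b j : ℤ)) - (a j : ℤ) * ((a i₀ : ℤ) * r + (b i₀ : ℤ)) := by
        ring
      rw [e]
      exact dvd_sub (Dvd.dvd.mul_left hdj _) (Dvd.dvd.mul_left hr _)
    have hne : (a i₀ : ℤ) * (b j : ℤ) - (a j : ℤ) * (b i₀ : ℤ) ≠ 0 := by
      intro h
      apply hab i₀ j hji.symm
      have : (a i₀ : ℤ) * (b j : ℤ) = (a j : ℤ) * (b i₀ : ℤ) := by linarith
      exact_mod_cast this
    have hle : (q : ℤ) ≤ |(a i₀ : ℤ) * (b j : ℤ) - (a j : ℤ) * (b i₀ : ℤ)| :=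
      Int.le_of_dvd (abs_pos.mpr hne) ((dvd_abs _ _).mpr hd)
    have hub : |(a i₀ : ℤ) * (b j : ℤ) - (a j : ℤ) * (b i₀ : ℤ)| ≤ (H : ℤ) * H := by
      have h1 : a i₀ * b j ≤ H * H := Nat.mul_le_mul (ha i₀).2.1 (ha j).2.2
      have h2 : a j * b i₀ ≤ H * H := Nat.mul_le_mul (ha j).2.1 (ha i₀).2.2
      have h1' : (a i₀ : ℤ) * (b j : ℤ) ≤ (H : ℤ) * H := by exact_mod_cast h1
      have h2' : (a j : ℤ) * (b i₀ : ℤ) ≤ (H : ℤ) * H := by exact_mod_cast h2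
      have h3 : (0 : ℤ) ≤ (a i₀ : ℤ) * (b j : ℤ) := by positivity
      have h4 : (0 : ℤ) ≤ (a j : ℤ) * (b i₀ : ℤ) := by positivity
      rw [abs_le]
      constructor <;> linarith
    have : (H : ℤ) * H < q := by exact_mod_cast hqH
    omega
  refine ⟨r, ?_, ?_⟩
  · rw [hF, eval_mul]
    simp only [eval_add, eval_mul, eval_C, eval_X]
    exact Dvd.dvd.mul_right hr _
  · rw [hF, derivative_mul]
    simp only [derivative_add, derivative_mul, derivative_C, derivative_X, eval_add, eval_mul,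
      eval_C, eval_X, zero_mul, zero_add, mul_one, add_zero]
    intro h
    have h2 : (q : ℤ) ∣ ((a i₀ : ℤ) * r + (b i₀ : ℤ)) * (derivative R).eval r :=
      Dvd.dvd.mul_right hr _
    have h3 : (q : ℤ) ∣ (a i₀ : ℤ) * R.eval r := by
      have := dvd_sub h h2
      simpa using this
    rcases hqp.dvd_or_dvd h3 with h4 | h4
    · exact hna h4
    · exact hRr h4

end Pool.Agent.H220M
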