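import Pool.Agent.H220M.Fin3

/-!
Chowla's conjecture for almost all modifications: all systems of linear forms with bounded
coefficients at the same time.
-/

set_option autoImplicit false

namespace Pool.Agent.H220M

open Finset Filter Polynomial

/-- systems of at most `H` linear forms with coefficients at most `H` -/
abbrev Sys (H : ℕ) : Type := Σ k : Fin (H + 1), (Fin k → Fin (H + 1)) × (Fin k → Fin (H + 1))

def Sys.a {H : ℕ} (s : Sys H) : Fin s.1 → ℕ := fun i => (s.2.1 i : ℕ)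
def Sys.b {H : ℕ} (s : Sys H) : Fin s.1 → ℕ := fun i => (s.2.2 i : ℕ)

/-- admissible systems -/
def Adm (H k : ℕ) (a b : Fin k → ℕ) : Prop :=
  1 ≤ k ∧ k ≤ H ∧ (∀ i, 1 ≤ a i ∧ a i ≤ H ∧ b i ≤ H) ∧ (∀ i j, i ≠ j → a i * b j ≠ a j * b i)

theorem sum_small (Q : Finset ℕ) (hQ : ∀ q ∈ Q, q.Prime) (N : ℕ) (p : ℕ → Prop) [DecidablePred p]
    (hp : ∀ q ∈ Q, N < q → p q) :
    (∑ q ∈ Q, (1 : ℝ) / q) - N ≤ ∑ q ∈ Q.filter p, (1 : ℝ) / q := by
  have h1 : ∑ q ∈ Q, (1 : ℝ) / q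
      = ∑ q ∈ Q.filter p, (1 : ℝ) / q + ∑ q ∈ Q.filter (fun q => ¬ p q), (1 : ℝ) / q :=
    (Finset.sum_filter_add_sum_filter_not Q p _).symm
  have h2 : ∑ q ∈ Q.filter (fun q => ¬ p q), (1 : ℝ) / q ≤ N := by
    have hsub : Q.filter (fun q => ¬ p q) ⊆ Finset.Icc 1 N := by
      intro q hq
      rw [Finset.mem_filter] at hq
      rw [Finset.mem_Icc]
      refine ⟨(hQ q hq.1).one_le, ?_⟩
      by_contra h
      exact hq.2 (hp q hq.1 (by omega))
    calc ∑ q ∈ Q.filter (fun q => ¬ p q), (1 : ℝ) / q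
        ≤ ∑ q ∈ Q.filter (fun q => ¬ p q), (1 : ℝ) := by
          apply Finset.sum_le_sum
          intro q hq
          rw [Finset.mem_filter] at hq
          have : (1 : ℝ) ≤ q := by exact_mod_cast (hQ q hq.1).one_le
          rw [div_le_one (by linarith)]
          exact this
      _ = ((Q.filter (fun q => ¬ p q)).card : ℝ) := by simp
      _ ≤ ((Finset.Icc 1 N).card : ℝ) := by exact_mod_cast Finset.card_le_card hsub
      _ = N := by simp
  linarith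

theorem finalB (hP3 : StmP3) (H : ℕ) (η : ℝ) (hη : 0 < η) :
    ∃ L : ℝ, ∀ Q : Finset ℕ, (∀ q ∈ Q, q.Prime) → L ≤ ∑ q ∈ Q, (1 : ℝ) / q →
      ∃ x₀ : ℕ, ∀ g : ℕ →*₀ ℤ, (∀ p : ℕ, p.Prime → g p = 1 ∨ g p = -1) →
        (family g Q).Finite ∧ (family g Q).ncard = 2 ^ Q.card ∧
        ∀ w : ℕ → ℝ, (∀ m, |w m| ≤ 1) → ∀ x ≥ x₀,
          ({f ∈ family g Q | ∃ (k : ℕ) (a b : Fin k → ℕ), Adm H k a b ∧
            η * x < |∑ n ∈ Icc 1 x, w n * ∏ i, ((f (a i * n + b i) : ℤ) : ℝ)|}.ncard : ℝ)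
            ≤ η * 2 ^ Q.card := by
  classical
  set N : ℕ := Fintype.card (Sys H) with hN
  have hNpos : 0 < N := Fintype.card_pos_iff.mpr ⟨⟨0, fun i => i.elim0, fun i => i.elim0⟩⟩
  have hN1 : (1 : ℝ) ≤ N := by exact_mod_cast hNpos
  have hη' : 0 < η / N := by positivity
  choose L hL using fun s : Sys H => finalP hP3 (linPoly s.a s.b) (η / N) hη'
  refine ⟨∑ s, |L s| + (H * H : ℕ), fun Q hQ hs => ?_⟩
  have hcond : ∀ s : Sys H, Adm H s.1 s.a s.b →
      L s ≤ ∑ q ∈ Q.filter (fun q => SimpleRoot (linPoly s.a s.b) q), (1 : ℝ) / q := by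
    intro s hadm
    have h1 := sum_small Q hQ (H * H) (fun q => SimpleRoot (linPoly s.a s.b) q)
      (fun q hq hlt => linPoly_simple hadm.1 s.a s.b H hadm.2.2.1 hadm.2.2.2 q (hQ q hq) hlt)
    have h2 : L s ≤ ∑ s, |L s| :=
      (le_abs_self _).trans (Finset.single_le_sum (f := fun s => |L s|)
        (fun s _ => abs_nonneg _) (Finset.mem_univ s))
    linarith
  have hx : ∀ s : Sys H, ∃ x₀ : ℕ, Adm H s.1 s.a s.b →
      ∀ g : ℕ →*₀ ℤ, (∀ p : ℕ, p.Prime → g p = 1 ∨ g p = -1) →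
        ∀ w : ℕ → ℝ, (∀ m, |w m| ≤ 1) → ∀ x ≥ x₀,
          ({f ∈ family g Q | η / N * x <
            |∑ m ∈ Icc 1 x, w m * ((f (((linPoly s.a s.b).eval (m : ℤ)).natAbs) : ℤ) : ℝ)|}.ncard : ℝ)
            ≤ η / N * 2 ^ Q.card := by
    intro s
    by_cases hadm : Adm H s.1 s.a s.b
    · obtain ⟨x₀, h⟩ := hL s Q hQ (hcond s hadm)
      exact ⟨x₀, fun _ => h⟩
    · exact ⟨0, fun h => absurd h hadm⟩
  choose X hX using hx
  refine ⟨∑ s, X s, fun g hg => ?_⟩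
  obtain ⟨g', hfin, hcardF, _⟩ := family_bad g hg Q hQ
  refine ⟨hfin, hcardF, fun w hw x hxx => ?_⟩
  have hxs : ∀ s, X s ≤ x := fun s =>
    (Finset.single_le_sum (f := X) (fun s _ => Nat.zero_le _) (Finset.mem_univ s)).trans hxx
  set B : Sys H → Set (ℕ →*₀ ℤ) := fun s =>
    if Adm H s.1 s.a s.b then {f ∈ family g Q | η / N * x <
      |∑ m ∈ Icc 1 x, w m * ((f (((linPoly s.a s.b).eval (m : ℤ)).natAbs) : ℤ) : ℝ)|} else ∅
    with hB
  have hBle : ∀ s, ((B s).ncard : ℝ) ≤ η / N * 2 ^ Q.card := by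
    intro s
    simp only [hB]
    split_ifs with hadm
    · exact hX s hadm g hg w hw x (hxs s)
    · simp; positivity
  have hsub : {f ∈ family g Q | ∃ (k : ℕ) (a b : Fin k → ℕ), Adm H k a b ∧
            η * x < |∑ n ∈ Icc 1 x, w n * ∏ i, ((f (a i * n + b i) : ℤ) : ℝ)|} ⊆ ⋃ s, B s := by
    rintro f ⟨hf, k, a, b, hadm, hlt⟩
    have hkH : k < H + 1 := by have := hadm.2.1; omega
    let s : Sys H := ⟨⟨k, hkH⟩, fun i => ⟨a i, by have := (hadm.2.2.1 i).2.1; omega⟩,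
      fun i => ⟨b i, by have := (hadm.2.2.1 i).2.2; omega⟩⟩
    have hsa : s.a = a := rfl
    have hsb : s.b = b := rfl
    rw [Set.mem_iUnion]
    refine ⟨s, ?_⟩
    have hadm' : Adm H s.1 s.a s.b := hadm
    simp only [hB]
    rw [if_pos hadm']
    refine ⟨hf, ?_⟩
    have hsum : ∑ m ∈ Icc 1 x, w m * ((f (((linPoly s.a s.b).eval (m : ℤ)).natAbs) : ℤ) : ℝ)
        = ∑ n ∈ Icc 1 x, w n * ∏ i, ((f (a i * n + b i) : ℤ) : ℝ) := by
      apply Finset.sum_congr rfl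
      intro m _
      rw [hsa, hsb, linPoly_eval, map_prod]
      push_cast
      rfl
    rw [hsum]
    refine lt_of_le_of_lt ?_ hlt
    have : η / N ≤ η := div_le_self hη.le hN1
    exact mul_le_mul_of_nonneg_right this (Nat.cast_nonneg x)
  have hunion : (⋃ s, B s).Finite := by
    apply hfin.subset
    intro f hf
    rw [Set.mem_iUnion] at hf
    obtain ⟨s, hs⟩ := hf
    simp only [hB] at hs
    split_ifs at hs with hadm
    · exact hs.1
    · exact absurd hs (Set.notMem_empty _)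
  calc _ ≤ ((⋃ s, B s).ncard : ℝ) := by exact_mod_cast Set.ncard_le_ncard hsub hunion
    _ ≤ ((∑ s, (B s).ncard : ℕ) : ℝ) := by exact_mod_cast Set.ncard_iUnion_le_of_fintype B
    _ = ∑ s, ((B s).ncard : ℝ) := by push_cast; rfl
    _ ≤ ∑ _s : Sys H, η / N * 2 ^ Q.card := Finset.sum_le_sum (fun s _ => hBle s)
    _ = η * 2 ^ Q.card := by
      rw [Finset.sum_const, Finset.card_univ, nsmul_eq_mul, ← hN]
      field_simp

end Pool.Agent.H220M
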