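import Pool.Agent.H220M.Fin1
import Pool.Agent.H220M.Base3
import Pool.Agent.H220M.C0
import Pool.Agent.H220M.C1

/-!
Infinite sets of primes: translation to completely multiplicative functions.
-/

set_option autoImplicit false

namespace Pool.Agent.H220M

open Finset Filter MeasureTheory

/-- a completely multiplicative function with prescribed values at the primes -/
noncomputable def homOf (c : ℕ → ℤ) : ℕ →*₀ ℤ where
  toFun m := if m = 0 then 0 else m.factorization.prod (fun p k => c p ^ k)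
  map_zero' := by simp
  map_one' := by simp
  map_mul' a b := by
    by_cases ha : a = 0
    · simp [ha]
    by_cases hb : b = 0
    · simp [hb]
    rw [if_neg (mul_ne_zero ha hb), if_neg ha, if_neg hb, Nat.factorization_mul ha hb]
    exact Finsupp.prod_add_index' (fun _ => pow_zero _) (fun _ _ _ => pow_add _ _ _)

theorem homOf_apply (c : ℕ → ℤ) {m : ℕ} (hm : m ≠ 0) :
    homOf c m = ∏ p ∈ m.primeFactors, c p ^ (m.factorization p) := by
  show (if m = 0 then 0 else m.factorization.prod (fun p k => c p ^ k)) = _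
  rw [if_neg hm, Finsupp.prod, Nat.support_factorization]

theorem homOf_prime (c : ℕ → ℤ) {p : ℕ} (hp : p.Prime) : homOf c p = c p := by
  rw [homOf_apply c hp.ne_zero, hp.primeFactors, Finset.prod_singleton, hp.factorization_self,
    pow_one]

theorem hom_eq_prod (g : ℕ →*₀ ℤ) {m : ℕ} (hm : m ≠ 0) :
    g m = ∏ p ∈ m.primeFactors, g p ^ (m.factorization p) := by
  conv_lhs => rw [← Nat.prod_factorization_pow_eq_self hm]
  rw [Finsupp.prod, Nat.support_factorization, map_prod]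
  exact Finset.prod_congr rfl fun p _ => map_pow _ _ _

/-- unit-valued version of a completely multiplicative function with values `±1` -/
theorem exists_unit (g : ℕ →*₀ ℤ) (hg : ∀ p : ℕ, p.Prime → g p = 1 ∨ g p = -1) :
    ∃ g' : ℕ → ℤˣ, ∀ m : ℕ, m ≠ 0 → g m = g' m := by
  obtain ⟨g', F, h1, _⟩ := tF1 g hg ∅ (by simp)
  exact ⟨g', h1⟩

open Classical in
theorem homOf_modif (g : ℕ →*₀ ℤ) (g' : ℕ → ℤˣ) (hg' : ∀ m : ℕ, m ≠ 0 → g m = g' m)
    (Q : Set ℕ) (ω : ℕ → Bool) {m : ℕ} (hm : m ≠ 0) :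
    homOf (fun p => if p ∈ Q then (if ω p = true then - g p else g p) else g p) m
      = ((modif g' Q ω m : ℤˣ) : ℤ) := by
  rw [homOf_apply _ hm]
  unfold modif
  push_cast
  rw [← hg' m hm, hom_eq_prod g hm, Finset.prod_filter, ← Finset.prod_mul_distrib]
  apply Finset.prod_congr rfl
  intro p _
  by_cases hpQ : p ∈ Q
  · simp only [hpQ, if_true]
    by_cases hω : ω p = true
    · simp only [hω, if_true]
      rw [neg_pow]
      push_cast
      ring
    · simp [hω]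
  · simp [hpQ]

/-- `f` is the modification of `g` on `Q` by the signs `ω` -/
def IsModif (g : ℕ →*₀ ℤ) (Q : Set ℕ) (ω : ℕ → Bool) (f : ℕ →*₀ ℤ) : Prop :=
  (∀ p : ℕ, p.Prime → p ∉ Q → f p = g p) ∧
  (∀ p : ℕ, p.Prime → p ∈ Q → f p = if ω p = true then - g p else g p)

theorem isModif_exists (g : ℕ →*₀ ℤ) (g' : ℕ → ℤˣ) (hg' : ∀ m : ℕ, m ≠ 0 → g m = g' m)
    (Q : Set ℕ) (ω : ℕ → Bool) :
    ∃ f : ℕ →*₀ ℤ, IsModif g Q ω f ∧ ∀ m : ℕ, m ≠ 0 → f m = ((modif g' Q ω m : ℤˣ) : ℤ) := by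
  classical
  refine ⟨homOf (fun p => if p ∈ Q then (if ω p = true then - g p else g p) else g p),
    ⟨fun p hp hpQ => ?_, fun p hp hpQ => ?_⟩, fun m hm => homOf_modif g g' hg' Q ω hm⟩
  · rw [homOf_prime _ hp]; simp [hpQ]
  · rw [homOf_prime _ hp]; simp [hpQ]

theorem isModif_unique (g : ℕ →*₀ ℤ) (Q : Set ℕ) (ω : ℕ → Bool) (f f' : ℕ →*₀ ℤ)
    (h : IsModif g Q ω f) (h' : IsModif g Q ω f') : f = f' := by
  apply F1.ext
  intro p hp
  by_cases hpQ : p ∈ Q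
  · rw [h.2 p hp hpQ, h'.2 p hp hpQ]
  · rw [h.1 p hp hpQ, h'.1 p hp hpQ]

theorem finalC (g : ℕ →*₀ ℤ) (hg : ∀ p : ℕ, p.Prime → g p = 1 ∨ g p = -1)
    (Q : Set ℕ) (hQ : Q.Infinite) (hQp : ∀ q ∈ Q, q.Prime) :
    ∀ᵐ ω ∂coins, ∃! f : ℕ →*₀ ℤ, IsModif g Q ω f ∧
      ∀ (n : ℕ) (t : Fin n → ℤ), (∀ j, t j = 1 ∨ t j = -1) →
        ∃ δ : ℝ, 0 < δ ∧ ∃ᶠ x : ℕ in atTop, δ * x ≤ (cnt f t x : ℝ) := by
  obtain ⟨g', hg'⟩ := exists_unit g hg
  filter_upwards [tC1 tC0 stmA3 g' Q hQ hQp] with ω hω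
  obtain ⟨f, hf, hfm⟩ := isModif_exists g g' hg' Q ω
  refine ⟨f, ⟨hf, ?_⟩, fun f' hf' => isModif_unique g Q ω f' f hf'.1 hf⟩
  intro n t ht
  obtain ⟨t', rfl⟩ := unit_of_pm t ht
  obtain ⟨δ, hδ, hfr⟩ := hω n t'
  refine ⟨δ, hδ, ?_⟩
  refine hfr.mono fun x hx => ?_
  rw [cnt_eq f (modif g' Q ω) hfm]
  exact hx

end Pool.Agent.H220M
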