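import Pool.Agent.H220M.Fin3
import Pool.Agent.H220M.Fin5
import Pool.Agent.H220M.Base4

/-!
Almost sure statements for completely multiplicative functions.
-/

set_option autoImplicit false

namespace Pool.Agent.H220M

open Finset Filter MeasureTheory Polynomial

theorem thick_mono (A A' : Set ℕ) (N : ℕ) (h : ∀ q ∈ A, N < q → q ∈ A') (h' : A' ⊆ A)
    (hA : Thick A) : Thick A' := by
  classical
  unfold Thick at *
  apply hA.congr'
  have h2 : ∀ᶠ y : ℕ in atTop, N ≤ (Nat.log 2 y) ^ 2 := by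
    filter_upwards [eventually_ge_atTop (2 ^ N)] with y hy
    have h3 : N ≤ Nat.log 2 y := by
      have := Nat.log_mono_right (b := 2) hy
      rwa [Nat.log_pow (by norm_num)] at this
    nlinarith
  filter_upwards [h2] with y hy
  apply Finset.sum_congr _ (fun _ _ => rfl)
  apply Finset.filter_congr
  intro q _
  constructor
  · rintro ⟨h3, h4⟩
    exact ⟨h q h3 (lt_of_le_of_lt hy h4), h4⟩
  · rintro ⟨h3, h4⟩
    exact ⟨h' h3, h4⟩

/-- sums over `1 ≤ n ≤ x` at the values of a polynomial -/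
theorem sum_eq (F : ℤ[X]) (f : ℕ →*₀ ℤ) (u : ℕ → ℤˣ)
    (h : ∀ m : ℕ, m ≠ 0 → f m = ((u m : ℤˣ) : ℤ)) (w : ℕ → ℝ)
    (hw0 : ∀ m : ℕ, F.eval ((m : ℤ) + 1) = 0 → w m = 0) (x : ℕ) :
    ∑ m ∈ range x, w m * (((u ((F.eval ((m : ℤ) + 1)).natAbs) : ℤˣ) : ℤ) : ℝ)
      = ∑ n ∈ Icc 1 x, w (n - 1) * ((f ((F.eval (n : ℤ)).natAbs) : ℤ) : ℝ) := by
  rw [Finset.range_eq_Ico, ← Finset.sum_Ico_add_right_sub_eq (a := 0) (b := x) (c := 1)]
  apply Finset.sum_congr
  · ext m; simp only [Finset.mem_Icc, Finset.mem_Ico]; omega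
  · intro m hm
    have hm1 : 1 ≤ m := by
      simp only [Finset.mem_Icc, Finset.mem_Ico] at hm; omega
    have e2 : ((m - 1 : ℕ) : ℤ) + 1 = (m : ℤ) := by omega
    rw [e2]
    by_cases h0 : F.eval (m : ℤ) = 0
    · rw [hw0 (m - 1) (by rw [e2]; exact h0)]; simp
    · rw [h _ (by simpa using h0)]

open Classical in
/-- almost surely cancellation at the values of a polynomial along a progression -/
theorem asPoly (hM6 : StmM6) (g : ℕ →*₀ ℤ) (g' : ℕ → ℤˣ) (hg' : ∀ m : ℕ, m ≠ 0 → g m = g' m)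
    (Q : Set ℕ) (hQp : ∀ q ∈ Q, q.Prime) (F : ℤ[X]) (hF : Thick {q | q ∈ Q ∧ SimpleRoot F q})
    (a b : ℕ) :
    ∀ᵐ ω ∂coins, ∀ f : ℕ →*₀ ℤ, IsModif g Q ω f →
      Tendsto (fun x : ℕ => (∑ n ∈ (Icc 1 x).filter (fun n => n ≡ a [MOD b]),
        ((f ((F.eval (n : ℤ)).natAbs) : ℤ) : ℝ)) / x) atTop (nhds 0) := by
  set w : ℕ → ℝ := fun m => if F.eval ((m : ℤ) + 1) = 0 then 0 else
    (if m + 1 ≡ a [MOD b] then 1 else 0) with hw
  have hw1 : ∀ m, |w m| ≤ 1 := by
    intro m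
    simp only [hw]
    split_ifs <;> simp
  filter_upwards [hM6 g' Q hQp F w hw1 hF] with ω hω f hf
  obtain ⟨f', hf', hfm⟩ := isModif_exists g g' hg' Q ω
  have hff : f = f' := isModif_unique g Q ω f f' hf hf'
  subst hff
  refine hω.congr fun x => ?_
  rw [sum_eq F f (modif g' Q ω) hfm w (fun m h => by simp only [hw]; rw [if_pos h]) x,
    Finset.sum_filter]
  congr 1
  apply Finset.sum_congr rfl
  intro n hn
  have hn1 : 1 ≤ n := (Finset.mem_Icc.mp hn).1
  have e1 : n - 1 + 1 = n := by omega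
  have e2 : ((n - 1 : ℕ) : ℤ) + 1 = (n : ℤ) := by omega
  simp only [hw]
  rw [e1, e2]
  by_cases h0 : F.eval (n : ℤ) = 0
  · simp [h0]
  · simp only [h0, if_false]
    split_ifs <;> simp

/-- full Chowla for almost every modification on a thick set of primes -/
theorem finalD (hM6 : StmM6) (g : ℕ →*₀ ℤ) (hg : ∀ p : ℕ, p.Prime → g p = 1 ∨ g p = -1)
    (Q : Set ℕ) (hQp : ∀ q ∈ Q, q.Prime) (hQ : Thick Q) :
    ∀ᵐ ω ∂coins, ∃! f : ℕ →*₀ ℤ, IsModif g Q ω f ∧
      ∀ (k : ℕ) (a b : Fin k → ℕ), 1 ≤ k → (∀ i, 1 ≤ a i) →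
        (∀ i j, i ≠ j → a i * b j ≠ a j * b i) →
        Tendsto (fun x : ℕ => (∑ n ∈ Icc 1 x, ∏ i, ((f (a i * n + b i) : ℤ) : ℝ)) / x)
          atTop (nhds 0) := by
  classical
  obtain ⟨g', hg'⟩ := exists_unit g hg
  have hall : ∀ᵐ ω ∂coins, ∀ (k : ℕ) (a b : Fin k → ℕ), 1 ≤ k → (∀ i, 1 ≤ a i) →
        (∀ i j, i ≠ j → a i * b j ≠ a j * b i) → ∀ f : ℕ →*₀ ℤ, IsModif g Q ω f →
      Tendsto (fun x : ℕ => (∑ n ∈ (Icc 1 x).filter (fun n => n ≡ 0 [MOD 1]),
        ((f (((linPoly a b).eval (n : ℤ)).natAbs) : ℤ) : ℝ)) / x) atTop (nhds 0) := by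
    rw [ae_all_iff]; intro k
    rw [ae_all_iff]; intro a
    rw [ae_all_iff]; intro b
    by_cases hk : 1 ≤ k
    · by_cases ha : ∀ i, 1 ≤ a i
      · by_cases hab : ∀ i j, i ≠ j → a i * b j ≠ a j * b i
        · set H : ℕ := ∑ i, (a i + b i) with hH
          have hbd : ∀ i, 1 ≤ a i ∧ a i ≤ H ∧ b i ≤ H := by
            intro i
            have h1 : a i + b i ≤ H := Finset.single_le_sum (f := fun i => a i + b i)
              (fun i _ => Nat.zero_le _) (Finset.mem_univ i)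
            exact ⟨ha i, by omega, by omega⟩
          have hT : Thick {q | q ∈ Q ∧ SimpleRoot (linPoly a b) q} := by
            apply thick_mono Q _ (H * H) _ (fun q hq => hq.1) hQ
            intro q hq hlt
            exact ⟨hq, linPoly_simple hk a b H hbd hab q (hQp q hq) hlt⟩
          filter_upwards [asPoly hM6 g g' hg' Q hQp (linPoly a b) hT 0 1] with ω hω _ _ _ f hf
          exact hω f hf
        · filter_upwards with ω _ _ h
          exact absurd h hab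
      · filter_upwards with ω _ h
        exact absurd h ha
    · filter_upwards with ω h
      exact absurd h hk
  filter_upwards [hall] with ω hω
  obtain ⟨f, hf, hfm⟩ := isModif_exists g g' hg' Q ω
  refine ⟨f, ⟨hf, ?_⟩, fun f' hf' => isModif_unique g Q ω f' f hf'.1 hf⟩
  intro k a b hk ha hab
  refine (hω k a b hk ha hab f hf).congr fun x => ?_
  congr 1
  rw [Finset.filter_true_of_mem (fun n _ => Nat.modEq_one)]
  apply Finset.sum_congr rfl
  intro n _
  rw [linPoly_eval, map_prod]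
  push_cast
  rfl

end Pool.Agent.H220M
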