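import Pool.Agent.H220M.Fin6

/-!
Almost sure statements at the values of all polynomials.
-/

set_option autoImplicit false

namespace Pool.Agent.H220M

open Finset Filter MeasureTheory Polynomial

theorem countable_polys : Countable ℤ[X] := by
  rw [← Cardinal.mk_le_aleph0_iff]
  refine Polynomial.cardinalMk_le_max.trans ?_
  exact max_le Cardinal.mk_le_aleph0 le_rfl

/-- all polynomials and all progressions at the same time -/
theorem finalE (hM6 : StmM6) (g : ℕ →*₀ ℤ) (hg : ∀ p : ℕ, p.Prime → g p = 1 ∨ g p = -1)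
    (Q : Set ℕ) (hQp : ∀ q ∈ Q, q.Prime) :
    ∀ᵐ ω ∂coins, ∃! f : ℕ →*₀ ℤ, IsModif g Q ω f ∧
      ∀ F : ℤ[X], Thick {q | q ∈ Q ∧ SimpleRoot F q} → ∀ a b : ℕ,
        Tendsto (fun x : ℕ => (∑ n ∈ (Icc 1 x).filter (fun n => n ≡ a [MOD b]),
          ((f ((F.eval (n : ℤ)).natAbs) : ℤ) : ℝ)) / x) atTop (nhds 0) := by
  classical
  have := countable_polys
  obtain ⟨g', hg'⟩ := exists_unit g hg
  have hall : ∀ᵐ ω ∂coins, ∀ F : ℤ[X], ∀ a b : ℕ, Thick {q | q ∈ Q ∧ SimpleRoot F q} →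
      ∀ f : ℕ →*₀ ℤ, IsModif g Q ω f →
      Tendsto (fun x : ℕ => (∑ n ∈ (Icc 1 x).filter (fun n => n ≡ a [MOD b]),
        ((f ((F.eval (n : ℤ)).natAbs) : ℤ) : ℝ)) / x) atTop (nhds 0) := by
    rw [ae_all_iff]; intro F
    rw [ae_all_iff]; intro a
    rw [ae_all_iff]; intro b
    by_cases hT : Thick {q | q ∈ Q ∧ SimpleRoot F q}
    · filter_upwards [asPoly hM6 g g' hg' Q hQp F hT a b] with ω hω _ f hf
      refine (hω f hf).congr fun x => ?_
      congr 1
    · filter_upwards with ω h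
      exact absurd h hT
  filter_upwards [hall] with ω hω
  obtain ⟨f, hf, hfm⟩ := isModif_exists g g' hg' Q ω
  refine ⟨f, ⟨hf, ?_⟩, fun f' hf' => isModif_unique g Q ω f' f hf'.1 hf⟩
  intro F hT a b
  exact hω F a b hT f hf

end Pool.Agent.H220M
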