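import Pool.Agent.H220M.Fin6
import Pool.Agent.H220M.B5

/-!
Exact frequencies of the sign patterns.
-/

set_option autoImplicit false

namespace Pool.Agent.H220M

open Finset Filter MeasureTheory Polynomial

/-- correlations tending to zero give exact pattern frequencies -/
theorem freq_of_corr (f : ℕ →*₀ ℤ) (u : ℕ → ℤˣ) (h : ∀ m : ℕ, m ≠ 0 → f m = ((u m : ℤˣ) : ℤ))
    (hc : ∀ (k : ℕ) (a b : Fin k → ℕ), 1 ≤ k → (∀ i, 1 ≤ a i) →
        (∀ i j, i ≠ j → a i * b j ≠ a j * b i) →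
        Tendsto (fun x : ℕ => (∑ n ∈ Icc 1 x, ∏ i, ((f (a i * n + b i) : ℤ) : ℝ)) / x)
          atTop (nhds 0)) (n : ℕ) (t : Fin n → ℤ) (ht : ∀ j, t j = 1 ∨ t j = -1) :
    Tendsto (fun x : ℕ => (cnt f t x : ℝ) / x) atTop (nhds (1 / 2 ^ n)) := by
  obtain ⟨t', rfl⟩ := unit_of_pm t ht
  -- correlations over subsets
  have hJ : ∀ J : Finset (Fin n), J.Nonempty → ∀ η : ℝ, 0 < η → ∀ᶠ x : ℕ in atTop,
      |∑ m ∈ range x, ∏ j ∈ J, (((u (m + j + 1) : ℤˣ) : ℤ) : ℝ)| ≤ η * x := by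
    intro J hJne η hη
    set e := J.orderIsoOfFin rfl with he
    have h1 := hc J.card (fun _ => 1) (fun i => ((e i : Fin n) : ℕ)) (Finset.card_pos.mpr hJne)
      (fun _ => le_rfl) (fun i j hij => by
        simp only [one_mul]
        intro hh
        apply hij
        have h2 : (e j : Fin n) = (e i : Fin n) := Fin.ext hh
        exact (e.injective (Subtype.ext h2)).symm)
    have h2 := h1.eventually (Metric.ball_mem_nhds (0 : ℝ) hη)
    filter_upwards [h2, eventually_ge_atTop 1] with x hx hx1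
    have hx0 : (0 : ℝ) < x := by exact_mod_cast hx1
    rw [Real.dist_eq, sub_zero, abs_div, abs_of_pos hx0, div_lt_iff₀ hx0] at hx
    have hsum : ∑ m ∈ range x, ∏ j ∈ J, (((u (m + j + 1) : ℤˣ) : ℤ) : ℝ)
        = ∑ n' ∈ Icc 1 x, ∏ i : Fin J.card, ((f (1 * n' + ((e i : Fin n) : ℕ)) : ℤ) : ℝ) := by
      rw [Finset.range_eq_Ico, ← Finset.sum_Ico_add_right_sub_eq (a := 0) (b := x) (c := 1)]
      apply Finset.sum_congr
      · ext m; simp only [Finset.mem_Icc, Finset.mem_Ico]; omega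
      · intro m hm
        have hm1 : 1 ≤ m := by
          simp only [Finset.mem_Icc, Finset.mem_Ico] at hm; omega
        rw [← Finset.prod_coe_sort J, ← Equiv.prod_comp e.toEquiv]
        apply Finset.prod_congr rfl
        intro i _
        have e1 : m - 1 + ((e i : Fin n) : ℕ) + 1 = 1 * m + ((e i : Fin n) : ℕ) := by omega
        rw [← e1, h _ (by omega)]
        rfl
    rw [hsum]
    exact hx.le
  rw [Metric.tendsto_atTop]
  intro ε hε
  have hall : ∀ᶠ x : ℕ in atTop, ∀ J : Finset (Fin n), J.Nonempty →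
      |∑ m ∈ range x, ∏ j ∈ J, (((u (m + j + 1) : ℤˣ) : ℤ) : ℝ)| ≤ (ε / 2) * x := by
    rw [Filter.eventually_all]
    intro J
    by_cases hJne : J.Nonempty
    · filter_upwards [hJ J hJne (ε / 2) (by positivity)] with x hx _
      exact hx
    · filter_upwards with x hx
      exact absurd hx hJne
  obtain ⟨N, hN⟩ := eventually_atTop.1 (hall.and (eventually_ge_atTop 1))
  refine ⟨N, fun x hx => ?_⟩
  obtain ⟨h1, h2⟩ := hN x hx
  have hx0 : (0 : ℝ) < x := by exact_mod_cast h2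
  have h3 := tB5 n u t' x (ε / 2) (by positivity) h1
  rw [cnt_eq f u h, Real.dist_eq]
  have h4 : (cntU u t' x : ℝ) / x - 1 / 2 ^ n = ((cntU u t' x : ℝ) - x / 2 ^ n) / x := by
    field_simp
  rw [h4, abs_div, abs_of_pos hx0, div_lt_iff₀ hx0]
  nlinarith

theorem finalG (hM6 : StmM6) (g : ℕ →*₀ ℤ) (hg : ∀ p : ℕ, p.Prime → g p = 1 ∨ g p = -1)
    (Q : Set ℕ) (hQp : ∀ q ∈ Q, q.Prime) (hQ : Thick Q) :
    ∀ᵐ ω ∂coins, ∃! f : ℕ →*₀ ℤ, IsModif g Q ω f ∧
      ∀ (n : ℕ) (t : Fin n → ℤ), (∀ j, t j = 1 ∨ t j = -1) →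
        Tendsto (fun x : ℕ => (cnt f t x : ℝ) / x) atTop (nhds (1 / 2 ^ n)) := by
  obtain ⟨g', hg'⟩ := exists_unit g hg
  filter_upwards [finalD hM6 g hg Q hQp hQ] with ω hω
  obtain ⟨f, ⟨hf, hfc⟩, _⟩ := hω
  obtain ⟨f', hf', hfm⟩ := isModif_exists g g' hg' Q ω
  have hff : f = f' := isModif_unique g Q ω f f' hf hf'
  subst hff
  exact ⟨f, ⟨hf, fun n t ht => freq_of_corr f _ hfm hfc n t ht⟩,
    fun f' hf' => isModif_unique g Q ω f' f hf'.1 hf⟩

end Pool.Agent.H220M
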