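import Pool.Agent.H220M.Fin6

/-!
Arbitrary bounded weights.
-/

set_option autoImplicit false

namespace Pool.Agent.H220M

open Finset Filter MeasureTheory Polynomial

open Classical in
theorem asWeight (hM6 : StmM6) (g : ℕ →*₀ ℤ) (g' : ℕ → ℤˣ) (hg' : ∀ m : ℕ, m ≠ 0 → g m = g' m)
    (Q : Set ℕ) (hQp : ∀ q ∈ Q, q.Prime) (F : ℤ[X]) (hF : Thick {q | q ∈ Q ∧ SimpleRoot F q})
    (v : ℕ → ℝ) (hv : ∀ n, |v n| ≤ 1) :
    ∀ᵐ ω ∂coins, ∀ f : ℕ →*₀ ℤ, IsModif g Q ω f →
      Tendsto (fun x : ℕ => (∑ n ∈ Icc 1 x, v n *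
        ((f ((F.eval (n : ℤ)).natAbs) : ℤ) : ℝ)) / x) atTop (nhds 0) := by
  set w : ℕ → ℝ := fun m => if F.eval ((m : ℤ) + 1) = 0 then 0 else v (m + 1) with hw
  have hw1 : ∀ m, |w m| ≤ 1 := by
    intro m
    simp only [hw]
    split_ifs
    · simp
    · exact hv _
  filter_upwards [hM6 g' Q hQp F w hw1 hF] with ω hω f hf
  obtain ⟨f', hf', hfm⟩ := isModif_exists g g' hg' Q ω
  have hff : f = f' := isModif_unique g Q ω f f' hf hf'
  subst hff
  refine hω.congr fun x => ?_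
  rw [sum_eq F f (modif g' Q ω) hfm w (fun m h => by simp only [hw]; rw [if_pos h]) x]
  congr 1
  apply Finset.sum_congr rfl
  intro n hn
  have hn1 : 1 ≤ n := (Finset.mem_Icc.mp hn).1
  have e1 : n - 1 + 1 = n := by omega
  have e2 : ((n - 1 : ℕ) : ℤ) + 1 = (n : ℤ) := by omega
  simp only [hw]
  rw [e1, e2]
  by_cases h0 : F.eval (n : ℤ) = 0
  · simp [h0]
  · simp only [h0, if_false]

/-- one random function against arbitrary bounded functions -/
theorem finalW (hM6 : StmM6) (g : ℕ →*₀ ℤ) (hg : ∀ p : ℕ, p.Prime → g p = 1 ∨ g p = -1)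
    (Q : Set ℕ) (hQp : ∀ q ∈ Q, q.Prime) (hQ : Thick Q)
    (v : ℕ → ℕ → ℝ) (hv : ∀ s n, |v s n| ≤ 1) :
    ∀ᵐ ω ∂coins, ∃! f : ℕ →*₀ ℤ, IsModif g Q ω f ∧
      ∀ (s k : ℕ) (a b : Fin k → ℕ), 1 ≤ k → (∀ i, 1 ≤ a i) →
        (∀ i j, i ≠ j → a i * b j ≠ a j * b i) →
        Tendsto (fun x : ℕ => (∑ n ∈ Icc 1 x, v s n * ∏ i, ((f (a i * n + b i) : ℤ) : ℝ)) / x)
          atTop (nhds 0) := by
  classical
  obtain ⟨g', hg'⟩ := exists_unit g hg
  have hall : ∀ᵐ ω ∂coins, ∀ (s k : ℕ) (a b : Fin k → ℕ), 1 ≤ k → (∀ i, 1 ≤ a i) →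
        (∀ i j, i ≠ j → a i * b j ≠ a j * b i) → ∀ f : ℕ →*₀ ℤ, IsModif g Q ω f →
      Tendsto (fun x : ℕ => (∑ n ∈ Icc 1 x, v s n *
        ((f (((linPoly a b).eval (n : ℤ)).natAbs) : ℤ) : ℝ)) / x) atTop (nhds 0) := by
    rw [ae_all_iff]; intro s
    rw [ae_all_iff]; intro k
    rw [ae_all_iff]; intro a
    rw [ae_all_iff]; intro b
    by_cases hk : 1 ≤ k
    · by_cases ha : ∀ i, 1 ≤ a i
      · by_cases hab : ∀ i j, i ≠ j → a i * b j ≠ a j * b i
        · set H : ℕ := ∑ i, (a i + b i) with hH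
          have hbd : ∀ i, 1 ≤ a i ∧ a i ≤ H ∧ b i ≤ H := by
            intro i
            have h1 : a i + b i ≤ H := Finset.single_le_sum (f := fun i => a i + b i)
              (fun i _ => Nat.zero_le _) (Finset.mem_univ i)
            exact ⟨ha i, by omega, by omega⟩
          have hT : Thick {q | q ∈ Q ∧ SimpleRoot (linPoly a b) q} := by
            apply thick_mono Q _ (H * H) _ (fun q hq => hq.1) hQ
            intro q hq hlt
            exact ⟨hq, linPoly_simple hk a b H hbd hab q (hQp q hq) hlt⟩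
          filter_upwards [asWeight hM6 g g' hg' Q hQp (linPoly a b) hT (v s) (hv s)]
            with ω hω _ _ _ f hf
          exact hω f hf
        · filter_upwards with ω _ _ h
          exact absurd h hab
      · filter_upwards with ω _ h
        exact absurd h ha
    · filter_upwards with ω h
      exact absurd h hk
  filter_upwards [hall] with ω hω
  obtain ⟨f, hf, hfm⟩ := isModif_exists g g' hg' Q ω
  refine ⟨f, ⟨hf, ?_⟩, fun f' hf' => isModif_unique g Q ω f' f hf'.1 hf⟩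
  intro s k a b hk ha hab
  refine (hω s k a b hk ha hab f hf).congr fun x => ?_
  congr 1
  apply Finset.sum_congr rfl
  intro n _
  rw [linPoly_eval, map_prod]
  push_cast
  rfl

end Pool.Agent.H220M
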