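import Pool.Agent.H220M.Base4

/-!
M1: moments over subsets (helper210, following B4 of helper89).
-/

set_option autoImplicit false

namespace Pool.Agent.H220M

open Finset

theorem tM1 : StmM1 := by
  intro Q x k G hG V
  have e1 : ∀ S : Finset ℕ, (∑ m ∈ range x, G m * ∏ q ∈ S, (-1 : ℝ) ^ (V q m)) ^ k =
      ∑ τ ∈ Fintype.piFinset (fun _ : Fin k => range x), (∏ i, G (τ i)) *
        ∏ q ∈ S, (-1 : ℝ) ^ (∑ i, V q (τ i)) := by
    intro S
    have h0 : (∑ m ∈ range x, G m * ∏ q ∈ S, (-1 : ℝ) ^ (V q m)) ^ k =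
        ∏ _i : Fin k, ∑ m ∈ range x, G m * ∏ q ∈ S, (-1 : ℝ) ^ (V q m) := by
      rw [Finset.prod_const, Finset.card_univ, Fintype.card_fin]
    rw [h0, Finset.prod_univ_sum]
    refine Finset.sum_congr rfl fun τ _ => ?_
    rw [Finset.prod_mul_distrib, Finset.prod_comm]
    congr 1
    refine Finset.prod_congr rfl fun q _ => ?_
    rw [Finset.prod_pow_eq_pow_sum]
  have e2 : ∑ S ∈ Q.powerset, (∑ m ∈ range x, G m * ∏ q ∈ S, (-1 : ℝ) ^ (V q m)) ^ k =
      ∑ τ ∈ Fintype.piFinset (fun _ : Fin k => range x), (∏ i, G (τ i)) *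
        ∏ q ∈ Q, (1 + (-1 : ℝ) ^ (∑ i, V q (τ i))) := by
    simp only [e1]
    rw [Finset.sum_comm]
    refine Finset.sum_congr rfl fun p _ => ?_
    rw [← Finset.mul_sum, Finset.prod_one_add]
  rw [e2]
  have e3 : ∀ τ : Fin k → ℕ, ∏ q ∈ Q, (1 + (-1 : ℝ) ^ (∑ i, V q (τ i))) =
      if ∀ q ∈ Q, Even (∑ i, V q (τ i)) then (2 : ℝ) ^ Q.card else 0 := by
    intro τ
    split_ifs with h
    · rw [Finset.prod_congr rfl (g := fun _ => (2 : ℝ)) (fun q hq => by
        rw [(h q hq).neg_one_pow]; norm_num), Finset.prod_const]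
    · push Not at h
      obtain ⟨q, hq, hq'⟩ := h
      refine Finset.prod_eq_zero hq ?_
      have : Odd (∑ i, V q (τ i)) := by
        rcases Nat.even_or_odd (∑ i, V q (τ i)) with h' | h'
        · exact absurd h' hq'
        · exact h'
      rw [this.neg_one_pow]; norm_num
  have e4 : ∑ τ ∈ Fintype.piFinset (fun _ : Fin k => range x), (∏ i, G (τ i)) *
        ∏ q ∈ Q, (1 + (-1 : ℝ) ^ (∑ i, V q (τ i))) ≤
      ∑ τ ∈ Fintype.piFinset (fun _ : Fin k => range x),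
        if ∀ q ∈ Q, Even (∑ i, V q (τ i)) then (2 : ℝ) ^ Q.card else 0 := by
    refine Finset.sum_le_sum fun τ _ => ?_
    rw [e3]
    have h1 : (∏ i, G (τ i)) ≤ 1 := by
      calc (∏ i, G (τ i)) ≤ |∏ i, G (τ i)| := le_abs_self _
        _ = ∏ i, |G (τ i)| := Finset.abs_prod _ _
        _ ≤ ∏ _i : Fin k, (1 : ℝ) :=
            Finset.prod_le_prod (fun i _ => abs_nonneg _) (fun i _ => hG _)
        _ = 1 := Finset.prod_const_one
    have h2 : (0 : ℝ) ≤ if ∀ q ∈ Q, Even (∑ i, V q (τ i)) then (2 : ℝ) ^ Q.card else 0 := by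
      split_ifs <;> positivity
    calc _ ≤ 1 * (if ∀ q ∈ Q, Even (∑ i, V q (τ i)) then (2 : ℝ) ^ Q.card else 0) :=
          mul_le_mul_of_nonneg_right h1 h2
      _ = _ := one_mul _
  refine e4.trans (le_of_eq ?_)
  rw [← Finset.sum_filter, Finset.sum_const, nsmul_eq_mul, mul_comm]

end Pool.Agent.H220M
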