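import Pool.Agent.H220M.Base4

set_option autoImplicit false
set_option linter.all false

/-!
# The Chinese remainder theorem for tuples in counting form
-/

namespace Pool.Agent.H220M

open Finset

theorem tM2_two (k a b : ℕ) (hab : a.Coprime b) (ha : 0 < a) (hb : 0 < b)
    (P P' : (Fin k → ℕ) → Prop) [DecidablePred P] [DecidablePred P']
    (hP : ∀ τ τ' : Fin k → ℕ, (∀ i, τ i ≡ τ' i [MOD a]) → (P τ ↔ P τ'))
    (hP' : ∀ τ τ' : Fin k → ℕ, (∀ i, τ i ≡ τ' i [MOD b]) → (P' τ ↔ P' τ')) :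
    ((Fintype.piFinset (fun _ : Fin k => range (a * b))).filter (fun τ => P τ ∧ P' τ)).card
      = ((Fintype.piFinset (fun _ : Fin k => range a)).filter P).card *
        ((Fintype.piFinset (fun _ : Fin k => range b)).filter P').card := by
  have h3 : ∀ τ : Fin k → ℕ, P (fun i => τ i % a) ↔ P τ :=
    fun τ => hP _ _ (fun i => Nat.mod_modEq _ _)
  have h4 : ∀ τ : Fin k → ℕ, P' (fun i => τ i % b) ↔ P' τ :=
    fun τ => hP' _ _ (fun i => Nat.mod_modEq _ _)
  rw [← card_product]
  refine Finset.card_bij (fun τ _ => ((fun i => τ i % a), (fun i => τ i % b))) ?_ ?_ ?_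
  · intro τ hτ
    rw [mem_filter] at hτ
    rw [mem_product, mem_filter, mem_filter, Fintype.mem_piFinset, Fintype.mem_piFinset]
    refine ⟨⟨fun i => mem_range.2 (Nat.mod_lt _ ha), (h3 τ).2 hτ.2.1⟩,
      ⟨fun i => mem_range.2 (Nat.mod_lt _ hb), (h4 τ).2 hτ.2.2⟩⟩
  · intro τ hτ σ hσ hts
    rw [mem_filter, Fintype.mem_piFinset] at hτ hσ
    rw [Prod.mk.injEq] at hts
    funext i
    have h5 : τ i ≡ σ i [MOD a * b] :=
      (Nat.modEq_and_modEq_iff_modEq_mul hab).1 ⟨congrFun hts.1 i, congrFun hts.2 i⟩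
    exact h5.eq_of_lt_of_lt (mem_range.1 (hτ.1 i)) (mem_range.1 (hσ.1 i))
  · rintro ⟨u, v⟩ huv
    rw [mem_product, mem_filter, mem_filter, Fintype.mem_piFinset, Fintype.mem_piFinset] at huv
    obtain ⟨⟨hu, hPu⟩, ⟨hv, hPv⟩⟩ := huv
    have hu' : ∀ i, u i < a := fun i => mem_range.1 (hu i)
    have hv' : ∀ i, v i < b := fun i => mem_range.1 (hv i)
    have h7 : (fun i => ((Nat.chineseRemainder hab (u i) (v i) : ℕ)) % a) = u := by
      funext i
      rw [(Nat.chineseRemainder hab (u i) (v i)).2.1, Nat.mod_eq_of_lt (hu' i)]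
    have h8 : (fun i => ((Nat.chineseRemainder hab (u i) (v i) : ℕ)) % b) = v := by
      funext i
      rw [(Nat.chineseRemainder hab (u i) (v i)).2.2, Nat.mod_eq_of_lt (hv' i)]
    refine ⟨fun i => (Nat.chineseRemainder hab (u i) (v i) : ℕ), ?_, ?_⟩
    · rw [mem_filter, Fintype.mem_piFinset]
      refine ⟨fun i => mem_range.2 (Nat.chineseRemainder_lt_mul hab (u i) (v i) ha.ne' hb.ne'),
        ?_, ?_⟩
      · rw [← h3, h7]
        exact hPu
      · rw [← h4, h8]
        exact hPv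
    · exact Prod.ext h7 h8

/-- M2 -/
theorem tM2 : StmM2 := by
  classical
  intro k Q
  induction Q using Finset.induction_on with
  | empty =>
    intro _ P _ _
    simp
  | insert q Q hq ih =>
    intro hpr P _ hP
    have hprQ : ∀ p ∈ Q, p.Prime := fun p hp => hpr p (mem_insert_of_mem hp)
    have hqp : q.Prime := hpr q (mem_insert_self _ _)
    rw [prod_insert hq, prod_insert hq,
      ← ih hprQ P (fun p hp => hP p (mem_insert_of_mem hp))]
    rw [← tM2_two k (q ^ 2) (∏ p ∈ Q, p ^ 2) ?_ (pow_pos hqp.pos 2)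
      (prod_pos fun p hp => pow_pos (hprQ p hp).pos 2) (P q) (fun τ => ∀ p ∈ Q, P p τ)
      (hP q (mem_insert_self _ _)) ?_]
    · refine congrArg Finset.card (filter_congr fun r _ => ?_)
      rw [forall_mem_insert]
    · refine Nat.Coprime.prod_right fun p hp => ?_
      refine Nat.Coprime.pow 2 2 ((Nat.coprime_primes hqp (hprQ p hp)).2 ?_)
      rintro rfl
      exact hq hp
    · intro τ τ' h
      refine forall₂_congr fun p hp => ?_
      have h1 : p ^ 2 ∣ ∏ p ∈ Q, p ^ 2 := dvd_prod_of_mem (fun p => p ^ 2) hp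
      exact hP p (mem_insert_of_mem hp) τ τ' (fun i => (h i).of_dvd h1)

end Pool.Agent.H220M
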