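import Pool.Agent.H220M.Base4

set_option autoImplicit false

namespace Pool.Agent.H220M

open Finset

theorem tM3 : StmM3 := by
  intro k M x hM P _ hP
  have h : ((Fintype.piFinset (fun _ : Fin k => range x)).filter P).card ≤
      ((Fintype.piFinset (fun _ : Fin k => range (x / M + 1))) ×ˢ
        ((Fintype.piFinset (fun _ : Fin k => range M)).filter P)).card := by
    refine Finset.card_le_card_of_injOn
      (fun τ : Fin k → ℕ => ((fun i => τ i / M), (fun i => τ i % M))) ?_ ?_
    · intro τ hτ
      rw [Finset.mem_coe, Finset.mem_filter, Fintype.mem_piFinset] at hτ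
      rw [Finset.mem_coe, Finset.mem_product, Finset.mem_filter, Fintype.mem_piFinset,
        Fintype.mem_piFinset]
      refine ⟨fun i => ?_, fun i => ?_, ?_⟩
      · have h1 := Finset.mem_range.mp (hτ.1 i)
        exact Finset.mem_range.mpr (Nat.lt_succ_of_le (Nat.div_le_div_right h1.le))
      · exact Finset.mem_range.mpr (Nat.mod_lt _ hM)
      · exact (hP τ (fun i => τ i % M) (fun i => (Nat.mod_modEq (τ i) M).symm)).mp hτ.2
    · intro τ _ τ' _ hh
      have h1 := congrArg Prod.fst hh
      have h2 := congrArg Prod.snd hh
      funext i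
      have h3 : τ i / M = τ' i / M := congrFun h1 i
      have h4 : τ i % M = τ' i % M := congrFun h2 i
      rw [← Nat.div_add_mod (τ i) M, ← Nat.div_add_mod (τ' i) M, h3, h4]
  rw [Finset.card_product, Fintype.card_piFinset, Finset.prod_const, Finset.card_range,
    Finset.card_univ, Fintype.card_fin] at h
  exact h

end Pool.Agent.H220M
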