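import Pool.Agent.H220M.Base4

set_option autoImplicit false

namespace Pool.Agent.H220M

open Finset Polynomial

theorem tM4 (hP2 : StmP2) (hM4a : StmM4a) : StmM4 := by
  classical
  intro F q s hq hsr hs hdq inst
  obtain ⟨hd1, hN0⟩ := hM4a F q hq hsr
  have hq0 : 0 < q := hq.pos
  have hqR : (0 : ℝ) < q := by exact_mod_cast hq0
  have hsR : (1 : ℝ) ≤ s := by exact_mod_cast hs
  obtain ⟨A, hAdef⟩ : ∃ A : Finset ℕ, ∀ r, r ∈ A ↔ r < q ^ 2 ∧
      ((q : ℤ) ∣ F.eval ((r : ℤ) + 1) ∧ ¬ (q : ℤ) ^ 2 ∣ F.eval ((r : ℤ) + 1)) :=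
    ⟨(range (q ^ 2)).filter (fun r : ℕ =>
      ((q : ℤ) ∣ F.eval ((r : ℤ) + 1) ∧ ¬ (q : ℤ) ^ 2 ∣ F.eval ((r : ℤ) + 1))), by
      intro r; simp⟩
  obtain ⟨N, hNdef⟩ : ∃ N : Finset ℕ, ∀ r, r ∈ N ↔ r < q ^ 2 ∧
      ¬ (q : ℤ) ∣ F.eval ((r : ℤ) + 1) :=
    ⟨(range (q ^ 2)).filter (fun r : ℕ => ¬ (q : ℤ) ∣ F.eval ((r : ℤ) + 1)), by
      intro r; simp⟩
  have hA : (q : ℝ) / 2 ≤ (A.card : ℝ) := by
    have h := (hP2 F q hq (by nlinarith) hsr 0).2.2 (Classical.decPred _)
    have h2 : q ^ 2 ≤ A.card +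
        (@Finset.filter _ (locP F q 0) (Classical.decPred _) (range (q ^ 2))).card := by
      calc q ^ 2 = (range (q ^ 2)).card := (card_range _).symm
        _ ≤ (A ∪ (@Finset.filter _ (locP F q 0) (Classical.decPred _) (range (q ^ 2)))).card := by
          apply card_le_card
          intro r hr
          rw [mem_range] at hr
          rw [mem_union, hAdef, mem_filter, mem_range]
          by_cases hc : ((q : ℤ) ∣ F.eval ((r : ℤ) + 1) ∧ ¬ (q : ℤ) ^ 2 ∣ F.eval ((r : ℤ) + 1))
          · exact Or.inl ⟨hr, hc⟩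
          · refine Or.inr ⟨hr, ?_⟩
            unfold locP
            rw [if_pos (by norm_num)]
            exact hc
        _ ≤ _ := card_union_le _ _
    have h2R : (q : ℝ) ^ 2 ≤ A.card +
        ((@Finset.filter _ (locP F q 0) (Classical.decPred _) (range (q ^ 2))).card : ℝ) := by
      exact_mod_cast h2
    have h4 : (q : ℝ) ^ 2 * (1 - 1 / (2 * q)) = (q : ℝ) ^ 2 - q / 2 := by
      field_simp
    rw [h4] at h
    linarith
  have hN : (q : ℝ) ^ 2 * (1 - F.natDegree / q) ≤ (N.card : ℝ) := by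
    have h2 : q ^ 2 ≤ N.card +
        ((range (q ^ 2)).filter (fun r : ℕ => (q : ℤ) ∣ F.eval ((r : ℤ) + 1))).card := by
      calc q ^ 2 = (range (q ^ 2)).card := (card_range _).symm
        _ ≤ (N ∪ ((range (q ^ 2)).filter (fun r : ℕ => (q : ℤ) ∣ F.eval ((r : ℤ) + 1)))).card := by
          apply card_le_card
          intro r hr
          rw [mem_range] at hr
          rw [mem_union, hNdef, mem_filter, mem_range]
          by_cases hc : ((q : ℤ) ∣ F.eval ((r : ℤ) + 1))
          · exact Or.inr ⟨hr, hc⟩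
          · exact Or.inl ⟨hr, hc⟩
        _ ≤ _ := card_union_le _ _
    have h3 : q ^ 2 ≤ N.card + q * F.natDegree := by
      refine h2.trans (Nat.add_le_add_left ?_ _)
      convert hN0
    have h3R : (q : ℝ) ^ 2 ≤ N.card + q * F.natDegree := by exact_mod_cast h3
    have h4 : (q : ℝ) ^ 2 * (1 - F.natDegree / q) = (q : ℝ) ^ 2 - q * F.natDegree := by
      field_simp
    rw [h4]
    linarith
  have hcount : 2 * s * (A.card * N.card ^ (2 * s - 1)) +
      ((Fintype.piFinset (fun _ : Fin (2 * s) => range (q ^ 2))).filter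
        (fun τ => ¬ one F q τ)).card ≤ (q ^ 2) ^ (2 * s) := by
    have hdisj : ∀ i ∈ (univ : Finset (Fin (2 * s))), ∀ j ∈ (univ : Finset (Fin (2 * s))), i ≠ j →
        Disjoint (Fintype.piFinset (fun i' : Fin (2 * s) => if i' = i then A else N))
          (Fintype.piFinset (fun i' : Fin (2 * s) => if i' = j then A else N)) := by
      intro i _ j _ hij
      rw [Finset.disjoint_left]
      intro τ h1 h2
      rw [Fintype.mem_piFinset] at h1 h2
      have h3 := h1 i
      have h4 := h2 i
      rw [if_pos rfl, hAdef] at h3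
      rw [if_neg hij, hNdef] at h4
      exact h4.2 h3.2.1
    have hcardB : ((univ : Finset (Fin (2 * s))).biUnion (fun i =>
        Fintype.piFinset (fun i' : Fin (2 * s) => if i' = i then A else N))).card
        = 2 * s * (A.card * N.card ^ (2 * s - 1)) := by
      rw [card_biUnion hdisj]
      have : ∀ i ∈ (univ : Finset (Fin (2 * s))),
          (Fintype.piFinset (fun i' : Fin (2 * s) => if i' = i then A else N)).card
          = A.card * N.card ^ (2 * s - 1) := by
        intro i _
        rw [Fintype.card_piFinset]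
        rw [← Finset.mul_prod_erase univ _ (mem_univ i), if_pos rfl]
        congr 1
        rw [Finset.prod_congr rfl (g := fun _ => N.card) (fun j hj => by
          rw [if_neg (ne_of_mem_erase hj)])]
        rw [prod_const, card_erase_of_mem (mem_univ i), card_univ, Fintype.card_fin]
      rw [Finset.sum_congr rfl this, sum_const, card_univ, Fintype.card_fin, smul_eq_mul]
    rw [← hcardB, ← card_union_of_disjoint]
    · calc _ ≤ (Fintype.piFinset (fun _ : Fin (2 * s) => range (q ^ 2))).card := by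
            apply card_le_card
            apply union_subset
            · intro τ hτ
              rw [mem_biUnion] at hτ
              obtain ⟨i, _, hi⟩ := hτ
              rw [Fintype.mem_piFinset] at hi ⊢
              intro j
              have := hi j
              rw [mem_range]
              by_cases hj : j = i
              · rw [if_pos hj, hAdef] at this; exact this.1
              · rw [if_neg hj, hNdef] at this; exact this.1
            · exact filter_subset _ _
        _ = (q ^ 2) ^ (2 * s) := by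
            rw [Fintype.card_piFinset]; simp
    · rw [Finset.disjoint_left]
      intro τ h1 h2
      rw [mem_biUnion] at h1
      obtain ⟨i, _, hi⟩ := h1
      rw [Fintype.mem_piFinset] at hi
      rw [mem_filter] at h2
      apply h2.2
      refine ⟨i, ?_, ?_⟩
      · have := hi i
        rw [if_pos rfl, hAdef] at this
        exact this.2
      · intro j hj
        have := hi j
        rw [if_neg hj, hNdef] at this
        exact this.2
  have hcR : (2 * s : ℝ) * (A.card * (N.card : ℝ) ^ (2 * s - 1)) +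
      (((Fintype.piFinset (fun _ : Fin (2 * s) => range (q ^ 2))).filter
        (fun τ => ¬ one F q τ)).card : ℝ) ≤ ((q : ℝ) ^ 2) ^ (2 * s) := by
    exact_mod_cast hcount
  have hdR : 4 * (s : ℝ) * F.natDegree ≤ q := by exact_mod_cast hdq
  have hdq1 : (F.natDegree : ℝ) / q ≤ 1 := by
    rw [div_le_one hqR]; nlinarith [(Nat.cast_nonneg F.natDegree : (0 : ℝ) ≤ F.natDegree)]
  have hd0 : (0 : ℝ) ≤ F.natDegree / q := by positivity
  have hbern : (1 : ℝ) / 2 ≤ (1 - F.natDegree / q) ^ (2 * s - 1) := by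
    have h1 := one_add_mul_le_pow (a := -((F.natDegree : ℝ) / q)) (by linarith) (2 * s - 1)
    have h2 : ((2 * s - 1 : ℕ) : ℝ) ≤ 2 * s := by
      have : (2 * s - 1 : ℕ) ≤ 2 * s := by omega
      exact_mod_cast this
    have h3 : (2 * (s : ℝ)) * (F.natDegree / q) ≤ 1 / 2 := by
      rw [← mul_div_assoc, div_le_iff₀ hqR]; linarith
    have h4 : ((2 * s - 1 : ℕ) : ℝ) * (F.natDegree / q) ≤ 1 / 2 :=
      (mul_le_mul_of_nonneg_right h2 hd0).trans h3
    have h5 : (1 : ℝ) + -((F.natDegree : ℝ) / q) = 1 - F.natDegree / q := by ring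
    rw [h5] at h1
    refine le_trans ?_ h1
    linarith
  have hNpow : ((q : ℝ) ^ 2) ^ (2 * s - 1) * (1 / 2) ≤ (N.card : ℝ) ^ (2 * s - 1) := by
    calc ((q : ℝ) ^ 2) ^ (2 * s - 1) * (1 / 2)
        ≤ ((q : ℝ) ^ 2) ^ (2 * s - 1) * (1 - F.natDegree / q) ^ (2 * s - 1) :=
          mul_le_mul_of_nonneg_left hbern (by positivity)
      _ = ((q : ℝ) ^ 2 * (1 - F.natDegree / q)) ^ (2 * s - 1) := (mul_pow _ _ _).symm
      _ ≤ (N.card : ℝ) ^ (2 * s - 1) := by
          apply pow_le_pow_left₀ _ hN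
          have : (0 : ℝ) ≤ 1 - F.natDegree / q := by linarith
          positivity
  have hmain : ((q : ℝ) ^ 2) ^ (2 * s) * (s / (2 * q)) ≤
      (2 * s : ℝ) * (A.card * (N.card : ℝ) ^ (2 * s - 1)) := by
    have h1 : ((q : ℝ) ^ 2) ^ (2 * s) = ((q : ℝ) ^ 2) ^ (2 * s - 1) * (q : ℝ) ^ 2 := by
      rw [← pow_succ]; congr 1; omega
    calc ((q : ℝ) ^ 2) ^ (2 * s) * (s / (2 * q))
        = (2 * s : ℝ) * ((q / 2) * (((q : ℝ) ^ 2) ^ (2 * s - 1) * (1 / 2))) := by
          rw [h1]; field_simp
      _ ≤ (2 * s : ℝ) * (A.card * (N.card : ℝ) ^ (2 * s - 1)) := by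
          apply mul_le_mul_of_nonneg_left _ (by positivity)
          apply mul_le_mul hA hNpow (by positivity) (by positivity)
  have hfin : ((q : ℝ) ^ 2) ^ (2 * s) * (1 - s / (2 * q))
      = ((q : ℝ) ^ 2) ^ (2 * s) - ((q : ℝ) ^ 2) ^ (2 * s) * (s / (2 * q)) := by ring
  rw [hfin]
  linarith

end Pool.Agent.H220M
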