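import Pool.Agent.H220M.Base2

set_option autoImplicit false

namespace Pool.Agent.H220M

open Finset Polynomial

namespace P2

theorem one (F : ℤ[X]) (q : ℕ) (hq : q.Prime) (e r : ℕ)
    (h : ((F.eval ((r : ℤ) + 1)).natAbs.factorization q) % 2 = e % 2) : locP F q e r := by
  unfold locP
  set v := F.eval ((r : ℤ) + 1) with hv
  split_ifs with he
  · rintro ⟨h1, h2⟩
    rw [he] at h
    have h1' : q ∣ v.natAbs := Int.natCast_dvd.mp h1
    have h2' : ¬ q ^ 2 ∣ v.natAbs := by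
      intro h3
      apply h2
      have : ((q ^ 2 : ℕ) : ℤ) ∣ v := Int.natCast_dvd.mpr h3
      exact_mod_cast this
    have h0 : v.natAbs ≠ 0 := by
      intro h3
      exact h2' (h3 ▸ dvd_zero _)
    have h4 : 1 ≤ v.natAbs.factorization q := (hq.dvd_iff_one_le_factorization h0).mp h1'
    have h5 : ¬ 2 ≤ v.natAbs.factorization q := fun h6 =>
      h2' ((hq.pow_dvd_iff_le_factorization h0).mpr h6)
    omega
  · have h1 : v.natAbs.factorization q ≠ 0 := by
      intro h0; rw [h0] at h; omega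
    have h2 : q ∣ v.natAbs := Nat.dvd_of_factorization_pos h1
    exact Int.natCast_dvd.mpr h2

theorem per (F : ℤ[X]) (q : ℕ) (x y : ℤ) (h : (q : ℤ) ^ 2 ∣ x - y) :
    ((q : ℤ) ∣ F.eval x ↔ (q : ℤ) ∣ F.eval y) ∧
    ((q : ℤ) ^ 2 ∣ F.eval x ↔ (q : ℤ) ^ 2 ∣ F.eval y) := by
  have h1 : (q : ℤ) ^ 2 ∣ F.eval x - F.eval y := h.trans (Polynomial.sub_dvd_eval_sub x y F)
  have h2 : (q : ℤ) ∣ F.eval x - F.eval y := (dvd_pow_self _ two_ne_zero).trans h1
  exact ⟨(dvd_iff_dvd_of_dvd_sub h2), (dvd_iff_dvd_of_dvd_sub h1)⟩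

theorem two (F : ℤ[X]) (q : ℕ) (e r : ℕ) : locP F q e (r + q ^ 2) ↔ locP F q e r := by
  have h := per F q (((r + q ^ 2 : ℕ) : ℤ) + 1) ((r : ℤ) + 1) (by
    push_cast
    exact ⟨1, by ring⟩)
  unfold locP
  rw [h.1, h.2]

/-- the case of odd parity -/
theorem odd (F : ℤ[X]) (q : ℕ) (hq : q.Prime) (hs : SimpleRoot F q)
    (_ : DecidablePred (fun r : ℕ => (q : ℤ) ∣ F.eval ((r : ℤ) + 1))) :
    ((range (q ^ 2)).filter (fun r : ℕ => (q : ℤ) ∣ F.eval ((r : ℤ) + 1))).card ≤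
      q * F.natDegree := by
  classical
  have : Fact q.Prime := ⟨hq⟩
  obtain ⟨a, ha, hb⟩ := hs
  set P : (ZMod q)[X] := F.map (Int.castRingHom (ZMod q)) with hP
  have hP0 : P ≠ 0 := by
    intro h0
    apply hb
    rw [← ZMod.intCast_zmod_eq_zero_iff_dvd]
    have h1 : (P.derivative).eval ((a : ℤ) : ZMod q) = 0 := by rw [h0]; simp
    rw [hP, Polynomial.derivative_map, Polynomial.eval_intCast_map] at h1
    simpa using h1
  have hcard : P.roots.toFinset.card ≤ F.natDegree :=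
    (Multiset.toFinset_card_le _).trans ((Polynomial.card_roots' P).trans
      Polynomial.natDegree_map_le)
  refine (Finset.card_le_mul_card_image_of_maps_to (f := fun r : ℕ => ((r : ZMod q) + 1))
    (t := P.roots.toFinset) ?_ q ?_).trans (Nat.mul_le_mul_left _ hcard)
  · intro r hr
    rw [Finset.mem_filter] at hr
    rw [Multiset.mem_toFinset, Polynomial.mem_roots hP0, Polynomial.IsRoot.def]
    have h1 : ((r : ZMod q) + 1) = (((r : ℤ) + 1 : ℤ) : ZMod q) := by push_cast; rfl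
    rw [h1, hP, Polynomial.eval_intCast_map]
    simpa using (ZMod.intCast_zmod_eq_zero_iff_dvd _ q).mpr hr.2
  · intro b _
    refine le_of_le_of_eq (Finset.card_le_card_of_injOn (t := range q) (fun r => r / q) ?_ ?_)
      (Finset.card_range q)
    · intro r hr
      simp only [Finset.coe_filter, Finset.mem_filter, Finset.mem_range, Set.mem_setOf_eq] at hr
      rw [Finset.mem_coe, Finset.mem_range]
      apply Nat.div_lt_of_lt_mul
      rw [← sq]
      exact hr.1.1
    · intro r hr r' hr' h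
      simp only [Finset.coe_filter, Finset.mem_filter, Finset.mem_range, Set.mem_setOf_eq] at hr hr'
      have h1 : (r : ZMod q) = (r' : ZMod q) := by
        have := hr.2.trans hr'.2.symm
        exact add_right_cancel this
      have h2 : r % q = r' % q := (ZMod.natCast_eq_natCast_iff' r r' q).mp h1
      rw [← Nat.div_add_mod r q, ← Nat.div_add_mod r' q, h2]
      simp only at h
      rw [h]

/-- the case of even parity -/
theorem even (F : ℤ[X]) (q : ℕ) (hq : q.Prime) (hs : SimpleRoot F q)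
    (_ : DecidablePred (fun r : ℕ => ¬ ((q : ℤ) ∣ F.eval ((r : ℤ) + 1) ∧
      ¬ (q : ℤ) ^ 2 ∣ F.eval ((r : ℤ) + 1)))) :
    ((range (q ^ 2)).filter (fun r : ℕ => ¬ ((q : ℤ) ∣ F.eval ((r : ℤ) + 1) ∧
      ¬ (q : ℤ) ^ 2 ∣ F.eval ((r : ℤ) + 1)))).card + q ≤ q ^ 2 + 1 := by
  classical
  obtain ⟨a, ha, hb⟩ := hs
  have hq0 : (0 : ℤ) < (q : ℤ) := by exact_mod_cast hq.pos
  have hqq : (0 : ℤ) < (q : ℤ) ^ 2 := by positivity
  have hpr : Prime (q : ℤ) := Nat.prime_iff_prime_int.mp hq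
  -- the special residues
  let ρ : ℕ → ℕ := fun s => ((a + q * s - 1) % (q : ℤ) ^ 2).toNat
  have hρ : ∀ s, ((ρ s : ℕ) : ℤ) = (a + q * s - 1) % (q : ℤ) ^ 2 := fun s =>
    Int.toNat_of_nonneg (Int.emod_nonneg _ hqq.ne')
  have hρlt : ∀ s, ρ s < q ^ 2 := by
    intro s
    have := Int.emod_lt_of_pos (a + q * s - 1) hqq
    rw [← hρ] at this
    exact_mod_cast this
  have hρd : ∀ s, (q : ℤ) ^ 2 ∣ (((ρ s : ℕ) : ℤ) + 1) - (a + q * s) := by
    intro s
    rw [hρ]
    have h1 := Int.emod_add_mul_ediv (a + q * s - 1) ((q : ℤ) ^ 2)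
    refine ⟨-((a + q * s - 1) / (q : ℤ) ^ 2), ?_⟩
    linarith
  have hinj : Set.InjOn ρ (range q : Set ℕ) := by
    intro s hs s' hs' h
    have hs1 : s < q := by simpa using hs
    have hs2 : s' < q := by simpa using hs'
    have h1 := hρd s
    have h2 := hρd s'
    rw [h] at h1
    have h3 : (q : ℤ) ^ 2 ∣ q * ((s : ℤ) - s') := by
      have := dvd_sub h2 h1
      have e : ((((ρ s' : ℕ) : ℤ) + 1) - (a + q * s')) - ((((ρ s' : ℕ) : ℤ) + 1) - (a + q * s)) =
        q * ((s : ℤ) - s') := by ring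
      rwa [e] at this
    rw [sq] at h3
    have h4 : (q : ℤ) ∣ (s : ℤ) - s' := (mul_dvd_mul_iff_left hq0.ne').mp h3
    have h5 : (s : ℤ) - s' = 0 := by
      apply Int.eq_zero_of_abs_lt_dvd h4
      rw [abs_lt]
      constructor <;> omega
    omega
  obtain ⟨c, hc⟩ := ha
  have hval : ∀ s : ℕ, ∃ k : ℤ, F.eval (a + q * s) =
      q * (c + s * F.derivative.eval a) + (q : ℤ) ^ 2 * k := by
    intro s
    obtain ⟨k, hk⟩ := Polynomial.binomExpansion F a (q * s)
    refine ⟨k * s ^ 2, ?_⟩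
    rw [hk, hc]; ring
  have hdq : ∀ s : ℕ, (q : ℤ) ∣ F.eval (a + q * s) := by
    intro s
    obtain ⟨k, hk⟩ := hval s
    rw [hk]
    exact ⟨c + s * F.derivative.eval a + q * k, by ring⟩
  have hdq2 : ∀ s : ℕ, (q : ℤ) ^ 2 ∣ F.eval (a + q * s) → (q : ℤ) ∣ c + s * F.derivative.eval a := by
    intro s hs
    obtain ⟨k, hk⟩ := hval s
    rw [hk] at hs
    have h1 : (q : ℤ) ^ 2 ∣ q * (c + s * F.derivative.eval a) := by
      rwa [dvd_add_left (dvd_mul_right _ _)] at hs
    rw [sq] at h1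
    exact (mul_dvd_mul_iff_left hq0.ne').mp h1
  -- bad s
  let B : Finset ℕ := (range q).filter (fun s : ℕ => (q : ℤ) ^ 2 ∣ F.eval (a + q * s))
  have hB : B.card ≤ 1 := by
    rw [Finset.card_le_one]
    intro s hs s' hs'
    rw [Finset.mem_filter, Finset.mem_range] at hs hs'
    have h1 := hdq2 s hs.2
    have h2 := hdq2 s' hs'.2
    have h3 : (q : ℤ) ∣ ((s : ℤ) - s') * F.derivative.eval a := by
      have := dvd_sub h1 h2
      have e : (c + s * F.derivative.eval a) - (c + s' * F.derivative.eval a) =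
        ((s : ℤ) - s') * F.derivative.eval a := by ring
      rwa [e] at this
    have h4 : (q : ℤ) ∣ (s : ℤ) - s' := (hpr.dvd_or_dvd h3).resolve_right hb
    have h5 : (s : ℤ) - s' = 0 := by
      apply Int.eq_zero_of_abs_lt_dvd h4
      rw [abs_lt]
      constructor <;> omega
    omega
  let E : Finset ℕ := ((range q) \ B).image ρ
  have hE : q ≤ E.card + 1 := by
    have h1 : E.card = ((range q) \ B).card := by
      apply Finset.card_image_of_injOn
      refine hinj.mono ?_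
      intro s hs
      simp only [Finset.coe_sdiff, Set.mem_sdiff] at hs
      exact hs.1
    have h2 : (range q).card ≤ ((range q) \ B).card + B.card := by
      have := Finset.le_card_sdiff B (range q)
      omega
    rw [Finset.card_range] at h2
    omega
  have hdisj : Disjoint ((range (q ^ 2)).filter (fun r : ℕ => ¬ ((q : ℤ) ∣ F.eval ((r : ℤ) + 1) ∧
      ¬ (q : ℤ) ^ 2 ∣ F.eval ((r : ℤ) + 1)))) E := by
    rw [Finset.disjoint_left]
    intro r hr hrE
    rw [Finset.mem_filter] at hr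
    obtain ⟨s, hs, rfl⟩ := Finset.mem_image.mp hrE
    rw [Finset.mem_sdiff] at hs
    apply hr.2
    have h1 := per F q (((ρ s : ℕ) : ℤ) + 1) (a + q * s) (hρd s)
    rw [h1.1, h1.2]
    refine ⟨hdq s, fun h2 => hs.2 ?_⟩
    exact Finset.mem_filter.mpr ⟨hs.1, h2⟩
  have hsub : ((range (q ^ 2)).filter (fun r : ℕ => ¬ ((q : ℤ) ∣ F.eval ((r : ℤ) + 1) ∧
      ¬ (q : ℤ) ^ 2 ∣ F.eval ((r : ℤ) + 1)))) ∪ E ⊆ range (q ^ 2) := by
    apply Finset.union_subset (Finset.filter_subset _ _)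
    intro r hr
    obtain ⟨s, _, rfl⟩ := Finset.mem_image.mp hr
    exact Finset.mem_range.mpr (hρlt s)
  have hfin := Finset.card_le_card hsub
  rw [Finset.card_union_of_disjoint hdisj, Finset.card_range] at hfin
  omega

end P2

theorem tP2 : StmP2 := by
  intro F q hq hd hs e
  refine ⟨fun r h => P2.one F q hq e r h, fun r => P2.two F q e r, ?_⟩
  intro dec
  have hq2 : (2 : ℝ) ≤ q := by exact_mod_cast hq.two_le
  have hq0 : (0 : ℝ) < q := by linarith
  have hR : (q : ℝ) ^ 2 * (1 - 1 / (2 * q)) = (q : ℝ) ^ 2 - q / 2 := by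
    field_simp
  rw [hR]
  by_cases he : e % 2 = 0
  · have hl : locP F q e = fun r : ℕ => ¬ ((q : ℤ) ∣ F.eval ((r : ℤ) + 1) ∧
        ¬ (q : ℤ) ^ 2 ∣ F.eval ((r : ℤ) + 1)) := by
      funext r; unfold locP; rw [if_pos he]
    revert dec
    rw [hl]
    intro dec
    have h1 := P2.even F q hq hs dec
    have h2 : ((((range (q ^ 2)).filter (fun r : ℕ => ¬ ((q : ℤ) ∣ F.eval ((r : ℤ) + 1) ∧
        ¬ (q : ℤ) ^ 2 ∣ F.eval ((r : ℤ) + 1)))).card : ℕ) : ℝ) + q ≤ (q : ℝ) ^ 2 + 1 := by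
      exact_mod_cast h1
    linarith
  · have hl : locP F q e = fun r : ℕ => (q : ℤ) ∣ F.eval ((r : ℤ) + 1) := by
      funext r; unfold locP; rw [if_neg he]
    revert dec
    rw [hl]
    intro dec
    have h1 := P2.odd F q hq hs dec
    have h2 : (((range (q ^ 2)).filter (fun r : ℕ => (q : ℤ) ∣ F.eval ((r : ℤ) + 1))).card : ℝ) ≤
        q * F.natDegree := by exact_mod_cast h1
    have h3 : 2 * (F.natDegree : ℝ) ≤ q := by exact_mod_cast hd
    nlinarith

end Pool.Agent.H220M
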