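import Pool.Agent.H220M.Base4
import Pool.Agent.H220M.P2

/-! Number of zeros modulo `q` (part M4a, helper466; the count is lemma `P2.odd` of helper368). -/

set_option autoImplicit false

namespace Pool.Agent.H220M

open Finset Polynomial

theorem tM4a : StmM4a := by
  intro F q hq hs
  refine ⟨?_, P2.odd F q hq hs _⟩
  rw [Nat.one_le_iff_ne_zero]
  intro h0
  obtain ⟨a, _, hb⟩ := hs
  apply hb
  rw [Polynomial.eq_C_of_natDegree_eq_zero h0, Polynomial.derivative_C, Polynomial.eval_zero]
  exact dvd_zero _

end Pool.Agent.H220M
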