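import Pool.Agent.H220M.Base4

/-!
Exponential bound for the number of bad subsets.
-/

set_option autoImplicit false

namespace Pool.Agent.H220M

open Finset Polynomial

namespace TM5

theorem flip_cast (S : Finset ℕ) (k : ℕ) :
    (((flipU S k : ℤˣ) : ℤ) : ℝ) = ∏ q ∈ S, (-1 : ℝ) ^ (k.factorization q) := by
  unfold flipU
  rw [Units.coe_prod, Int.cast_prod]
  refine Finset.prod_congr rfl fun q _ => ?_
  push_cast
  rfl

/-- parity of the sum of the valuations -/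
theorem odd_of_one {k : ℕ} (F : ℤ[X]) (q : ℕ) (hq : q.Prime) (τ : Fin k → ℕ)
    (h : one F q τ) : ¬ Even (∑ i, (F.eval ((τ i : ℤ) + 1)).natAbs.factorization q) := by
  obtain ⟨i, ⟨h1, h2⟩, h3⟩ := h
  have e1 : (F.eval ((τ i : ℤ) + 1)).natAbs.factorization q = 1 := by
    have hn : (F.eval ((τ i : ℤ) + 1)).natAbs ≠ 0 := by
      intro h0
      apply h2
      rw [Int.natAbs_eq_zero] at h0
      rw [h0]
      exact dvd_zero _
    have a1 : q ^ 1 ∣ (F.eval ((τ i : ℤ) + 1)).natAbs := by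
      rw [pow_one]
      exact Int.natCast_dvd.mp h1
    have a2 : ¬ q ^ 2 ∣ (F.eval ((τ i : ℤ) + 1)).natAbs := by
      intro h
      apply h2
      have := Int.natCast_dvd.mpr h
      push_cast at this
      exact this
    rw [hq.pow_dvd_iff_le_factorization hn] at a1 a2
    omega
  have e2 : ∑ i, (F.eval ((τ i : ℤ) + 1)).natAbs.factorization q = 1 := by
    rw [Finset.sum_eq_single i]
    · exact e1
    · intro j _ hj
      apply Nat.factorization_eq_zero_of_not_dvd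
      intro h
      exact h3 j hj (Int.natCast_dvd.mpr h)
    · intro h
      exact absurd (Finset.mem_univ i) h
  rw [e2]
  decide

/-- periodicity -/
theorem one_congr {k : ℕ} (F : ℤ[X]) (q : ℕ) (τ τ' : Fin k → ℕ)
    (h : ∀ i, τ i ≡ τ' i [MOD q ^ 2]) : one F q τ ↔ one F q τ' := by
  have h2 : ∀ i, (q : ℤ) ^ 2 ∣ F.eval ((τ i : ℤ) + 1) - F.eval ((τ' i : ℤ) + 1) := by
    intro i
    have a1 : ((q : ℤ) ^ 2) ∣ ((τ i : ℤ) + 1) - ((τ' i : ℤ) + 1) := by
      have a2 := (Nat.modEq_iff_dvd.mp (h i).symm)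
      push_cast at a2
      have a3 : ((τ i : ℤ) + 1) - ((τ' i : ℤ) + 1) = (τ i : ℤ) - τ' i := by ring
      rw [a3]
      exact a2
    exact a1.trans (Polynomial.sub_dvd_eval_sub _ _ F)
  have h1 : ∀ i, (q : ℤ) ∣ F.eval ((τ i : ℤ) + 1) - F.eval ((τ' i : ℤ) + 1) := fun i =>
    (dvd_pow_self (q : ℤ) two_ne_zero).trans (h2 i)
  unfold one
  refine exists_congr fun i => ?_
  rw [dvd_iff_dvd_of_dvd_sub (h1 i), dvd_iff_dvd_of_dvd_sub (h2 i)]
  refine and_congr_right fun _ => ?_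
  refine forall_congr' fun j => ?_
  rw [dvd_iff_dvd_of_dvd_sub (h1 j)]

open Classical in
/-- the count of tuples -/
theorem count (hM2 : StmM2) (hM3 : StmM3) (hM4 : StmM4) (F : ℤ[X]) (s : ℕ) (Q : Finset ℕ)
    (hs : 1 ≤ s) (hQ : ∀ q ∈ Q, q.Prime ∧ SimpleRoot F q ∧ 4 * s * F.natDegree ≤ q) (x : ℕ)
    (hx : (∏ q ∈ Q, q ^ 2) ≤ x) :
    (((Fintype.piFinset (fun _ : Fin (2 * s) => range x)).filter
      (fun τ => ∀ q ∈ Q, ¬ one F q τ)).card : ℝ) ≤
      (2 * (x : ℝ)) ^ (2 * s) * Real.exp (-((s : ℝ) / 2 * ∑ q ∈ Q, (1 : ℝ) / q)) := by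
  obtain ⟨M, hM⟩ : ∃ M, M = ∏ q ∈ Q, q ^ 2 := ⟨_, rfl⟩
  have hM0 : 0 < M := by
    rw [hM]
    exact Finset.prod_pos fun q hq => pow_pos (hQ q hq).1.pos 2
  have h3 := hM3 (2 * s) M x hM0 (fun τ => ∀ q ∈ Q, ¬ one F q τ) (by
    intro τ τ' h
    refine forall_congr' fun q => ?_
    refine forall_congr' fun hq => ?_
    rw [one_congr F q τ τ' (fun i => (h i).of_dvd (by
      rw [hM]
      exact Finset.dvd_prod_of_mem (fun q => q ^ 2) hq))])
  have h2 := hM2 (2 * s) Q (fun q hq => (hQ q hq).1) (fun q τ => ¬ one F q τ) (by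
    intro q _ τ τ' h
    rw [one_congr F q τ τ' h])
  rw [← hM] at h2 hx
  rw [h2] at h3
  have h4 : ∀ q ∈ Q, ((((Fintype.piFinset (fun _ : Fin (2 * s) => range (q ^ 2))).filter
        (fun τ => ¬ one F q τ)).card : ℕ) : ℝ) ≤
      ((q : ℝ) ^ 2) ^ (2 * s) * Real.exp (-((s : ℝ) / 2 * (1 / q))) := by
    intro q hq
    refine (hM4 F q s (hQ q hq).1 (hQ q hq).2.1 hs (hQ q hq).2.2 _).trans ?_
    apply mul_le_mul_of_nonneg_left _ (by positivity)
    have := Real.add_one_le_exp (-((s : ℝ) / 2 * (1 / q)))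
    have e : (s : ℝ) / (2 * q) = (s : ℝ) / 2 * (1 / q) := by
      rw [div_mul_div_comm, mul_one]
    rw [e]
    linarith
  have h5 : (((∏ q ∈ Q, ((Fintype.piFinset (fun _ : Fin (2 * s) => range (q ^ 2))).filter
        (fun τ => ¬ one F q τ)).card : ℕ) : ℕ) : ℝ) ≤
      (M : ℝ) ^ (2 * s) * Real.exp (-((s : ℝ) / 2 * ∑ q ∈ Q, (1 : ℝ) / q)) := by
    rw [Nat.cast_prod]
    refine (Finset.prod_le_prod (fun q _ => Nat.cast_nonneg _) h4).trans (le_of_eq ?_)
    rw [Finset.prod_mul_distrib, Finset.prod_pow, ← Real.exp_sum, Finset.sum_neg_distrib,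
      ← Finset.mul_sum, hM]
    push_cast
    rfl
  have h6 : (((Fintype.piFinset (fun _ : Fin (2 * s) => range x)).filter
      (fun τ => ∀ q ∈ Q, ¬ one F q τ)).card : ℝ) ≤
      ((x / M + 1 : ℕ) : ℝ) ^ (2 * s) *
        ((M : ℝ) ^ (2 * s) * Real.exp (-((s : ℝ) / 2 * ∑ q ∈ Q, (1 : ℝ) / q))) := by
    refine le_trans ?_ (mul_le_mul_of_nonneg_left h5 (by positivity))
    exact_mod_cast h3
  refine h6.trans ?_
  rw [← mul_assoc, ← mul_pow]
  apply mul_le_mul_of_nonneg_right _ (Real.exp_pos _).le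
  apply pow_le_pow_left₀ (by positivity)
  have h7 : (x / M + 1) * M ≤ 2 * x := by
    have := Nat.div_mul_le_self x M
    rw [add_mul, one_mul]
    omega
  exact_mod_cast h7

end TM5

theorem tM5 (hM1 : StmM1) (hM2 : StmM2) (hM3 : StmM3) (hM4 : StmM4) : StmM5 := by
  classical
  intro F η s Q hη hs hQ hL x hx G hG inst
  have h1 := hM1 Q x (2 * s) G hG (fun q m => (F.eval ((m : ℤ) + 1)).natAbs.factorization q)
  have hxpos : 0 < x := lt_of_lt_of_le
    (Finset.prod_pos fun q hq => pow_pos (hQ q hq).1.pos 2) hx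
  have hx' : (0 : ℝ) < x := by exact_mod_cast hxpos
  simp only [← TM5.flip_cast] at h1
  obtain ⟨A, hA⟩ : ∃ A, A = Q.powerset.filter (fun S => η * x <
        |∑ m ∈ range x, G m *
          (((flipU S ((F.eval ((m : ℤ) + 1)).natAbs) : ℤˣ) : ℤ) : ℝ)|) := ⟨_, rfl⟩
  rw [← hA]
  have h2 : (A.card : ℝ) * (η * x) ^ (2 * s) ≤ ∑ S ∈ Q.powerset, (∑ m ∈ range x, G m *
      (((flipU S ((F.eval ((m : ℤ) + 1)).natAbs) : ℤˣ) : ℤ) : ℝ)) ^ (2 * s) := by
    calc (A.card : ℝ) * (η * x) ^ (2 * s) = ∑ S ∈ A, (η * x) ^ (2 * s) := by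
          rw [Finset.sum_const, nsmul_eq_mul]
      _ ≤ ∑ S ∈ A, (∑ m ∈ range x, G m *
      (((flipU S ((F.eval ((m : ℤ) + 1)).natAbs) : ℤˣ) : ℤ) : ℝ)) ^ (2 * s) := by
          refine Finset.sum_le_sum fun S hS => ?_
          rw [hA, Finset.mem_filter] at hS
          rw [← (even_two_mul s).pow_abs (∑ m ∈ range x, G m *
      (((flipU S ((F.eval ((m : ℤ) + 1)).natAbs) : ℤˣ) : ℤ) : ℝ))]
          exact pow_le_pow_left₀ (by positivity) hS.2.le _
      _ ≤ _ := by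
          refine Finset.sum_le_sum_of_subset_of_nonneg ?_ fun S _ _ => (even_two_mul s).pow_nonneg _
          rw [hA]
          exact Finset.filter_subset _ _
  have h3 := h2.trans h1
  have h4 : ((((Fintype.piFinset (fun _ : Fin (2 * s) => range x)).filter
          (fun τ => ∀ q ∈ Q, Even (∑ i, (F.eval ((τ i : ℤ) + 1)).natAbs.factorization q))).card
            : ℕ) : ℝ) ≤
      (2 * (x : ℝ)) ^ (2 * s) * Real.exp (-((s : ℝ) / 2 * ∑ q ∈ Q, (1 : ℝ) / q)) := by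
    refine le_trans ?_ (TM5.count hM2 hM3 hM4 F s Q hs hQ x hx)
    have : ((Fintype.piFinset (fun _ : Fin (2 * s) => range x)).filter
          (fun τ => ∀ q ∈ Q, Even (∑ i, (F.eval ((τ i : ℤ) + 1)).natAbs.factorization q))) ⊆
        ((Fintype.piFinset (fun _ : Fin (2 * s) => range x)).filter
          (fun τ => ∀ q ∈ Q, ¬ one F q τ)) := by
      intro τ hτ
      rw [Finset.mem_filter] at hτ ⊢
      exact ⟨hτ.1, fun q hq h => TM5.odd_of_one F q (hQ q hq).1 τ h (hτ.2 q hq)⟩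
    exact_mod_cast Finset.card_le_card this
  have h5 : Real.exp (-((s : ℝ) / 2 * ∑ q ∈ Q, (1 : ℝ) / q)) ≤
      (η / 2) ^ (2 * s) * Real.exp (-(s : ℝ)) := by
    have e1 : (η / 2) ^ (2 * s) = Real.exp (((2 * s : ℕ) : ℝ) * Real.log (η / 2)) := by
      rw [Real.exp_nat_mul, Real.exp_log (by positivity)]
    rw [e1, ← Real.exp_add]
    apply Real.exp_le_exp.mpr
    have e2 : Real.log (η / 2) = -Real.log (2 / η) := by
      rw [← Real.log_inv, inv_div]
    rw [e2]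
    push_cast
    have hs0 : (0 : ℝ) ≤ (s : ℝ) / 2 := by positivity
    have := mul_le_mul_of_nonneg_left hL hs0
    nlinarith [this]
  have h6 : (A.card : ℝ) * (η * x) ^ (2 * s) ≤
      (Real.exp (-(s : ℝ)) * 2 ^ Q.card) * (η * x) ^ (2 * s) := by
    calc (A.card : ℝ) * (η * x) ^ (2 * s) ≤ _ := h3
      _ ≤ 2 ^ Q.card * ((2 * (x : ℝ)) ^ (2 * s) *
          Real.exp (-((s : ℝ) / 2 * ∑ q ∈ Q, (1 : ℝ) / q))) :=
          mul_le_mul_of_nonneg_left (by exact_mod_cast h4) (by positivity)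
      _ ≤ 2 ^ Q.card * ((2 * (x : ℝ)) ^ (2 * s) *
          ((η / 2) ^ (2 * s) * Real.exp (-(s : ℝ)))) := by gcongr
      _ = (Real.exp (-(s : ℝ)) * 2 ^ Q.card) * (η * x) ^ (2 * s) := by
          have : (2 * (x : ℝ)) ^ (2 * s) * (η / 2) ^ (2 * s) = (η * x) ^ (2 * s) := by
            rw [← mul_pow]
            congr 1
            ring
          rw [← this]
          ring
  exact le_of_mul_le_mul_right h6 (by positivity)

end Pool.Agent.H220M
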