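import Pool.Agent.H220M.Base4

/-!
Almost sure cancellation for one polynomial and one weight: Borel-Cantelli.
-/

set_option autoImplicit false

namespace Pool.Agent.H220M

open Finset MeasureTheory Filter Polynomial
open scoped ENNReal

theorem M6.unit_abs (u : ℤˣ) : |((u : ℤ) : ℝ)| = 1 := by
  rcases Int.units_eq_one_or u with h | h <;> rw [h] <;> simp

/-- the product of the primes -/
theorem M6.prod_le (y : ℕ) (Q₀ : Finset ℕ) (h : ∀ q ∈ Q₀, q.Prime ∧ q ≤ y) :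
    ∏ q ∈ Q₀, q ^ 2 ≤ 2 ^ (4 * y) := by
  have h1 : ∏ q ∈ Q₀, q ≤ 4 ^ y := by
    refine le_trans ?_ (primorial_le_four_pow y)
    unfold primorial
    apply Finset.prod_le_prod_of_subset_of_one_le'
    · intro q hq
      rw [Finset.mem_filter, Finset.mem_range]
      exact ⟨Nat.lt_succ_of_le (h q hq).2, (h q hq).1⟩
    · intro q hq _
      exact (Finset.mem_filter.1 hq).2.one_lt.le
  rw [Finset.prod_pow]
  calc (∏ q ∈ Q₀, q) ^ 2 ≤ (4 ^ y) ^ 2 := Nat.pow_le_pow_left h1 2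
    _ = 2 ^ (4 * y) := by
      rw [← pow_mul, show (4 : ℕ) = 2 ^ 2 by norm_num, ← pow_mul]
      congr 1
      ring

theorem M6.exp_le (j : ℕ) (hj : 1 ≤ j) :
    Real.exp (-((2 * (Nat.log 2 j + 1) : ℕ) : ℝ)) ≤ 1 / (j : ℝ) ^ 2 := by
  have h1 : (j : ℝ) ≤ Real.exp ((Nat.log 2 j + 1 : ℕ) : ℝ) := by
    have h2 : j < 2 ^ (Nat.log 2 j + 1) := Nat.lt_pow_succ_log_self (by norm_num) j
    have h3 : (j : ℝ) ≤ (2 : ℝ) ^ (Nat.log 2 j + 1) := by exact_mod_cast h2.le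
    have h4 : (2 : ℝ) ≤ Real.exp 1 := by
      have := Real.add_one_le_exp (1 : ℝ)
      linarith
    refine h3.trans ?_
    rw [← Real.exp_one_pow]
    exact pow_le_pow_left₀ (by norm_num) h4 _
  have hj0 : (0 : ℝ) < j := by exact_mod_cast hj
  rw [Real.exp_neg, one_div]
  apply inv_anti₀ (pow_pos hj0 2)
  have h5 : Real.exp ((2 * (Nat.log 2 j + 1) : ℕ) : ℝ) = Real.exp ((Nat.log 2 j + 1 : ℕ) : ℝ) ^ 2 := by
    rw [← Real.exp_nat_mul]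
    congr 1
    push_cast
    ring
  rw [h5]
  exact pow_le_pow_left₀ hj0.le h1 2

theorem M6.log_div (j : ℕ) : Nat.log 2 (j / 4) = Nat.log 2 j - 2 := by
  have h : j / 4 = j / 2 / 2 := by
    rw [Nat.div_div_eq_div_mul]
  rw [h, Nat.log_div_base, Nat.log_div_base]
  omega

open Classical in
/-- one scale -/
theorem M6.scale (hC0 : StmC0) (hM5 : StmM5) (hM6b : StmM6b) (g : ℕ → ℤˣ) (Q : Set ℕ)
    (hQ : ∀ q ∈ Q, q.Prime) (F : ℤ[X]) (w : ℕ → ℝ) (hw : ∀ m, |w m| ≤ 1) (η : ℝ) (hη : 0 < η)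
    (j r : ℕ) (hj : 1 ≤ j) (hr : 1 ≤ r)
    (hL : 4 * (2 * (Nat.log 2 j + 1)) * F.natDegree ≤ (Nat.log 2 (j / 4)) ^ 2)
    (hS : 4 * Real.log (2 / η) + 2 ≤
      ∑ q ∈ (Icc 1 (j / 4)).filter (fun q => q ∈ {q | q ∈ Q ∧ SimpleRoot F q} ∧
        (Nat.log 2 (j / 4)) ^ 2 < q), (1 : ℝ) / q) :
    coins {ω : ℕ → Bool | η * ((2 ^ j * r : ℕ) : ℝ) < |∑ m ∈ range (2 ^ j * r), w m *
      (((modif g Q ω ((F.eval ((m : ℤ) + 1)).natAbs) : ℤˣ) : ℤ) : ℝ)|}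
      ≤ ENNReal.ofReal (1 / (j : ℝ) ^ 2) := by
  obtain ⟨Q₀, hQ₀⟩ : ∃ Q₀ : Finset ℕ, Q₀ = (Icc 1 (j / 4)).filter
    (fun q => q ∈ {q | q ∈ Q ∧ SimpleRoot F q} ∧ (Nat.log 2 (j / 4)) ^ 2 < q) := ⟨_, rfl⟩
  rw [← hQ₀] at hS
  have hmem : ∀ q ∈ Q₀, q ∈ Q ∧ SimpleRoot F q ∧ (Nat.log 2 (j / 4)) ^ 2 < q ∧ q ≤ j / 4 := by
    intro q hq
    rw [hQ₀, Finset.mem_filter, Finset.mem_Icc] at hq
    exact ⟨hq.2.1.1, hq.2.1.2, hq.2.2, hq.1.2⟩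
  refine le_trans ?_ (ENNReal.ofReal_le_ofReal (M6.exp_le j hj))
  refine hC0.2 g Q Q₀ (fun q hq => ⟨(hmem q hq).1, hQ q (hmem q hq).1⟩)
    (fun h => η * ((2 ^ j * r : ℕ) : ℝ) < |∑ m ∈ range (2 ^ j * r), w m *
      (((h ((F.eval ((m : ℤ) + 1)).natAbs) : ℤˣ) : ℤ) : ℝ)|)
    (hM6b g Q F w (2 ^ j * r) (η * ((2 ^ j * r : ℕ) : ℝ))) _ (Real.exp_nonneg _) ?_
  intro g'
  have hprod : (∏ q ∈ Q₀, q ^ 2) ≤ 2 ^ j * r := by
    refine (M6.prod_le (j / 4) Q₀ (fun q hq => ⟨hQ q (hmem q hq).1, (hmem q hq).2.2.2⟩)).trans ?_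
    have h1 : 2 ^ (4 * (j / 4)) ≤ 2 ^ j := Nat.pow_le_pow_right (by norm_num) (Nat.mul_div_le j 4)
    calc 2 ^ (4 * (j / 4)) ≤ 2 ^ j * 1 := by rw [mul_one]; exact h1
      _ ≤ 2 ^ j * r := Nat.mul_le_mul_left _ hr
  have hcount := hM5 F η (2 * (Nat.log 2 j + 1)) Q₀ hη (by omega)
    (fun q hq => ⟨hQ q (hmem q hq).1, (hmem q hq).2.1, hL.trans (hmem q hq).2.2.1.le⟩) hS
    (2 ^ j * r) hprod
    (fun m => w m * (((g' ((F.eval ((m : ℤ) + 1)).natAbs) : ℤˣ) : ℤ) : ℝ))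
    (fun m => by
      show |w m * (((g' ((F.eval ((m : ℤ) + 1)).natAbs) : ℤˣ) : ℤ) : ℝ)| ≤ 1
      rw [abs_mul, M6.unit_abs, mul_one]
      exact hw m)
    (fun S => Classical.propDecidable _)
  refine le_trans (le_of_eq ?_) hcount
  congr 2
  ext S
  simp only [Finset.mem_filter]
  have e : ∀ m : ℕ, w m * (((g' ((F.eval ((m : ℤ) + 1)).natAbs) *
      flipU S ((F.eval ((m : ℤ) + 1)).natAbs) : ℤˣ) : ℤ) : ℝ) =
      w m * (((g' ((F.eval ((m : ℤ) + 1)).natAbs) : ℤˣ) : ℤ) : ℝ) *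
      (((flipU S ((F.eval ((m : ℤ) + 1)).natAbs) : ℤˣ) : ℤ) : ℝ) := by
    intro m
    rw [Units.val_mul, Int.cast_mul, mul_assoc]
  rw [Finset.sum_congr rfl (fun m _ => e m)]

/-- one pair `η`, `B` -/
theorem M6.one_pair (hC0 : StmC0) (hM5 : StmM5) (hM6b : StmM6b) (g : ℕ → ℤˣ) (Q : Set ℕ)
    (hQ : ∀ q ∈ Q, q.Prime) (F : ℤ[X]) (w : ℕ → ℝ) (hw : ∀ m, |w m| ≤ 1)
    (hT : Thick {q | q ∈ Q ∧ SimpleRoot F q}) (η : ℝ) (hη : 0 < η) (B : ℕ) (hB : 1 ≤ B) :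
    ∀ᵐ ω ∂coins, ∀ᶠ j : ℕ in atTop, ∀ r : ℕ, B ≤ r → r < 2 * B →
      |∑ m ∈ range (2 ^ j * r), w m *
        (((modif g Q ω ((F.eval ((m : ℤ) + 1)).natAbs) : ℤˣ) : ℤ) : ℝ)|
        ≤ η * ((2 ^ j * r : ℕ) : ℝ) := by
  classical
  -- eventual conditions
  have h1 : ∀ᶠ j : ℕ in atTop, 4 * Real.log (2 / η) + 2 ≤
      ∑ q ∈ (Icc 1 (j / 4)).filter (fun q => q ∈ {q | q ∈ Q ∧ SimpleRoot F q} ∧
        (Nat.log 2 (j / 4)) ^ 2 < q), (1 : ℝ) / q := by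
    have h2 := hT.comp (Nat.tendsto_div_const_atTop (by norm_num : (4 : ℕ) ≠ 0))
    have h3 := h2.eventually_ge_atTop (4 * Real.log (2 / η) + 2)
    filter_upwards [h3] with j hj
    refine hj.trans (le_of_eq ?_)
    simp only [Function.comp]
  have h2 : ∀ᶠ j : ℕ in atTop, 4 * (2 * (Nat.log 2 j + 1)) * F.natDegree ≤
      (Nat.log 2 (j / 4)) ^ 2 := by
    filter_upwards [eventually_ge_atTop (2 ^ (8 * F.natDegree + 10))] with j hj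
    have hL : 8 * F.natDegree + 10 ≤ Nat.log 2 j :=
      Nat.le_log_of_pow_le (by norm_num) hj
    rw [M6.log_div]
    obtain ⟨L, hL'⟩ : ∃ L, Nat.log 2 j = L + 2 := ⟨Nat.log 2 j - 2, by omega⟩
    rw [hL'] at hL ⊢
    rw [Nat.add_sub_cancel]
    have h3 : 8 * F.natDegree + 8 ≤ L := by omega
    nlinarith
  obtain ⟨j₀, hj₀⟩ := eventually_atTop.1 ((h1.and h2).and (eventually_ge_atTop 1))
  obtain ⟨E, hE⟩ : ∃ E : ℕ → Set (ℕ → Bool), E = fun j => ⋃ r ∈ Finset.Ico B (2 * B),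
    {ω : ℕ → Bool | η * ((2 ^ j * r : ℕ) : ℝ) < |∑ m ∈ range (2 ^ j * r), w m *
      (((modif g Q ω ((F.eval ((m : ℤ) + 1)).natAbs) : ℤˣ) : ℤ) : ℝ)|} := ⟨_, rfl⟩
  have hEj : ∀ j, j₀ ≤ j → coins (E j) ≤ ENNReal.ofReal (B * (1 / (j : ℝ) ^ 2)) := by
    intro j hj
    obtain ⟨⟨c1, c2⟩, c3⟩ := hj₀ j hj
    rw [hE]
    refine (measure_biUnion_finset_le _ _).trans ?_
    refine (Finset.sum_le_sum (fun r hr => ?_)).trans
      (le_of_eq (?_ : ∑ r ∈ Finset.Ico B (2 * B), ENNReal.ofReal (1 / (j : ℝ) ^ 2) = _))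
    · have hr1 : 1 ≤ r := hB.trans (Finset.mem_Ico.1 hr).1
      exact M6.scale hC0 hM5 hM6b g Q hQ F w hw η hη j r c3 hr1 c2 c1
    · rw [Finset.sum_const, Nat.card_Ico, nsmul_eq_mul, ENNReal.ofReal_mul (Nat.cast_nonneg B),
        ENNReal.ofReal_natCast]
      congr 2
      omega
  have hBC := ae_eventually_notMem (μ := coins) (s := fun j => if j₀ ≤ j then E j else ∅) (by
    have hle : ∀ j : ℕ, coins (if j₀ ≤ j then E j else ∅) ≤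
        ENNReal.ofReal (B * (1 / (j : ℝ) ^ 2)) := by
      intro j
      split_ifs with h
      · exact hEj j h
      · rw [measure_empty]; exact bot_le
    have hsum : Summable (fun j : ℕ => (B : ℝ) * (1 / (j : ℝ) ^ 2)) :=
      (Real.summable_one_div_nat_pow.2 (by norm_num)).mul_left _
    refine ne_top_of_le_ne_top ?_ (ENNReal.tsum_le_tsum hle)
    rw [← ENNReal.ofReal_tsum_of_nonneg (fun j => by positivity) hsum]
    exact ENNReal.ofReal_ne_top)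
  filter_upwards [hBC] with ω hω
  filter_upwards [hω, eventually_ge_atTop j₀] with j hj hjj r hr1 hr2
  rw [if_pos hjj, hE] at hj
  by_contra hc
  push Not at hc
  apply hj
  simp only [Set.mem_iUnion, Set.mem_ofPred_eq]
  exact ⟨r, Finset.mem_Ico.2 ⟨hr1, hr2⟩, hc⟩

theorem tM6 (hC0 : StmC0) (hM5 : StmM5) (hM6a : StmM6a) (hM6b : StmM6b) : StmM6 := by
  intro g Q hQ F w hw hT
  have h1 : ∀ᵐ ω ∂coins, ∀ i B : ℕ, 1 ≤ B → ∀ᶠ j : ℕ in atTop, ∀ r : ℕ, B ≤ r → r < 2 * B →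
      |∑ m ∈ range (2 ^ j * r), w m *
        (((modif g Q ω ((F.eval ((m : ℤ) + 1)).natAbs) : ℤˣ) : ℤ) : ℝ)|
        ≤ (1 / ((i : ℝ) + 1)) * ((2 ^ j * r : ℕ) : ℝ) := by
    rw [ae_all_iff]
    intro i
    rw [ae_all_iff]
    intro B
    by_cases hB : 1 ≤ B
    · filter_upwards [M6.one_pair hC0 hM5 hM6b g Q hQ F w hw hT (1 / ((i : ℝ) + 1))
        (by positivity) B hB] with ω hω _
      exact hω
    · exact Filter.Eventually.of_forall fun ω h => absurd h hB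
  filter_upwards [h1] with ω hω
  apply hM6a (fun m => w m *
      (((modif g Q ω ((F.eval ((m : ℤ) + 1)).natAbs) : ℤˣ) : ℤ) : ℝ))
  · intro m
    show |w m * (((modif g Q ω ((F.eval ((m : ℤ) + 1)).natAbs) : ℤˣ) : ℤ) : ℝ)| ≤ 1
    rw [abs_mul, M6.unit_abs, mul_one]
    exact hw m
  · intro η hη B hB
    obtain ⟨i, hi⟩ := exists_nat_one_div_lt hη
    filter_upwards [hω i B hB] with j hj r hr1 hr2
    refine (hj r hr1 hr2).trans ?_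
    exact mul_le_mul_of_nonneg_right hi.le (Nat.cast_nonneg _)

end Pool.Agent.H220M
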