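import Pool.Agent.H220M.Base4

set_option autoImplicit false

/-! # LQ-M6a: interpolation between scales -/

namespace Pool.Agent.H220M

open Finset Filter

theorem tM6a : StmM6a := by
  intro a ha h
  rw [Metric.tendsto_atTop]
  intro ε hε
  obtain ⟨B, hB⟩ : ∃ B : ℕ, 4 / ε < (B : ℝ) := exists_nat_gt _
  have h4 : 0 < 4 / ε := by positivity
  have hBpos : (0 : ℝ) < (B : ℝ) := h4.trans hB
  have hB1 : 0 < B := by exact_mod_cast hBpos
  have hBε : 4 < ε * (B : ℝ) := by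
    rw [div_lt_iff₀ hε] at hB
    linarith
  obtain ⟨J, hJ⟩ := eventually_atTop.1 (h (ε / 4) (by positivity) B hB1)
  refine ⟨2 ^ J * B, fun x hx => ?_⟩
  have hxB : 2 ^ J ≤ x / B := (Nat.le_div_iff_mul_le hB1).2 hx
  have hxB0 : x / B ≠ 0 := by
    have : 0 < 2 ^ J := by positivity
    omega
  obtain ⟨j, hj⟩ : ∃ j, j = Nat.log 2 (x / B) := ⟨_, rfl⟩
  have hjJ : J ≤ j := by
    rw [hj]
    exact Nat.le_log_of_pow_le one_lt_two hxB
  have h1 : 2 ^ j ≤ x / B := by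
    rw [hj]
    exact Nat.pow_log_le_self 2 hxB0
  have h2 : x / B < 2 ^ (j + 1) := by
    rw [hj]
    exact Nat.lt_pow_succ_log_self one_lt_two _
  have h1' : 2 ^ j * B ≤ x := (Nat.le_div_iff_mul_le hB1).1 h1
  have h2' : x < 2 ^ (j + 1) * B := (Nat.div_lt_iff_lt_mul hB1).1 h2
  have hpj : 0 < 2 ^ j := by positivity
  obtain ⟨r, hr⟩ : ∃ r, r = x / 2 ^ j := ⟨_, rfl⟩
  have hr1 : B ≤ r := by
    rw [hr, Nat.le_div_iff_mul_le hpj]
    linarith
  have hr2 : r < 2 * B := by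
    rw [hr, Nat.div_lt_iff_lt_mul hpj]
    calc x < 2 ^ (j + 1) * B := h2'
      _ = 2 * B * 2 ^ j := by ring
  have hx' : 2 ^ j * r ≤ x := by
    rw [hr]
    exact Nat.mul_div_le x (2 ^ j)
  have hx'' : x < 2 ^ j * r + 2 ^ j := by
    rw [hr]
    have := Nat.lt_mul_div_succ x hpj
    linarith
  have hs := hJ j hjJ r hr1 hr2
  have hsplit : ∑ m ∈ range x, a m =
      ∑ m ∈ range (2 ^ j * r), a m + ∑ m ∈ Ico (2 ^ j * r) x, a m := by
    rw [Finset.range_eq_Ico, Finset.range_eq_Ico,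
      Finset.sum_Ico_consecutive a (Nat.zero_le _) hx']
  have htail : |∑ m ∈ Ico (2 ^ j * r) x, a m| ≤ (2 : ℝ) ^ j := by
    calc |∑ m ∈ Ico (2 ^ j * r) x, a m| ≤ ∑ m ∈ Ico (2 ^ j * r) x, |a m| :=
          Finset.abs_sum_le_sum_abs _ _
      _ ≤ ∑ m ∈ Ico (2 ^ j * r) x, (1 : ℝ) := Finset.sum_le_sum fun m _ => ha m
      _ = ((x - 2 ^ j * r : ℕ) : ℝ) := by simp
      _ ≤ ((2 ^ j : ℕ) : ℝ) := by
          have : x - 2 ^ j * r ≤ 2 ^ j := by omega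
          exact_mod_cast this
      _ = (2 : ℝ) ^ j := by push_cast; ring
  have hpx : (2 : ℝ) ^ j * B ≤ (x : ℝ) := by exact_mod_cast h1'
  have hpj' : (0 : ℝ) < (2 : ℝ) ^ j := by positivity
  have hxpos : (0 : ℝ) < (x : ℝ) := lt_of_lt_of_le (by positivity) hpx
  have hpow : (2 : ℝ) ^ j ≤ ε / 4 * x := by
    nlinarith
  have hx3 : ((2 ^ j * r : ℕ) : ℝ) ≤ (x : ℝ) := by exact_mod_cast hx'
  have htot : |∑ m ∈ range x, a m| ≤ ε / 2 * x := by
    rw [hsplit]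
    refine (abs_add_le _ _).trans ?_
    have h5 : ε / 4 * ((2 ^ j * r : ℕ) : ℝ) ≤ ε / 4 * x :=
      mul_le_mul_of_nonneg_left hx3 (by positivity)
    linarith
  rw [Real.dist_eq, sub_zero, abs_div, abs_of_pos hxpos, div_lt_iff₀ hxpos]
  refine lt_of_le_of_lt htot ?_
  nlinarith

end Pool.Agent.H220M
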