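import Pool.Agent.H220M.Base4

/-!
# `StmM6b`: measurability of the large-sum events (LQ-M6b)
-/

open Finset MeasureTheory Filter Polynomial
open scoped ENNReal

namespace Pool.Agent.H220M

open Classical in
/-- For a fixed `m`, the sign `modif g Q ω m` is a measurable function of the coins `ω`. -/
theorem measurable_modif_real (g : ℕ → ℤˣ) (Q : Set ℕ) (m : ℕ) :
    Measurable fun ω : ℕ → Bool => (((modif g Q ω m : ℤˣ) : ℤ) : ℝ) := by
  have key : (fun ω : ℕ → Bool => (((modif g Q ω m : ℤˣ) : ℤ) : ℝ)) =
      fun ω : ℕ → Bool => (((g m : ℤˣ) : ℤ) : ℝ) *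
        ∏ q ∈ m.primeFactors.filter (fun q => q ∈ Q),
          (fun b : Bool => (((((if b = true then (-1 : ℤˣ) else 1) ^ (m.factorization q) : ℤˣ)) :
            ℤ) : ℝ)) (ω q) := by
    funext ω
    simp only [modif, Units.val_mul, Units.coe_prod, Int.cast_mul, Int.cast_prod]
  rw [key]
  refine measurable_const.mul ?_
  refine Finset.measurable_prod _ ?_
  intro q _
  exact (measurable_of_countable (fun b : Bool =>
    (((((if b = true then (-1 : ℤˣ) else 1) ^ (m.factorization q) : ℤˣ)) : ℤ) : ℝ))).comp
      (measurable_pi_apply q)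

theorem tM6b : StmM6b := by
  intro g Q F w x c
  refine measurableSet_lt measurable_const ?_
  have h : Measurable fun ω : ℕ → Bool => ∑ m ∈ range x, w m *
      (((modif g Q ω ((F.eval ((m : ℤ) + 1)).natAbs) : ℤˣ) : ℤ) : ℝ) := by
    refine Finset.measurable_sum _ ?_
    intro m _
    exact (measurable_modif_real g Q _).const_mul (w m)
  exact (continuous_abs.measurable).comp h

end Pool.Agent.H220M
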