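import Pool.Agent.H220M.Base2

/-!
Abstract second moment bound (part P1).
-/

set_option autoImplicit false

namespace Pool.Agent.H220M

open Finset

theorem tP1 (hB1 : StmB1) (hB2 : StmB2) (hB4 : StmB4) : StmP1 := by
  classical
  intro Q hQ V P κ hVP hPper hPc G hGle x hx
  set M : ℕ := ∏ q ∈ Q, q ^ 2 with hM
  have hMpos : 0 < M := Finset.prod_pos fun q hq => pow_pos (hQ q hq).pos 2
  have key := hB4 Q x G hGle V
  have hκ : ∀ q ∈ Q, 0 ≤ 1 - κ q := by
    intro q hq
    have h1 := hPc q hq 0 (Classical.decPred _)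
    have h2 : (0 : ℝ) ≤ (q : ℝ) ^ 2 * (1 - κ q) := le_trans (Nat.cast_nonneg _) h1
    have h3 : (0 : ℝ) < (q : ℝ) ^ 2 := by
      have : (0 : ℝ) < q := by exact_mod_cast (hQ q hq).pos
      positivity
    exact nonneg_of_mul_nonneg_right h2 h3
  have hcount : (((range x ×ˢ range x).filter
      (fun p => ∀ q ∈ Q, Even (V q p.1 + V q p.2))).card : ℝ)
        ≤ x * (2 * x * ∏ q ∈ Q, (1 - κ q)) := by
    have h1 : ((range x ×ˢ range x).filter
        (fun p => ∀ q ∈ Q, Even (V q p.1 + V q p.2))).card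
        = ∑ m' ∈ range x, ((range x).filter (fun m => ∀ q ∈ Q, Even (V q m + V q m'))).card := by
      rw [Finset.card_filter, Finset.sum_product_right]
      apply Finset.sum_congr rfl
      intro m' hm'
      rw [Finset.card_filter]
    have h2 : ∀ m' : ℕ, (((range x).filter (fun m => ∀ q ∈ Q, Even (V q m + V q m'))).card : ℝ)
        ≤ 2 * x * ∏ q ∈ Q, (1 - κ q) := by
      intro m'
      have hsub : ((range x).filter (fun m => ∀ q ∈ Q, Even (V q m + V q m')))
          ⊆ (range x).filter (fun m => ∀ q ∈ Q, P q (V q m') m) := by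
        intro m hm
        rw [Finset.mem_filter] at hm ⊢
        refine ⟨hm.1, fun q hq => ?_⟩
        apply hVP q hq (V q m') m
        have := hm.2 q hq
        rw [Nat.even_iff] at this
        omega
      have hper : ∀ q ∈ Q, ∀ r, (P q (V q m') (r + q ^ 2) ↔ P q (V q m') r) :=
        fun q hq r => hPper q hq (V q m') r
      have hperk : ∀ q ∈ Q, ∀ k r, (P q (V q m') (r + q ^ 2 * k) ↔ P q (V q m') r) := by
        intro q hq k
        induction k with
        | zero => intro r; simp
        | succ k ih => intro r; rw [Nat.mul_succ, ← add_assoc, hper q hq, ih]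
      have hperM : ∀ r, ((∀ q ∈ Q, P q (V q m') (r + M)) ↔ ∀ q ∈ Q, P q (V q m') r) := by
        intro r
        refine forall₂_congr fun q hq => ?_
        obtain ⟨k, hk⟩ := Finset.dvd_prod_of_mem (fun q => q ^ 2) hq
        rw [hM, hk]
        exact hperk q hq k r
      have hc1 := hB2 M x hMpos (fun r => ∀ q ∈ Q, P q (V q m') r) hperM
      have hc2 := hB1 Q hQ (fun q r => P q (V q m') r) hper
      have hc3 : ((∏ q ∈ Q, ((range (q ^ 2)).filter (fun r => P q (V q m') r)).card : ℕ) : ℝ)
          ≤ M * ∏ q ∈ Q, (1 - κ q) := by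
        rw [hM]
        push_cast
        rw [← Finset.prod_mul_distrib]
        apply Finset.prod_le_prod
        · intro q hq
          exact Nat.cast_nonneg _
        · intro q hq
          exact hPc q hq (V q m') _
      have hP0 : 0 ≤ ∏ q ∈ Q, (1 - κ q) := Finset.prod_nonneg hκ
      have hxM : (((x / M : ℕ) : ℝ) + 1) * M ≤ 2 * x := by
        have h3 : x / M * M ≤ x := Nat.div_mul_le_self x M
        have h4 : ((x / M * M : ℕ) : ℝ) ≤ x := by exact_mod_cast h3
        have h5 : (M : ℝ) ≤ x := by exact_mod_cast hx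
        push_cast at h4
        linarith
      calc (((range x).filter (fun m => ∀ q ∈ Q, Even (V q m + V q m'))).card : ℝ)
          ≤ (((range x).filter (fun m => ∀ q ∈ Q, P q (V q m') m)).card : ℝ) := by
            exact_mod_cast Finset.card_le_card hsub
        _ ≤ (((x / M + 1) * ((range M).filter (fun m => ∀ q ∈ Q, P q (V q m') m)).card : ℕ)
              : ℝ) := by exact_mod_cast hc1
        _ = (((x / M : ℕ) : ℝ) + 1) * ((∏ q ∈ Q,
              ((range (q ^ 2)).filter (fun r => P q (V q m') r)).card : ℕ) : ℝ) := by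
            rw [← hc2]
            push_cast
            rfl
        _ ≤ (((x / M : ℕ) : ℝ) + 1) * (M * ∏ q ∈ Q, (1 - κ q)) := by
            apply mul_le_mul_of_nonneg_left hc3
            positivity
        _ = ((((x / M : ℕ) : ℝ) + 1) * M) * ∏ q ∈ Q, (1 - κ q) := by ring
        _ ≤ 2 * x * ∏ q ∈ Q, (1 - κ q) :=
            mul_le_mul_of_nonneg_right hxM hP0
    rw [h1]
    push_cast
    calc ∑ m' ∈ range x, (((range x).filter (fun m => ∀ q ∈ Q, Even (V q m + V q m'))).card : ℝ)
        ≤ ∑ m' ∈ range x, (2 * x * ∏ q ∈ Q, (1 - κ q)) :=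
          Finset.sum_le_sum fun m' _ => h2 m'
      _ = x * (2 * x * ∏ q ∈ Q, (1 - κ q)) := by
          rw [Finset.sum_const, Finset.card_range, nsmul_eq_mul]
  calc ∑ S ∈ Q.powerset, (∑ m ∈ range x, G m * ∏ q ∈ S, (-1 : ℝ) ^ (V q m)) ^ 2
      ≤ 2 ^ Q.card * (((range x ×ˢ range x).filter
          (fun p => ∀ q ∈ Q, Even (V q p.1 + V q p.2))).card : ℝ) := by
        convert key
    _ ≤ 2 ^ Q.card * (x * (2 * x * ∏ q ∈ Q, (1 - κ q))) := by
        apply mul_le_mul_of_nonneg_left hcount
        positivity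
    _ = 2 ^ Q.card * (2 * x ^ 2 * ∏ q ∈ Q, (1 - κ q)) := by ring

end Pool.Agent.H220M
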