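import Pool.Agent.H220M.Base2

/-!
Values of polynomials, all but few modifications.
-/

set_option autoImplicit false

namespace Pool.Agent.H220M

open Finset Polynomial

namespace TP3

theorem flip_cast (S : Finset ℕ) (k : ℕ) :
    (((flipU S k : ℤˣ) : ℤ) : ℝ) = ∏ q ∈ S, (-1 : ℝ) ^ (k.factorization q) := by
  unfold flipU
  rw [Units.coe_prod, Int.cast_prod]
  refine Finset.prod_congr rfl fun q _ => ?_
  push_cast
  rfl

theorem flip_abs (S : Finset ℕ) (k : ℕ) : |(((flipU S k : ℤˣ) : ℤ) : ℝ)| = 1 := by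
  rw [flip_cast, Finset.abs_prod]
  refine Finset.prod_eq_one fun q _ => ?_
  rw [abs_pow, abs_neg, abs_one, one_pow]

theorem flip_split (S T : Finset ℕ) (k : ℕ) : flipU S k = flipU (S ∩ T) k * flipU (S \ T) k := by
  unfold flipU
  rw [Finset.prod_inter_mul_prod_diff]

open Classical in
/-- Chebyshev -/
theorem cheb (hP1 : StmP1) (hP2 : StmP2) (F : ℤ[X]) (η : ℝ) (hη : 0 < η) (Q : Finset ℕ)
    (hQ : ∀ q ∈ Q, q.Prime) (hQ2 : ∀ q ∈ Q, SimpleRoot F q ∧ 2 * F.natDegree ≤ q)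
    (hprod : ∏ q ∈ Q, (1 - 1 / (2 * (q : ℝ))) ≤ η ^ 3 / 2) (x : ℕ)
    (hx : (∏ q ∈ Q, q ^ 2) ≤ x) (G : ℕ → ℝ) (hG : ∀ m, |G m| ≤ 1) :
    ((Q.powerset.filter (fun S => η * x <
        |∑ m ∈ range x, G m *
          (((flipU S ((F.eval ((m : ℤ) + 1)).natAbs) : ℤˣ) : ℤ) : ℝ)|)).card : ℝ)
        ≤ η * 2 ^ Q.card := by
  have h1 := hP1 Q hQ (fun q m => (F.eval ((m : ℤ) + 1)).natAbs.factorization q)
    (fun q e r => locP F q e r) (fun q => 1 / (2 * (q : ℝ)))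
    (fun q hq e => (hP2 F q (hQ q hq) (hQ2 q hq).2 (hQ2 q hq).1 e).1)
    (fun q hq e => (hP2 F q (hQ q hq) (hQ2 q hq).2 (hQ2 q hq).1 e).2.1)
    (fun q hq e => (hP2 F q (hQ q hq) (hQ2 q hq).2 (hQ2 q hq).1 e).2.2) G hG x hx
  have hxpos : 0 < x := lt_of_lt_of_le
    (Finset.prod_pos fun q hq => pow_pos (hQ q hq).pos 2) hx
  have hx' : (0 : ℝ) < x := by exact_mod_cast hxpos
  simp only [← flip_cast] at h1
  obtain ⟨A, hA⟩ : ∃ A, A = Q.powerset.filter (fun S => η * x <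
        |∑ m ∈ range x, G m *
          (((flipU S ((F.eval ((m : ℤ) + 1)).natAbs) : ℤˣ) : ℤ) : ℝ)|) := ⟨_, rfl⟩
  rw [← hA]
  have h2 : (A.card : ℝ) * (η * x) ^ 2 ≤ ∑ S ∈ Q.powerset, (∑ m ∈ range x, G m *
      (((flipU S ((F.eval ((m : ℤ) + 1)).natAbs) : ℤˣ) : ℤ) : ℝ)) ^ 2 := by
    calc (A.card : ℝ) * (η * x) ^ 2 = ∑ S ∈ A, (η * x) ^ 2 := by
          rw [Finset.sum_const, nsmul_eq_mul]
      _ ≤ ∑ S ∈ A, (∑ m ∈ range x, G m *
      (((flipU S ((F.eval ((m : ℤ) + 1)).natAbs) : ℤˣ) : ℤ) : ℝ)) ^ 2 := by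
          refine Finset.sum_le_sum fun S hS => ?_
          rw [hA, Finset.mem_filter] at hS
          rw [← sq_abs (∑ m ∈ range x, G m *
      (((flipU S ((F.eval ((m : ℤ) + 1)).natAbs) : ℤˣ) : ℤ) : ℝ))]
          exact pow_le_pow_left₀ (by positivity) hS.2.le 2
      _ ≤ _ := by
          refine Finset.sum_le_sum_of_subset_of_nonneg ?_ fun S _ _ => sq_nonneg _
          rw [hA]
          exact Finset.filter_subset _ _
  have h3 := h2.trans h1
  have h4 : (2 : ℝ) ^ Q.card * (2 * x ^ 2 * ∏ q ∈ Q, (1 - 1 / (2 * (q : ℝ)))) ≤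
      (η * 2 ^ Q.card) * (η * x) ^ 2 := by
    calc (2 : ℝ) ^ Q.card * (2 * x ^ 2 * ∏ q ∈ Q, (1 - 1 / (2 * (q : ℝ)))) ≤
          (2 : ℝ) ^ Q.card * (2 * x ^ 2 * (η ^ 3 / 2)) := by gcongr
      _ = (η * 2 ^ Q.card) * (η * x) ^ 2 := by ring
  exact le_of_mul_le_mul_right (h3.trans h4) (by positivity)

theorem small (F : ℤ[X]) (Q : Finset ℕ) (hQ : ∀ q ∈ Q, q.Prime) (P : ℕ → Prop)
    [DecidablePred P] (d : ℕ) (L : ℝ)
    (hL : L ≤ ∑ q ∈ Q.filter P, (1 : ℝ) / q) :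
    L - d ≤ ∑ q ∈ Q.filter (fun q => P q ∧ d ≤ q), (1 : ℝ) / q := by
  have h1 : ∑ q ∈ Q.filter P, (1 : ℝ) / q = ∑ q ∈ (Q.filter P).filter (fun q => d ≤ q),
      (1 : ℝ) / q + ∑ q ∈ (Q.filter P).filter (fun q => ¬ d ≤ q), (1 : ℝ) / q :=
    (Finset.sum_filter_add_sum_filter_not _ _ _).symm
  have h2 : ∑ q ∈ (Q.filter P).filter (fun q => ¬ d ≤ q), (1 : ℝ) / q ≤ d := by
    calc ∑ q ∈ (Q.filter P).filter (fun q => ¬ d ≤ q), (1 : ℝ) / q ≤
          ∑ q ∈ (Q.filter P).filter (fun q => ¬ d ≤ q), (1 : ℝ) := by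
          refine Finset.sum_le_sum fun q hq => ?_
          rw [Finset.mem_filter, Finset.mem_filter] at hq
          have h3 : (1 : ℝ) ≤ q := by exact_mod_cast (hQ q hq.1.1).one_lt.le
          rw [div_le_one (by linarith)]
          exact h3
      _ = (((Q.filter P).filter (fun q => ¬ d ≤ q)).card : ℝ) := by simp
      _ ≤ ((range d).card : ℝ) := by
          have h3 : (Q.filter P).filter (fun q => ¬ d ≤ q) ⊆ range d := by
            intro q hq
            rw [Finset.mem_filter] at hq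
            rw [Finset.mem_range]
            exact not_le.1 hq.2
          exact_mod_cast Finset.card_le_card h3
      _ = d := by simp
  rw [Finset.filter_filter] at h1
  linarith

theorem prod_exp (Q : Finset ℕ) (hQ : ∀ q ∈ Q, q.Prime) (B : ℝ)
    (h : B ≤ ∑ q ∈ Q, (1 : ℝ) / q) :
    ∏ q ∈ Q, (1 - 1 / (2 * (q : ℝ))) ≤ Real.exp (-(B / 2)) := by
  calc ∏ q ∈ Q, (1 - 1 / (2 * (q : ℝ))) ≤ ∏ q ∈ Q, Real.exp (-(1 / (2 * (q : ℝ)))) := by
        refine Finset.prod_le_prod (fun q hq => ?_) fun q _ => ?_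
        · have h3 : (1 : ℝ) ≤ q := by exact_mod_cast (hQ q hq).one_lt.le
          rw [sub_nonneg, div_le_one (by linarith)]
          linarith
        · have := Real.add_one_le_exp (-(1 / (2 * (q : ℝ))))
          linarith
    _ = Real.exp (∑ q ∈ Q, -(1 / (2 * (q : ℝ)))) := (Real.exp_sum _ _).symm
    _ ≤ Real.exp (-(B / 2)) := by
        apply Real.exp_le_exp.2
        have h2 : ∑ q ∈ Q, -(1 / (2 * (q : ℝ))) = -((∑ q ∈ Q, (1 : ℝ) / q) / 2) := by
          rw [Finset.sum_neg_distrib, Finset.sum_div]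
          congr 1
          refine Finset.sum_congr rfl fun q _ => ?_
          rw [div_div, mul_comm]
        rw [h2]
        linarith

end TP3

theorem tP3 (hP1 : StmP1) (hP2 : StmP2) : StmP3 := by
  classical
  intro F η hη
  obtain ⟨d, hd⟩ : ∃ d, d = 2 * F.natDegree := ⟨_, rfl⟩
  refine ⟨d + 2 * Real.log (2 / η ^ 3), fun Q hQ hL => ?_⟩
  obtain ⟨Q₁, hQ₁⟩ : ∃ Q₁, Q₁ = Q.filter (fun q => SimpleRoot F q ∧ d ≤ q) := ⟨_, rfl⟩
  have hsub : Q₁ ⊆ Q := by rw [hQ₁]; exact Finset.filter_subset _ _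
  have hQ₁p : ∀ q ∈ Q₁, q.Prime := fun q hq => hQ q (hsub hq)
  have hQ₁2 : ∀ q ∈ Q₁, SimpleRoot F q ∧ 2 * F.natDegree ≤ q := by
    intro q hq
    rw [hQ₁, Finset.mem_filter, hd] at hq
    exact hq.2
  have h1 : 2 * Real.log (2 / η ^ 3) ≤ ∑ q ∈ Q₁, (1 : ℝ) / q := by
    have := TP3.small F Q hQ (fun q => SimpleRoot F q) d _ hL
    rw [hQ₁]
    linarith
  have hprod : ∏ q ∈ Q₁, (1 - 1 / (2 * (q : ℝ))) ≤ η ^ 3 / 2 := by
    refine (TP3.prod_exp Q₁ hQ₁p _ h1).trans ?_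
    have h2 : -(2 * Real.log (2 / η ^ 3) / 2) = Real.log (η ^ 3 / 2) := by
      rw [mul_div_cancel_left₀ _ (two_ne_zero), ← Real.log_inv, inv_div]
    rw [h2, Real.exp_log (by positivity)]
  refine ⟨∏ q ∈ Q₁, q ^ 2, fun x hx G hG => ?_⟩
  obtain ⟨bad, hbad⟩ : ∃ bad : Finset ℕ → Prop, bad = fun S => η * x <
        |∑ m ∈ range x, G m *
          (((flipU S ((F.eval ((m : ℤ) + 1)).natAbs) : ℤˣ) : ℤ) : ℝ)| := ⟨_, rfl⟩
  have hgoal : (((Q.powerset.filter bad).card : ℕ) : ℝ) ≤ η * 2 ^ Q.card := by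
    have hmap : ∀ S ∈ Q.powerset.filter bad, S \ Q₁ ∈ (Q \ Q₁).powerset := by
      intro S hS
      rw [Finset.mem_filter, Finset.mem_powerset] at hS
      rw [Finset.mem_powerset]
      exact Finset.sdiff_subset_sdiff hS.1 (le_refl _)
    have hcard := Finset.card_eq_sum_card_fiberwise (s := Q.powerset.filter bad)
      (t := (Q \ Q₁).powerset) (f := fun S => S \ Q₁) hmap
    have hfib : ∀ U ∈ (Q \ Q₁).powerset,
        ((((Q.powerset.filter bad).filter (fun S => S \ Q₁ = U)).card : ℕ) : ℝ) ≤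
          η * 2 ^ Q₁.card := by
      intro U _
      have h3 := TP3.cheb hP1 hP2 F η hη Q₁ hQ₁p hQ₁2 hprod x hx
        (fun m => G m * (((flipU U ((F.eval ((m : ℤ) + 1)).natAbs) : ℤˣ) : ℤ) : ℝ))
        (fun m => by rw [abs_mul, TP3.flip_abs, mul_one]; exact hG m)
      refine le_trans ?_ h3
      have h4 : ((Q.powerset.filter bad).filter (fun S => S \ Q₁ = U)).card ≤
          (Q₁.powerset.filter (fun S => η * x < |∑ m ∈ range x,
            (G m * (((flipU U ((F.eval ((m : ℤ) + 1)).natAbs) : ℤˣ) : ℤ) : ℝ)) *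
            (((flipU S ((F.eval ((m : ℤ) + 1)).natAbs) : ℤˣ) : ℤ) : ℝ)|)).card := by
        refine Finset.card_le_card_of_injOn (fun S => S ∩ Q₁) ?_ ?_
        · intro S hS
          rw [Finset.mem_coe, Finset.mem_filter, Finset.mem_filter, hbad] at hS
          obtain ⟨⟨_, h5⟩, h6⟩ := hS
          rw [Finset.mem_coe, Finset.mem_filter, Finset.mem_powerset]
          refine ⟨Finset.inter_subset_right, ?_⟩
          have h7 : ∀ m ∈ range x, (G m *
              (((flipU U ((F.eval ((m : ℤ) + 1)).natAbs) : ℤˣ) : ℤ) : ℝ)) *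
              (((flipU (S ∩ Q₁) ((F.eval ((m : ℤ) + 1)).natAbs) : ℤˣ) : ℤ) : ℝ) =
              G m * (((flipU S ((F.eval ((m : ℤ) + 1)).natAbs) : ℤˣ) : ℤ) : ℝ) := by
            intro m _
            rw [TP3.flip_split S Q₁, h6]
            push_cast
            ring
          rw [Finset.sum_congr rfl h7]
          exact h5
        · intro S hS S' hS' he
          rw [Finset.mem_coe, Finset.mem_filter] at hS hS'
          simp only at he
          rw [← Finset.sdiff_union_inter S Q₁, ← Finset.sdiff_union_inter S' Q₁, he, hS.2, hS'.2]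
      exact_mod_cast h4
    rw [hcard]
    push_cast
    calc _ ≤ ∑ U ∈ (Q \ Q₁).powerset, η * 2 ^ Q₁.card := Finset.sum_le_sum hfib
      _ = 2 ^ (Q \ Q₁).card * (η * 2 ^ Q₁.card) := by
          rw [Finset.sum_const, Finset.card_powerset, nsmul_eq_mul]
          push_cast
          rfl
      _ = η * 2 ^ Q.card := by
          rw [← Finset.card_sdiff_add_card_eq_card hsub, pow_add]
          ring
  rw [hbad] at hgoal
  exact hgoal

end Pool.Agent.H220M
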